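import Pool.Agent.Helper14.RG.AU.Inner

set_option autoImplicit false

/-!
# Regular actions by algebra automorphisms on a matrix algebra, and their differential
-/

namespace Pool.Agent.Helper14.RG.AU

open Polynomial Matrix Pool.Agent.Helper97.CG Pool.Agent.Helper14.RG

section Act

variable {k : Type*} [Field k] {ι : Type*} {n : ι → ℕ} (J : ∀ i, Matrix (Fin (n i)) (Fin (n i)) k)

/-- A regular action of `∏ IsoG (J i)` by algebra automorphisms of `M_m` -/
structure IsAct {m : ℕ} (Φ : (∀ i, IsoG (J i)) → Matrix (Fin m) (Fin m) k → Matrix (Fin m) (Fin m) k) :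
    Prop where
  one : ∀ Y, Φ 1 Y = Y
  mul : ∀ s s' Y, Φ (s * s') Y = Φ s (Φ s' Y)
  map_mul : ∀ s Y Z, Φ s (Y * Z) = Φ s Y * Φ s Z
  map_add : ∀ s Y Z, Φ s (Y + Z) = Φ s Y + Φ s Z
  map_smul : ∀ s (a : k) Y, Φ s (a • Y) = a • Φ s Y
  tr : ∀ s Y, (Φ s Y).trace = Y.trace
  reg : ∀ Y a d, (fun s => Φ s Y a d) ∈ prodAlg (fun i => mAlg (isoHom (J i)))

/-- `D` is the differential of the action `Φ` -/
def IsDiff {m : ℕ} (Φ : (∀ i, IsoG (J i)) → Matrix (Fin m) (Fin m) k → Matrix (Fin m) (Fin m) k)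
    (D : Mt k n →ₗ[k] Matrix (Fin m) (Fin m) k) : Prop :=
  (∀ X, (D X).trace = 0) ∧ ∀ c X, Cv J c X → ∀ Y, Dv (fun t => Φ (c t) Y) (D X * Y - Y * D X)

theorem IsAct.exists_diff [CharZero k] {m : ℕ}
    {Φ : (∀ i, IsoG (J i)) → Matrix (Fin m) (Fin m) k → Matrix (Fin m) (Fin m) k}
    (h : IsAct J Φ) : ∃ D, IsDiff J Φ D := by
  rcases Nat.eq_zero_or_pos m with hm | hm
  · subst hm
    refine ⟨0, fun X => ?_, fun c X _ Y => Dv.of_entries fun i => i.elim0⟩
    rw [LinearMap.zero_apply, Matrix.trace_zero]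
  let b0 : Fin m := ⟨0, hm⟩
  choose L hL using fun (Y : Matrix (Fin m) (Fin m) k) (a d : Fin m) =>
    AU.exists_diff J (h.reg Y a d)
  let N : Matrix (Fin m) (Fin m) k → (Mt k n →ₗ[k] Matrix (Fin m) (Fin m) k) := fun Y =>
    { toFun := fun X => Matrix.of fun a d => L Y a d X
      map_add' := fun X X' => by
        ext a d
        exact (L Y a d).map_add X X'
      map_smul' := fun r X => by
        ext a d
        exact (L Y a d).map_smul r X }
  have hN : ∀ Y c X, Cv J c X → Dv (fun t => Φ (c t) Y) (N Y X) := by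
    intro Y c X hc
    exact Dv.of_entries fun a d => hL Y a d c X hc
  have hm0 : (m : k) ≠ 0 := by rw [Nat.cast_ne_zero]; omega
  let D0 : Mt k n →ₗ[k] Matrix (Fin m) (Fin m) k :=
    ∑ a, (LinearMap.mulRight k (single b0 a (1 : k))).comp (N (single a b0 1))
  have hD0 : ∀ X, D0 X = ∑ a, N (single a b0 1) X * single b0 a 1 := by
    intro X
    show (∑ a, (LinearMap.mulRight k (single b0 a (1 : k))).comp (N (single a b0 1))) X = _
    rw [LinearMap.sum_apply]
    rfl
  let D : Mt k n →ₗ[k] Matrix (Fin m) (Fin m) k :=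
    { toFun := fun X => D0 X - ((D0 X).trace / m) • (1 : Matrix (Fin m) (Fin m) k)
      map_add' := fun X X' => by
        rw [_root_.map_add, Matrix.trace_add, add_div, add_smul]
        abel
      map_smul' := fun r X => by
        rw [_root_.map_smul, Matrix.trace_smul, RingHom.id_apply, smul_sub, smul_smul, smul_eq_mul,
          mul_div_assoc] }
  have hD : ∀ X, D X = D0 X - ((D0 X).trace / m) • (1 : Matrix (Fin m) (Fin m) k) := fun X => rfl
  refine ⟨D, fun X => ?_, fun c X hc Y => ?_⟩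
  · rw [hD, Matrix.trace_sub, Matrix.trace_smul, Matrix.trace_one, Fintype.card_fin, smul_eq_mul,
      div_mul_cancel₀ _ hm0, sub_self]
  · have e1 : D X * Y - Y * D X = N Y X := by
      have h1 : D X * Y - Y * D X = D0 X * Y - Y * D0 X := by
        rw [hD, Matrix.sub_mul, Matrix.mul_sub, Matrix.smul_mul, Matrix.mul_smul, Matrix.one_mul,
          Matrix.mul_one]
        abel
      rw [h1, hD0]
      refine inner_of_derivation b0 (fun Y => N Y X) ?_ ?_ ?_ Y
      · intro Y Z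
        refine (hN (Y + Z) c X hc).uniq (((hN Y c X hc).add (hN Z c X hc)).congr (fun t => ?_) rfl)
        exact h.map_add _ _ _
      · intro a Y
        have h2 := (hN Y c X hc).lin (LinearMap.lsmul k (Matrix (Fin m) (Fin m) k) a)
        exact (hN (a • Y) c X hc).uniq (h2.congr (fun t => h.map_smul _ _ _) rfl)
      · intro Y Z
        have h2 := (hN Y c X hc).mul (hN Z c X hc)
        refine (hN (Y * Z) c X hc).uniq (h2.congr (fun t => h.map_mul _ _ _) ?_)
        rw [hc.1, h.one, h.one, add_comm]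
    rw [e1]
    exact hN Y c X hc

end Act

section Lie

variable {k : Type*} [Field k] [CharZero k] {ι : Type*} {n : ι → ℕ}
  {J : ∀ i, Matrix (Fin (n i)) (Fin (n i)) k} {m : ℕ}
  {Φ : (∀ i, IsoG (J i)) → Matrix (Fin m) (Fin m) k → Matrix (Fin m) (Fin m) k}
  {D : Mt k n →ₗ[k] Matrix (Fin m) (Fin m) k}

/-- a traceless matrix is determined by its commutators -/
lemma traceless_uniq {A B : Matrix (Fin m) (Fin m) k} (hA : A.trace = 0) (hB : B.trace = 0)
    (h : ∀ Y, A * Y - Y * A = B * Y - Y * B) : A = B := by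
  rcases Nat.eq_zero_or_pos m with hm | hm
  · subst hm
    exact Subsingleton.elim _ _
  obtain ⟨c, hc⟩ := scalar_of_comm_all (A - B) (fun Y => by
    have h1 := h Y
    rw [Matrix.sub_mul, Matrix.mul_sub]
    have h2 : A * Y = B * Y - Y * B + Y * A := by rw [← h1]; abel
    rw [h2]
    abel)
  have h3 := congrArg Matrix.trace hc
  rw [Matrix.trace_sub, hA, hB, sub_self, Matrix.trace_smul, Matrix.trace_one, Fintype.card_fin,
    smul_eq_mul] at h3
  have hm0 : (m : k) ≠ 0 := by rw [Nat.cast_ne_zero]; omega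
  have h4 : c = 0 := (mul_eq_zero.mp h3.symm).resolve_right hm0
  rw [h4, zero_smul] at hc
  exact sub_eq_zero.mp hc

/-- the conjugate of a family of matrices -/
def cj (s : ∀ i, IsoG (J i)) (X : Mt k n) : Mt k n :=
  fun i => isoHom (J i) (s i) * X i * isoHom (J i) (s i)⁻¹

omit [CharZero k] in
lemma cj_add (s : ∀ i, IsoG (J i)) (X Y : Mt k n) : cj s (X + Y) = cj s X + cj s Y := by
  funext i
  show isoHom (J i) (s i) * (X i + Y i) * isoHom (J i) (s i)⁻¹ = _
  rw [Matrix.mul_add, Matrix.add_mul]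
  rfl

omit [CharZero k] in
lemma cj_smul (s : ∀ i, IsoG (J i)) (r : k) (X : Mt k n) : cj s (r • X) = r • cj s X := by
  funext i
  show isoHom (J i) (s i) * (r • X i) * isoHom (J i) (s i)⁻¹ = _
  rw [Matrix.mul_smul, Matrix.smul_mul]
  rfl

/-- conjugation as a linear map -/
def cjL (s : ∀ i, IsoG (J i)) : Mt k n →ₗ[k] Mt k n where
  toFun := cj s
  map_add' := cj_add s
  map_smul' := cj_smul s

omit [CharZero k] in
lemma Cv.cj {c : k → ∀ i, IsoG (J i)} {X : Mt k n} (hc : Cv J c X) (s : ∀ i, IsoG (J i)) :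
    Cv J (fun t => s * c t * s⁻¹) (AU.cj s X) := by
  refine ⟨by show s * c 0 * s⁻¹ = 1; rw [hc.1, mul_one, mul_inv_cancel], fun i => ?_⟩
  have h1 := ((Dv.const (k := k) (isoHom (J i) (s i))).mul (hc.2 i)).mul
    (Dv.const (k := k) (isoHom (J i) (s i)⁻¹))
  refine h1.congr (fun t => ?_) ?_
  · show isoHom (J i) (s i * c t i * (s i)⁻¹) = _
    rw [map_mul, map_mul]
  · show isoHom (J i) (s i) * X i * isoHom (J i) (s i)⁻¹ = _
    rw [Matrix.mul_zero, Matrix.zero_mul, zero_add, add_zero]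

/-- linearity of the action as a linear map -/
def IsAct.lin (h : IsAct J Φ) (s : ∀ i, IsoG (J i)) :
    Matrix (Fin m) (Fin m) k →ₗ[k] Matrix (Fin m) (Fin m) k where
  toFun := Φ s
  map_add' := h.map_add s
  map_smul' := h.map_smul s

omit [CharZero k] in
lemma IsAct.map_sub (h : IsAct J Φ) (s : ∀ i, IsoG (J i)) (Y Z : Matrix (Fin m) (Fin m) k) :
    Φ s (Y - Z) = Φ s Y - Φ s Z := _root_.map_sub (h.lin s) Y Z

omit [CharZero k] in
lemma IsAct.inv_apply (h : IsAct J Φ) (s : ∀ i, IsoG (J i)) (Y : Matrix (Fin m) (Fin m) k) :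
    Φ s (Φ s⁻¹ Y) = Y := by rw [← h.mul, mul_inv_cancel, h.one]

/-- equivariance of the differential on tangents of curves -/
lemma IsDiff.equiv_of_curve (h : IsAct J Φ) (hD : IsDiff J Φ D) {c : k → ∀ i, IsoG (J i)}
    {X : Mt k n} (hc : Cv J c X) (s : ∀ i, IsoG (J i)) : D (cj s X) = Φ s (D X) := by
  refine traceless_uniq (hD.1 _) (by rw [h.tr, hD.1]) fun Y => ?_
  have h1 := hD.2 _ _ (hc.cj s) Y
  have h2 := (hD.2 _ _ hc (Φ s⁻¹ Y)).lin (h.lin s)
  refine h1.uniq (h2.congr (fun t => ?_) ?_)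
  · show Φ (s * c t * s⁻¹) Y = Φ s (Φ (c t) (Φ s⁻¹ Y))
    rw [h.mul, h.mul]
  · show _ = Φ s (D X * Φ s⁻¹ Y - Φ s⁻¹ Y * D X)
    rw [h.map_sub, h.map_mul, h.map_mul, h.inv_apply]

end Lie

end Pool.Agent.Helper14.RG.AU
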