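import Pool.Agent.Helper14.RG.AU.FacA

set_option autoImplicit false

/-!
# Facts about the Lie algebra `sp_n`
-/

namespace Pool.Agent.Helper14.RG.AU

open Matrix Pool.Agent.Helper97.CG Pool.Agent.Helper14.RG

section Vec

variable {k : Type*} [Field k] {n : ℕ}

lemma vmv_mul_mul (v w a b : Fin n → k) (M : Matrix (Fin n) (Fin n) k) :
    vecMulVec v w * M * vecMulVec a b = (w ⬝ᵥ (M *ᵥ a)) • vecMulVec v b := by
  rw [Matrix.mul_assoc, Matrix.mul_vecMulVec, Matrix.vecMulVec_mul_vecMulVec,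
    Matrix.vecMulVec_smul]

lemma vmv_transpose (v w : Fin n → k) : (vecMulVec v w)ᵀ = vecMulVec w v := by
  ext i j
  simp [vecMulVec_apply, mul_comm]

lemma trace_vmv (v w : Fin n → k) : (vecMulVec v w).trace = v ⬝ᵥ w := Matrix.trace_vecMulVec v w

lemma form_swap {J : Matrix (Fin n) (Fin n) k} {η : k} (hJ : Jᵀ = η • J) (v w : Fin n → k) :
    v ⬝ᵥ (J *ᵥ w) = η * (w ⬝ᵥ (J *ᵥ v)) := by
  calc v ⬝ᵥ (J *ᵥ w) = w ⬝ᵥ (Jᵀ *ᵥ v) := by
        rw [Matrix.dotProduct_mulVec, ← Matrix.mulVec_transpose, dotProduct_comm]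
    _ = η * (w ⬝ᵥ (J *ᵥ v)) := by
        rw [hJ, Matrix.smul_mulVec, dotProduct_smul, smul_eq_mul]

lemma exists_dot_ne {a : Fin n → k} (ha : a ≠ 0) : ∃ u : Fin n → k, u ⬝ᵥ a ≠ 0 := by
  obtain ⟨i, hi⟩ := Function.ne_iff.mp ha
  refine ⟨Pi.single i 1, ?_⟩
  rw [single_one_dotProduct]
  exact hi

lemma exists_dot_ne2 {a b : Fin n → k} (ha : a ≠ 0) (hb : b ≠ 0) :
    ∃ u : Fin n → k, u ⬝ᵥ a ≠ 0 ∧ u ⬝ᵥ b ≠ 0 := by
  obtain ⟨u, hu⟩ := exists_dot_ne ha
  obtain ⟨w, hw⟩ := exists_dot_ne hb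
  by_cases h1 : u ⬝ᵥ b = 0
  · by_cases h2 : w ⬝ᵥ a = 0
    · refine ⟨u + w, ?_, ?_⟩
      · rw [add_dotProduct, h2, add_zero]; exact hu
      · rw [add_dotProduct, h1, zero_add]; exact hw
    · exact ⟨w, h2, hw⟩
  · exact ⟨u, hu, h1⟩

lemma mulVec_ne {J : Matrix (Fin n) (Fin n) k} (hJ : J.det ≠ 0) {v : Fin n → k} (hv : v ≠ 0) :
    J *ᵥ v ≠ 0 := fun h => hv (Matrix.eq_zero_of_mulVec_eq_zero hJ h)

/-- the trace condition is automatic for invertible forms -/
lemma trace_zero_of_skew [CharZero k] {J X : Matrix (Fin n) (Fin n) k} (hJ : J.det ≠ 0)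
    (h : Xᵀ * J + J * X = 0) : X.trace = 0 := by
  have hJu : IsUnit J.det := isUnit_iff_ne_zero.mpr hJ
  have h1 : Xᵀ = -(J * X * J⁻¹) := by
    have h2 : Xᵀ * J = -(J * X) := eq_neg_of_add_eq_zero_left h
    calc Xᵀ = Xᵀ * J * J⁻¹ := by rw [Matrix.mul_assoc, Matrix.mul_nonsing_inv _ hJu, Matrix.mul_one]
      _ = -(J * X * J⁻¹) := by rw [h2, Matrix.neg_mul]
  have h2 : X.trace = -X.trace := by
    calc X.trace = Xᵀ.trace := (Matrix.trace_transpose X).symm
      _ = -(J * X * J⁻¹).trace := by rw [h1, Matrix.trace_neg]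
      _ = -X.trace := by
          rw [Matrix.trace_mul_comm, ← Matrix.mul_assoc, Matrix.nonsing_inv_mul _ hJu,
            Matrix.one_mul]
  have h3 : (2 : k) * X.trace = 0 := by linear_combination h2
  exact (mul_eq_zero.mp h3).resolve_left two_ne_zero

lemma sym_span [CharZero k] {W : Matrix (Fin n) (Fin n) k} (hW : Wᵀ = W) :
    W ∈ Submodule.span k {Y : Matrix (Fin n) (Fin n) k | ∃ v, Y = vecMulVec v v} := by
  have h1 : W = ∑ i, ∑ j, ((2 : k)⁻¹ * W i j) •
      (single i j (1 : k) + single j i 1 : Matrix (Fin n) (Fin n) k) := by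
    have h2 : ∑ i, ∑ j, ((2 : k)⁻¹ * W i j) •
        (single i j (1 : k) + single j i 1 : Matrix (Fin n) (Fin n) k)
        = (2 : k)⁻¹ • W + (2 : k)⁻¹ • Wᵀ := by
      have e1 : W = ∑ i, ∑ j, single i j (W i j) := matrix_eq_sum_single W
      have e2 : Wᵀ = ∑ i, ∑ j, single j i (W i j) := by
        rw [matrix_eq_sum_single Wᵀ, Finset.sum_comm]
        rfl
      have e3 : (2 : k)⁻¹ • W + (2 : k)⁻¹ • Wᵀ
          = (2 : k)⁻¹ • (∑ i, ∑ j, single i j (W i j))
            + (2 : k)⁻¹ • (∑ i, ∑ j, single j i (W i j)) := by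
        rw [← e2, ← e1]
      rw [e3, Finset.smul_sum, Finset.smul_sum, ← Finset.sum_add_distrib]
      refine Finset.sum_congr rfl fun i _ => ?_
      rw [Finset.smul_sum, Finset.smul_sum, ← Finset.sum_add_distrib]
      refine Finset.sum_congr rfl fun j _ => ?_
      rw [smul_add, Matrix.smul_single, Matrix.smul_single, Matrix.smul_single,
        Matrix.smul_single, smul_eq_mul, smul_eq_mul, mul_one]
    rw [h2, hW, ← add_smul]
    have : (2 : k)⁻¹ + 2⁻¹ = 1 := by norm_num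
    rw [this, one_smul]
  rw [h1]
  refine Submodule.sum_mem _ fun i _ => Submodule.sum_mem _ fun j _ => Submodule.smul_mem _ _ ?_
  have e : (single i j (1 : k) + single j i 1 : Matrix (Fin n) (Fin n) k)
      = vecMulVec (Pi.single i 1 + Pi.single j 1) (Pi.single i 1 + Pi.single j 1)
        - vecMulVec (Pi.single i 1) (Pi.single i 1)
        - vecMulVec (Pi.single j 1) (Pi.single j 1) := by
    rw [Matrix.vecMulVec_add, Matrix.add_vecMulVec, Matrix.add_vecMulVec,
      Matrix.single_eq_single_vecMulVec_single, Matrix.single_eq_single_vecMulVec_single]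
    abel
  rw [e]
  exact Submodule.sub_mem _ (Submodule.sub_mem _ (Submodule.subset_span ⟨_, rfl⟩)
    (Submodule.subset_span ⟨_, rfl⟩)) (Submodule.subset_span ⟨_, rfl⟩)

end Vec

section Sp

variable {k : Type*} [Field k] [CharZero k] {n : ℕ} {J : Matrix (Fin n) (Fin n) k}

/-- the root element `v vᵀ J` -/
def xv (J : Matrix (Fin n) (Fin n) k) (v : Fin n → k) : Matrix (Fin n) (Fin n) k :=
  vecMulVec v v * J

lemma form_self (hJ : Jᵀ = -J) (v : Fin n → k) : v ⬝ᵥ (J *ᵥ v) = 0 := by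
  have h1 := form_swap (η := (-1 : k)) (by rw [hJ, neg_one_smul]) v v
  have h3 : (2 : k) * (v ⬝ᵥ (J *ᵥ v)) = 0 := by linear_combination h1
  exact (mul_eq_zero.mp h3).resolve_left two_ne_zero

lemma xv_mem (hJ : Jᵀ = -J) (hdet : J.det ≠ 0) (v : Fin n → k) : xv J v ∈ rt J := by
  have h1 : (xv J v)ᵀ * J + J * xv J v = 0 := by
    unfold xv
    rw [transpose_mul, vmv_transpose, hJ, Matrix.neg_mul, Matrix.neg_mul, Matrix.mul_assoc,
      neg_add_cancel]
  refine ⟨⟨h1, trace_zero_of_skew hdet h1⟩, ?_⟩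
  unfold xv
  rw [← Matrix.mul_assoc, vmv_mul_mul, form_self hJ, zero_smul, Matrix.zero_mul]

lemma xv_mul_xv (v : Fin n → k) (Y : Matrix (Fin n) (Fin n) k) :
    xv J v * Y * xv J v = (v ⬝ᵥ ((J * Y) *ᵥ v)) • xv J v := by
  unfold xv
  calc vecMulVec v v * J * Y * (vecMulVec v v * J)
      = (vecMulVec v v * (J * Y) * vecMulVec v v) * J := by simp only [Matrix.mul_assoc]
    _ = _ := by rw [vmv_mul_mul, Matrix.smul_mul]

theorem sp_spans (hJ : Jᵀ = -J) (hdet : J.det ≠ 0) : Spans J := by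
  intro X hX
  have hJu : IsUnit J.det := isUnit_iff_ne_zero.mpr hdet
  have h1 : (X * J⁻¹)ᵀ = X * J⁻¹ := by
    have h2 : Xᵀ * J = -(J * X) := eq_neg_of_add_eq_zero_left hX.1
    have h3 : (J⁻¹)ᵀ = -J⁻¹ := by
      rw [Matrix.transpose_nonsing_inv, hJ]
      rw [Matrix.inv_eq_left_inv (B := -J⁻¹)]
      rw [neg_mul_neg, Matrix.nonsing_inv_mul _ hJu]
    rw [transpose_mul, h3]
    calc -J⁻¹ * Xᵀ = -J⁻¹ * (Xᵀ * J * J⁻¹) := by
          rw [Matrix.mul_assoc Xᵀ, Matrix.mul_nonsing_inv _ hJu, Matrix.mul_one]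
      _ = (J⁻¹ * J) * X * J⁻¹ := by
          rw [h2]
          simp only [Matrix.neg_mul, Matrix.mul_neg, neg_neg, Matrix.mul_assoc]
      _ = X * J⁻¹ := by rw [Matrix.nonsing_inv_mul _ hJu, Matrix.one_mul]
  have h4 := sym_span h1
  have h5 : X = (X * J⁻¹) * J := by
    rw [Matrix.mul_assoc, Matrix.nonsing_inv_mul _ hJu, Matrix.mul_one]
  rw [h5]
  generalize X * J⁻¹ = W at h4
  induction h4 using Submodule.span_induction with
  | mem x hx =>
    obtain ⟨v, rfl⟩ := hx
    exact Submodule.subset_span (xv_mem hJ hdet v)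
  | zero => rw [Matrix.zero_mul]; exact Submodule.zero_mem _
  | add x y _ _ hx hy => rw [Matrix.add_mul]; exact Submodule.add_mem _ hx hy
  | smul a x _ hx => rw [Matrix.smul_mul]; exact Submodule.smul_mem _ _ hx

lemma sp_lc (hJ : Jᵀ = -J) (hdet : J.det ≠ 0) (M : Matrix (Fin n) (Fin n) k)
    (h : ∀ X ∈ gJ J, M * X = X * M) : ∃ c : k, M = c • (1 : Matrix (Fin n) (Fin n) k) := by
  have hJu : IsUnit J.det := isUnit_iff_ne_zero.mpr hdet
  set N := J * M * J⁻¹ with hN
  have h1 : ∀ v : Fin n → k, M * vecMulVec v v = vecMulVec v v * N := by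
    intro v
    have h2 := h _ (xv_mem hJ hdet v).1
    unfold xv at h2
    calc M * vecMulVec v v = M * (vecMulVec v v * J) * J⁻¹ := by
          rw [Matrix.mul_assoc, Matrix.mul_assoc, Matrix.mul_nonsing_inv _ hJu, Matrix.mul_one]
      _ = vecMulVec v v * N := by rw [h2, hN]; simp only [Matrix.mul_assoc]
  have h2 : ∀ W : Matrix (Fin n) (Fin n) k, Wᵀ = W → M * W = W * N := by
    intro W hW
    have h3 := sym_span hW
    induction h3 using Submodule.span_induction with
    | mem x hx =>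
      obtain ⟨v, rfl⟩ := hx
      exact h1 v
    | zero => rw [Matrix.mul_zero, Matrix.zero_mul]
    | add x y hx' hy' hx hy =>
      have hs : ∀ z ∈ Submodule.span k {Y : Matrix (Fin n) (Fin n) k | ∃ v, Y = vecMulVec v v},
          zᵀ = z := by
        intro z hz
        induction hz using Submodule.span_induction with
        | mem x hx => obtain ⟨v, rfl⟩ := hx; exact vmv_transpose v v
        | zero => exact transpose_zero
        | add x y _ _ hx hy => rw [transpose_add, hx, hy]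
        | smul a x _ hx => rw [transpose_smul, hx]
      rw [Matrix.mul_add, Matrix.add_mul, hx (hs x hx'), hy (hs y hy')]
    | smul a x hx' hx =>
      by_cases ha : a = 0
      · rw [ha, zero_smul, Matrix.mul_zero, Matrix.zero_mul]
      · have hs : xᵀ = x := by
          rw [transpose_smul] at hW
          exact smul_right_injective _ ha hW
        rw [Matrix.mul_smul, Matrix.smul_mul, hx hs]
  have h3 : ∀ i j : Fin n, M * (single i j 1 + single j i 1)
      = (single i j 1 + single j i 1) * N := by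
    intro i j
    apply h2
    rw [transpose_add, Matrix.transpose_single, Matrix.transpose_single, add_comm]
  have hMN : ∀ i j : Fin n, M i i = N j j := by
    intro i j
    by_cases hij : i = j
    · subst hij
      have h4 := congrFun (congrFun (h3 i i) i) i
      rw [Matrix.mul_add, Matrix.add_mul, Matrix.add_apply, Matrix.add_apply,
        Matrix.mul_single_apply_same, Matrix.single_mul_apply_same, mul_one, one_mul] at h4
      have h5 : (2 : k) * (M i i - N i i) = 0 := by linear_combination h4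
      exact sub_eq_zero.mp ((mul_eq_zero.mp h5).resolve_left two_ne_zero)
    · have h4 := congrFun (congrFun (h3 i j) i) j
      rw [Matrix.mul_add, Matrix.add_mul, Matrix.add_apply, Matrix.add_apply,
        Matrix.mul_single_apply_same, Matrix.single_mul_apply_same,
        Matrix.mul_single_apply_of_ne _ _ _ _ _ (Ne.symm hij),
        Matrix.single_mul_apply_of_ne _ _ _ _ _ hij, add_zero, add_zero, mul_one, one_mul] at h4
      exact h4
  have hoff : ∀ a i : Fin n, a ≠ i → M a i = 0 := by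
    intro a i hai
    have h4 := congrFun (congrFun (h3 i i) a) i
    rw [Matrix.mul_add, Matrix.add_mul, Matrix.add_apply, Matrix.add_apply,
      Matrix.mul_single_apply_same, Matrix.single_mul_apply_of_ne _ _ _ _ _ hai, add_zero,
      mul_one] at h4
    have h5 : (2 : k) * M a i = 0 := by linear_combination h4
    exact (mul_eq_zero.mp h5).resolve_left two_ne_zero
  rcases Nat.eq_zero_or_pos n with h0 | h0
  · subst h0
    exact ⟨1, Subsingleton.elim _ _⟩
  let i0 : Fin n := ⟨0, h0⟩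
  refine ⟨N i0 i0, ?_⟩
  ext a b
  rw [Matrix.smul_apply, smul_eq_mul]
  by_cases hab : a = b
  · subst hab
    rw [Matrix.one_apply_eq, mul_one]
    exact hMN a i0
  · rw [Matrix.one_apply_ne hab, mul_zero]
    exact hoff a b hab

lemma sp_sim (hJ : Jᵀ = -J) (hdet : J.det ≠ 0) (I : Submodule k (Matrix (Fin n) (Fin n) k))
    (hle : I ≤ gJ J)
    (hI : ∀ (g : IsoG J), ∀ X ∈ I, isoHom _ g * X * isoHom _ g⁻¹ ∈ I) : I = ⊥ ∨ I = gJ J := by
  by_cases hbot : I = ⊥
  · exact Or.inl hbot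
  right
  have hJu : IsUnit J.det := isUnit_iff_ne_zero.mpr hdet
  obtain ⟨Y, hY, hY0⟩ := Submodule.exists_mem_ne_zero_of_ne_bot hbot
  have key : ∀ (v : Fin n → k) (Z : Matrix (Fin n) (Fin n) k), Z ∈ I →
      v ⬝ᵥ ((J * Z) *ᵥ v) ≠ 0 → xv J v ∈ I := by
    intro v Z hZ hne
    have h1 := (stab_root hI (xv_mem hJ hdet v) hZ).2
    rw [xv_mul_xv] at h1
    have h2 := I.smul_mem (v ⬝ᵥ ((J * Z) *ᵥ v))⁻¹ h1
    rw [smul_smul, inv_mul_cancel₀ hne, one_smul] at h2
    exact h2
  obtain ⟨v, hv⟩ : ∃ v : Fin n → k, v ⬝ᵥ ((J * Y) *ᵥ v) ≠ 0 := by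
    by_contra hcon
    push Not at hcon
    apply hY0
    have hs : (J * Y)ᵀ = J * Y := by
      rw [transpose_mul, hJ, Matrix.mul_neg]
      exact neg_eq_of_add_eq_zero_right (hle hY).1
    have h1 : J * Y = 0 := by
      ext i j
      have h2 : ∀ a b : Fin n, (Pi.single a 1 : Fin n → k) ⬝ᵥ ((J * Y) *ᵥ (Pi.single b 1))
          = (J * Y) a b := by
        intro a b
        rw [single_one_dotProduct, Matrix.mulVec_single_one]
        rfl
      have h3 := hcon (Pi.single i 1 + Pi.single j 1)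
      rw [add_dotProduct, Matrix.mulVec_add, dotProduct_add, dotProduct_add, h2, h2, h2, h2] at h3
      have h4 : (J * Y) i i = 0 := by rw [← h2]; exact hcon _
      have h5 : (J * Y) j j = 0 := by rw [← h2]; exact hcon _
      have h6 : (J * Y) j i = (J * Y) i j := congrFun (congrFun hs i) j
      rw [h4, h5, h6] at h3
      have h7 : (2 : k) * (J * Y) i j = 0 := by linear_combination h3
      rw [Matrix.zero_apply]
      exact (mul_eq_zero.mp h7).resolve_left two_ne_zero
    calc Y = J⁻¹ * (J * Y) := by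
          rw [← Matrix.mul_assoc, Matrix.nonsing_inv_mul _ hJu, Matrix.one_mul]
      _ = 0 := by rw [h1, Matrix.mul_zero]
  have hv0 : v ≠ 0 := by
    rintro rfl
    exact hv (zero_dotProduct _)
  have step : ∀ v w : Fin n → k, xv J v ∈ I → w ⬝ᵥ (J *ᵥ v) ≠ 0 → xv J w ∈ I := by
    intro v w h1 h2
    refine key w _ h1 ?_
    have e : w ⬝ᵥ ((J * xv J v) *ᵥ w) = (w ⬝ᵥ (J *ᵥ v)) * (v ⬝ᵥ (J *ᵥ w)) := by
      unfold xv
      rw [← Matrix.mulVec_mulVec, ← Matrix.mulVec_mulVec, Matrix.vecMulVec_mulVec]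
      rw [Matrix.mulVec_smul]
      simp [dotProduct_smul, mul_comm]
    rw [e, form_swap (η := (-1 : k)) (by rw [hJ, neg_one_smul]) v w]
    exact mul_ne_zero h2 (mul_ne_zero (neg_ne_zero.mpr one_ne_zero) h2)
  have hall : ∀ w : Fin n → k, xv J w ∈ I := by
    intro w
    by_cases hw : w = 0
    · have : xv J w = 0 := by
        unfold xv
        rw [hw, Matrix.zero_vecMulVec, Matrix.zero_mul]
      rw [this]
      exact I.zero_mem
    obtain ⟨u, hu1, hu2⟩ := exists_dot_ne2 (mulVec_ne hdet hv0) (mulVec_ne hdet hw)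
    refine step u w (step v u (key v Y hY hv) hu1) ?_
    rw [form_swap (η := (-1 : k)) (by rw [hJ, neg_one_smul]) w u]
    exact mul_ne_zero (neg_ne_zero.mpr one_ne_zero) hu2
  refine le_antisymm hle ?_
  intro X hX
  have h1 : (X * J⁻¹)ᵀ = X * J⁻¹ := by
    have h2 : Xᵀ * J = -(J * X) := eq_neg_of_add_eq_zero_left hX.1
    have h3 : (J⁻¹)ᵀ = -J⁻¹ := by
      rw [Matrix.transpose_nonsing_inv, hJ]
      rw [Matrix.inv_eq_left_inv (B := -J⁻¹)]
      rw [neg_mul_neg, Matrix.nonsing_inv_mul _ hJu]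
    rw [transpose_mul, h3]
    calc -J⁻¹ * Xᵀ = -J⁻¹ * (Xᵀ * J * J⁻¹) := by
          rw [Matrix.mul_assoc Xᵀ, Matrix.mul_nonsing_inv _ hJu, Matrix.mul_one]
      _ = (J⁻¹ * J) * X * J⁻¹ := by
          rw [h2]
          simp only [Matrix.neg_mul, Matrix.mul_neg, neg_neg, Matrix.mul_assoc]
      _ = X * J⁻¹ := by rw [Matrix.nonsing_inv_mul _ hJu, Matrix.one_mul]
  have h4 := sym_span h1
  have h5 : X = (X * J⁻¹) * J := by
    rw [Matrix.mul_assoc, Matrix.nonsing_inv_mul _ hJu, Matrix.mul_one]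
  rw [h5]
  generalize X * J⁻¹ = W at h4
  induction h4 using Submodule.span_induction with
  | mem x hx =>
    obtain ⟨v, rfl⟩ := hx
    exact hall v
  | zero => rw [Matrix.zero_mul]; exact Submodule.zero_mem _
  | add x y _ _ hx hy => rw [Matrix.add_mul]; exact Submodule.add_mem _ hx hy
  | smul a x _ hx => rw [Matrix.smul_mul]; exact Submodule.smul_mem _ _ hx

theorem lf_sp (hJ : Jᵀ = -J) (hdet : J.det ≠ 0) (hf : FormFacts J) : LF J where
  typ := Or.inr hdet
  irr := hf.irr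
  gc := hf.comm
  lc := sp_lc hJ hdet
  span := sp_spans hJ hdet
  sim := sp_sim hJ hdet

end Sp

end Pool.Agent.Helper14.RG.AU
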