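import Pool.Agent.Helper14.RG.AU.TrB
import Pool.Agent.Helper14.RG.AU.FacC

set_option autoImplicit false

/-!
# Isomorphisms of the Lie algebras `sl_n`
-/

namespace Pool.Agent.Helper14.RG.AU

open Matrix Pool.Agent.Helper97.CG Pool.Agent.Helper14.RG

section

variable {k : Type*} [Field k] {n : ℕ}

lemma vmv_bracket (u f v g : Fin n → k) :
    vecMulVec u f * vecMulVec v g - vecMulVec v g * vecMulVec u f
      = (f ⬝ᵥ v) • vecMulVec u g - (g ⬝ᵥ u) • vecMulVec v f := by
  rw [Matrix.vecMulVec_mul_vecMulVec, Matrix.vecMulVec_mul_vecMulVec, Matrix.vecMulVec_smul,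
    Matrix.vecMulVec_smul]

lemma vmv_ne_zero {u f : Fin n → k} (h : vecMulVec u f ≠ 0) : u ≠ 0 ∧ f ≠ 0 := by
  constructor
  · rintro rfl
    exact h (Matrix.zero_vecMulVec f)
  · rintro rfl
    exact h (Matrix.vecMulVec_zero u)

lemma vmv_inj_right {u f g : Fin n → k} (hu : u ≠ 0) (h : vecMulVec u f = vecMulVec u g) :
    f = g := by
  obtain ⟨i, hi⟩ := Function.ne_iff.mp hu
  funext j
  have h1 := congrFun (congrFun h i) j
  rw [vecMulVec_apply, vecMulVec_apply] at h1
  exact mul_left_cancel₀ hi h1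

lemma vmv_eq_zero {u f : Fin n → k} (hu : u ≠ 0) (h : vecMulVec u f = 0) : f = 0 := by
  refine vmv_inj_right hu ?_
  rw [h, Matrix.vecMulVec_zero]

/-- the sum of two matrices of rank one has rank one only if they share a side -/
lemma share {x y x' y' p q : Fin n → k} (hx : x ≠ 0) (hy : y ≠ 0)
    (h : vecMulVec x y + vecMulVec x' y' = vecMulVec p q) :
    (∃ c : k, x' = c • x) ∨ (∃ c : k, y' = c • y) := by
  by_cases hq : ∃ c : k, y' = c • y
  · exact Or.inr hq
  left
  -- a vector orthogonal to `y` but not to `y'`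
  obtain ⟨i, hi⟩ := Function.ne_iff.mp hy
  have hyi : y i ≠ 0 := hi
  have h1 : ∃ j, y' j * y i - y' i * y j ≠ 0 := by
    by_contra hcon
    push Not at hcon
    apply hq
    refine ⟨y' i * (y i)⁻¹, ?_⟩
    funext j
    have h2 := hcon j
    rw [Pi.smul_apply, smul_eq_mul]
    field_simp
    linear_combination h2
  obtain ⟨j, hj⟩ := h1
  -- minors of a rank one matrix vanish
  have hmin : ∀ a b : Fin n, (x a * y i + x' a * y' i) * (x b * y j + x' b * y' j)
      = (x a * y j + x' a * y' j) * (x b * y i + x' b * y' i) := by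
    intro a b
    have e : ∀ a c : Fin n, x a * y c + x' a * y' c = p a * q c := by
      intro a c
      have := congrFun (congrFun h a) c
      rw [Matrix.add_apply, vecMulVec_apply, vecMulVec_apply, vecMulVec_apply] at this
      exact this
    rw [e, e, e, e]
    ring
  obtain ⟨a, ha⟩ := Function.ne_iff.mp hx
  have hxa : x a ≠ 0 := ha
  refine ⟨x' a * (x a)⁻¹, ?_⟩
  funext b
  rw [Pi.smul_apply, smul_eq_mul]
  have h3 : (y' j * y i - y' i * y j) * (x a * x' b - x' a * x b) = 0 := by
    linear_combination hmin a b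
  have h4 := (mul_eq_zero.mp h3).resolve_left hj
  field_simp
  linear_combination h4

end

section Sl

variable {k : Type*} [Field k] [CharZero k] {n : ℕ}
  {D : Matrix (Fin n) (Fin n) k →ₗ[k] Matrix (Fin n) (Fin n) k}

/-- Nilpotent matrices of rank one are mapped to nilpotent matrices of rank one. -/
def ExtSl (D : Matrix (Fin n) (Fin n) k →ₗ[k] Matrix (Fin n) (Fin n) k) : Prop :=
  ∀ u f : Fin n → k, f ⬝ᵥ u = 0 → ∃ x y, D (vecMulVec u f) = vecMulVec x y ∧ y ⬝ᵥ x = 0

lemma ev_mem {a b : Fin n} (hab : a ≠ b) :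
    (single a b (1 : k) : Matrix (Fin n) (Fin n) k) ∈ gJ (0 : Matrix (Fin n) (Fin n) k) :=
  (single_mem_rt hab (1 : k)).1

lemma single_vmv (a b : Fin n) :
    (single a b (1 : k) : Matrix (Fin n) (Fin n) k) = vecMulVec (Pi.single a 1) (Pi.single b 1) :=
  Matrix.single_eq_single_vecMulVec_single a b

/-- type one -/
theorem sl_main (hD : LIso (0 : Matrix (Fin n) (Fin n) k) 0 D) (hE : ExtSl D) (o : Fin n)
    (j0 : Fin n) (hj0 : j0 ≠ o) (x : Fin n → k) (y : Fin n → (Fin n → k))
    (hx : ∀ j, j ≠ o → D (single o j 1) = vecMulVec x (y j)) :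
    ∃ A B : Matrix (Fin n) (Fin n) k, A * B = 1 ∧ B * A = 1 ∧
      ∀ X ∈ gJ (0 : Matrix (Fin n) (Fin n) k), D X = A * X * B := by
  have hne : ∀ a b : Fin n, a ≠ b → D (single a b 1) ≠ 0 := by
    intro a b hab h
    have h1 := hD.inj _ (ev_mem hab) h
    have h2 := congrFun (congrFun h1 a) b
    rw [Matrix.single_apply_same, Matrix.zero_apply] at h2
    exact one_ne_zero h2
  have hx0 : x ≠ 0 := by
    have := hne o j0 (Ne.symm hj0)
    rw [hx j0 hj0] at this
    exact (vmv_ne_zero this).1
  have hy0 : ∀ j, j ≠ o → y j ≠ 0 := by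
    intro j hj
    have := hne o j (Ne.symm hj)
    rw [hx j hj] at this
    exact (vmv_ne_zero this).2
  have hyx : ∀ j, j ≠ o → y j ⬝ᵥ x = 0 := by
    intro j hj
    have h1 := hD.mem _ (ev_mem (Ne.symm hj))
    rw [hx j hj, mem_gJ_zero, trace_vmv, dotProduct_comm] at h1
    exact h1
  have hlie : ∀ a b c d : Fin n, a ≠ b → c ≠ d →
      D (single a b 1 * single c d 1 - single c d 1 * single a b 1)
        = D (single a b 1) * D (single c d 1) - D (single c d 1) * D (single a b 1) :=
    fun a b c d hab hcd => hD.lie _ (ev_mem hab) _ (ev_mem hcd)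
  -- the opposite elements
  have hex : ∀ j, ∃ u v : Fin n → k, j ≠ o → (D (single j o 1) = vecMulVec u v ∧ y j ⬝ᵥ u = 1 ∧
      v ⬝ᵥ x = 1 ∧ v ⬝ᵥ u = 0) := by
    intro j
    by_cases hj : j = o
    · exact ⟨0, 0, fun h => absurd hj h⟩
    obtain ⟨u, v, h1, h2⟩ := hE (Pi.single j 1) (Pi.single o 1) (by
      rw [single_one_dotProduct, Pi.single_eq_of_ne (Ne.symm hj)])
    rw [← single_vmv] at h1
    set α := y j ⬝ᵥ u with hα
    set β := v ⬝ᵥ x with hβ
    -- `[H, e_oj] = 2 e_oj`
    have e1 : D (single o j 1 * single j o 1 - single j o 1 * single o j 1)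
        = α • vecMulVec x v - β • vecMulVec u (y j) := by
      rw [hlie o j j o (Ne.symm hj) hj, hx j hj, h1, vmv_bracket]
    have hH : (single o j (1 : k) * single j o 1 - single j o 1 * single o j 1 :
        Matrix (Fin n) (Fin n) k) ∈ gJ (0 : Matrix (Fin n) (Fin n) k) :=
      lie_mem_gJ (ev_mem (Ne.symm hj)) (ev_mem hj)
    have e2 := hD.lie _ hH _ (ev_mem (k := k) (Ne.symm hj))
    have e3 : (single o j (1 : k) * single j o 1 - single j o 1 * single o j 1) * single o j 1
        - single o j 1 * (single o j (1 : k) * single j o 1 - single j o 1 * single o j 1)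
        = (2 : k) • (single o j 1 : Matrix (Fin n) (Fin n) k) := by
      rw [Matrix.single_mul_single_same, Matrix.single_mul_single_same, Matrix.sub_mul,
        Matrix.mul_sub, mul_one, Matrix.single_mul_single_same,
        Matrix.single_mul_single_of_ne _ _ _ _ hj, Matrix.single_mul_single_of_ne _ _ _ _ hj,
        Matrix.single_mul_single_same, mul_one, two_smul]
      abel
    rw [e3, e1, map_smul, hx j hj, Matrix.sub_mul, Matrix.mul_sub, Matrix.smul_mul,
      Matrix.smul_mul, Matrix.mul_smul, Matrix.mul_smul, Matrix.vecMulVec_mul_vecMulVec,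
      Matrix.vecMulVec_mul_vecMulVec, Matrix.vecMulVec_mul_vecMulVec,
      Matrix.vecMulVec_mul_vecMulVec, hyx j hj, ← hα, ← hβ] at e2
    simp only [Matrix.vecMulVec_smul, zero_smul, smul_zero, sub_zero, smul_smul] at e2
    have e4 : (2 : k) • vecMulVec x (y j) = (2 * (α * β)) • vecMulVec x (y j) := by
      rw [e2, Matrix.vecMulVec_zero, Matrix.vecMulVec_zero, smul_zero, smul_zero, sub_zero,
        zero_sub, sub_neg_eq_add, ← add_smul]
      congr 1
      ring
    have e5 : α * β = 1 := by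
      have h3 : ((2 : k) - 2 * (α * β)) • vecMulVec x (y j) = 0 := by
        rw [sub_smul, ← e4, sub_self]
      have h4 : vecMulVec x (y j) ≠ 0 := by
        rw [← hx j hj]
        exact hne o j (Ne.symm hj)
      have h5 := (smul_eq_zero.mp h3).resolve_right h4
      have h6 : (2 : k) * (1 - α * β) = 0 := by linear_combination h5
      have h7 := (mul_eq_zero.mp h6).resolve_left two_ne_zero
      linear_combination -h7
    have hα0 : α ≠ 0 := by
      intro h
      rw [h, zero_mul] at e5
      exact zero_ne_one e5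
    refine ⟨α⁻¹ • u, α • v, fun _ => ⟨?_, ?_, ?_, ?_⟩⟩
    · rw [h1, Matrix.smul_vecMulVec, Matrix.vecMulVec_smul, smul_smul, inv_mul_cancel₀ hα0,
        one_smul]
    · rw [dotProduct_smul, ← hα, smul_eq_mul, inv_mul_cancel₀ hα0]
    · rw [smul_dotProduct, ← hβ, smul_eq_mul, e5]
    · rw [smul_dotProduct, dotProduct_smul, h2, smul_zero, smul_zero]
  choose u v huv using hex
  have hDj : ∀ j, j ≠ o → D (single j o 1) = vecMulVec (u j) (v j) := fun j hj => (huv j hj).1
  have hyu : ∀ j, j ≠ o → y j ⬝ᵥ u j = 1 := fun j hj => (huv j hj).2.1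
  have hvx : ∀ j, j ≠ o → v j ⬝ᵥ x = 1 := fun j hj => (huv j hj).2.2.1
  have hvu : ∀ j, j ≠ o → v j ⬝ᵥ u j = 0 := fun j hj => (huv j hj).2.2.2
  -- orthogonality
  have hyu' : ∀ j l, j ≠ o → l ≠ o → l ≠ j → y l ⬝ᵥ u j = 0 := by
    intro j l hj hl hlj
    have e1 : D (single o j 1 * single j o 1 - single j o 1 * single o j 1)
        = vecMulVec x (v j) - vecMulVec (u j) (y j) := by
      rw [hlie o j j o (Ne.symm hj) hj, hx j hj, hDj j hj, vmv_bracket, hyu j hj, hvx j hj,
        one_smul, one_smul]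
    have hH : (single o j (1 : k) * single j o 1 - single j o 1 * single o j 1 :
        Matrix (Fin n) (Fin n) k) ∈ gJ (0 : Matrix (Fin n) (Fin n) k) :=
      lie_mem_gJ (ev_mem (Ne.symm hj)) (ev_mem hj)
    have e2 := hD.lie _ hH _ (ev_mem (k := k) (Ne.symm hl))
    have e3 : (single o j (1 : k) * single j o 1 - single j o 1 * single o j 1) * single o l 1
        - single o l 1 * (single o j (1 : k) * single j o 1 - single j o 1 * single o j 1)
        = (single o l 1 : Matrix (Fin n) (Fin n) k) := by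
      rw [Matrix.single_mul_single_same, Matrix.single_mul_single_same, Matrix.sub_mul,
        Matrix.mul_sub, mul_one, Matrix.single_mul_single_same,
        Matrix.single_mul_single_of_ne _ _ _ _ hj, Matrix.single_mul_single_of_ne _ _ _ _ hl,
        Matrix.single_mul_single_of_ne _ _ _ _ hlj, mul_one]
      abel
    rw [e3, e1, hx l hl, Matrix.sub_mul, Matrix.mul_sub, Matrix.vecMulVec_mul_vecMulVec,
      Matrix.vecMulVec_mul_vecMulVec, Matrix.vecMulVec_mul_vecMulVec,
      Matrix.vecMulVec_mul_vecMulVec, hyx l hl, hyx j hj, hvx j hj, one_smul, zero_smul,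
      zero_smul, Matrix.vecMulVec_zero, Matrix.vecMulVec_zero, sub_zero, zero_sub,
      sub_neg_eq_add] at e2
    have e4 : vecMulVec x ((y l ⬝ᵥ u j) • y j) = 0 := by
      have := e2
      rw [left_eq_add] at this
      exact this
    have e5 := vmv_eq_zero hx0 e4
    exact (smul_eq_zero.mp e5).resolve_right (hy0 j hj)
  -- the other off-diagonal elements
  have hjl : ∀ j l, j ≠ o → l ≠ o → j ≠ l → D (single j l 1) = vecMulVec (u j) (y l) := by
    intro j l hj hl hjl'
    have e1 := hlie j o o l hj (Ne.symm hl)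
    rw [Matrix.single_mul_single_same, Matrix.single_mul_single_of_ne _ _ _ _ (Ne.symm hjl'),
      sub_zero, mul_one, hDj j hj, hx l hl, vmv_bracket, hvx j hj,
      hyu' j l hj hl (Ne.symm hjl'), one_smul, zero_smul, sub_zero] at e1
    exact e1
  have hv : ∀ j l, j ≠ o → l ≠ o → j ≠ l → v j = v l ∧ v l ⬝ᵥ u j = 0 := by
    intro j l hj hl hjl'
    have e1 := hlie j l l o hjl' hl
    rw [Matrix.single_mul_single_same, Matrix.single_mul_single_of_ne _ _ _ _ (Ne.symm hj),
      sub_zero, mul_one, hDj j hj, hDj l hl, hjl j l hj hl hjl', vmv_bracket, hyu l hl,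
      one_smul] at e1
    have e2 := congrArg (fun M : Matrix (Fin n) (Fin n) k => y l ᵥ* M) e1
    rw [Matrix.vecMul_sub, Matrix.vecMul_smul, Matrix.vecMul_vecMulVec,
      Matrix.vecMul_vecMulVec, Matrix.vecMul_vecMulVec, hyu' j l hj hl (Ne.symm hjl'),
      hyu l hl, zero_smul, zero_smul, one_smul, zero_sub] at e2
    have e3 : v l ⬝ᵥ u j = 0 := by
      have h1 := neg_eq_zero.mp e2.symm
      exact (smul_eq_zero.mp h1).resolve_right (hy0 l hl)
    rw [e3, zero_smul, sub_zero] at e1
    have hu0 : u j ≠ 0 := by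
      intro h
      have := hyu j hj
      rw [h, dotProduct_zero] at this
      exact zero_ne_one this
    exact ⟨vmv_inj_right hu0 e1, e3⟩
  have hvc : ∀ j, j ≠ o → v j = v j0 := by
    intro j hj
    by_cases h : j = j0
    · rw [h]
    · exact (hv j j0 hj hj0 h).1
  -- the frame
  let a : Fin n → (Fin n → k) := fun j => if j = o then x else u j
  let b : Fin n → (Fin n → k) := fun j => if j = o then v j0 else y j
  have hao : a o = x := if_pos rfl
  have haj : ∀ j, j ≠ o → a j = u j := fun j hj => if_neg hj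
  have hbo : b o = v j0 := if_pos rfl
  have hbj : ∀ j, j ≠ o → b j = y j := fun j hj => if_neg hj
  have hba : ∀ i j, b i ⬝ᵥ a j = if i = j then 1 else 0 := by
    intro i j
    by_cases hi : i = o
    · by_cases hj : j = o
      · rw [if_pos (hi.trans hj.symm), hi, hj, hbo, hao, hvx j0 hj0]
      · rw [if_neg (fun h : i = j => hj (h.symm.trans hi)), hi, hbo, haj j hj, ← hvc j hj, hvu j hj]
    · by_cases hj : j = o
      · rw [if_neg (fun h : i = j => hi (h.trans hj)), hj, hao, hbj i hi, hyx i hi]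
      · rw [hbj i hi, haj j hj]
        by_cases hij : i = j
        · rw [if_pos hij, hij, hyu j hj]
        · rw [if_neg hij, hyu' j i hj hi hij]
  have hDab : ∀ i j, i ≠ j → D (single i j 1) = vecMulVec (a i) (b j) := by
    intro i j hij
    by_cases hi : i = o
    · have hj : j ≠ o := fun h => hij (hi.trans h.symm)
      rw [hi, hao, hbj j hj, hx j hj]
    · by_cases hj : j = o
      · rw [hj, hbo, haj i hi, hDj i hi, hvc i hi]
      · rw [haj i hi, hbj j hj, hjl i j hi hj hij]
  let A : Matrix (Fin n) (Fin n) k := Matrix.of fun r j => a j r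
  let B : Matrix (Fin n) (Fin n) k := Matrix.of fun i r => b i r
  have hBA : B * A = 1 := by
    ext i j
    rw [Matrix.mul_apply, Matrix.one_apply]
    exact hba i j
  have hAB : A * B = 1 := mul_eq_one_comm.mp hBA
  have hAs : ∀ i j, A * single i j 1 * B = vecMulVec (a i) (b j) := by
    intro i j
    rw [single_vmv, Matrix.mul_vecMulVec, Matrix.vecMulVec_mul, Matrix.mulVec_single_one,
      Matrix.single_one_vecMul]
    rfl
  refine ⟨A, B, hAB, hBA, ?_⟩
  let P : Submodule k (Matrix (Fin n) (Fin n) k) := LinearMap.ker (D - lrm A B)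
  have hmP : ∀ X, X ∈ P ↔ D X = A * X * B := by
    intro X
    rw [LinearMap.mem_ker, LinearMap.sub_apply, lrm_apply, sub_eq_zero]
  have hle : gJ (0 : Matrix (Fin n) (Fin n) k) ≤ P := by
    refine sl_le P (fun i j hij => ?_) (fun i j hij => ?_)
    · rw [hmP, hAs, hDab i j hij]
    · rw [hmP]
      have e1 := hlie i j j i hij hij.symm
      rw [Matrix.single_mul_single_same, Matrix.single_mul_single_same, mul_one] at e1
      rw [e1, hDab i j hij, hDab j i hij.symm, vmv_bracket, hba, hba, if_pos rfl, if_pos rfl,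
        one_smul, one_smul, Matrix.mul_sub, Matrix.sub_mul, hAs, hAs]
  intro X hX
  exact (hmP X).mp (hle hX)

/-- the classification for `sl_n`, `n ≥ 2` -/
theorem sl_class (hn : 2 ≤ n) (hD : LIso (0 : Matrix (Fin n) (Fin n) k) 0 D) (hE : ExtSl D) :
    ∃ A B : Matrix (Fin n) (Fin n) k, A * B = 1 ∧ B * A = 1 ∧
      ((∀ X ∈ gJ (0 : Matrix (Fin n) (Fin n) k), D X = A * X * B) ∨
       (∀ X ∈ gJ (0 : Matrix (Fin n) (Fin n) k), D X = -(A * Xᵀ * B))) := by
  let o : Fin n := ⟨0, by omega⟩
  let j0 : Fin n := ⟨1, by omega⟩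
  have hj0 : j0 ≠ o := by
    intro h
    have := congrArg Fin.val h
    exact one_ne_zero this
  have hne : ∀ a b : Fin n, a ≠ b → D (single a b 1) ≠ 0 := by
    intro a b hab h
    have h1 := hD.inj _ (ev_mem hab) h
    have h2 := congrFun (congrFun h1 a) b
    rw [Matrix.single_apply_same, Matrix.zero_apply] at h2
    exact one_ne_zero h2
  have hex : ∀ j, ∃ x y : Fin n → k, j ≠ o → D (single o j 1) = vecMulVec x y := by
    intro j
    by_cases hj : j = o
    · exact ⟨0, 0, fun h => absurd hj h⟩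
    obtain ⟨x, y, h1, _⟩ := hE (Pi.single o 1) (Pi.single j 1) (by
      rw [single_one_dotProduct, Pi.single_eq_of_ne hj])
    exact ⟨x, y, fun _ => by rw [single_vmv, h1]⟩
  choose x y hxy using hex
  have hx0 : ∀ j, j ≠ o → x j ≠ 0 := by
    intro j hj
    have := hne o j (Ne.symm hj)
    rw [hxy j hj] at this
    exact (vmv_ne_zero this).1
  have hy0 : ∀ j, j ≠ o → y j ≠ 0 := by
    intro j hj
    have := hne o j (Ne.symm hj)
    rw [hxy j hj] at this
    exact (vmv_ne_zero this).2
  have hshare : ∀ i j, i ≠ o → j ≠ o → (∃ c : k, x j = c • x i) ∨ (∃ c : k, y j = c • y i) := by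
    intro i j hi hj
    by_cases hij : i = j
    · exact Or.inl ⟨1, by rw [hij, one_smul]⟩
    obtain ⟨p, q, h1, _⟩ := hE (Pi.single o 1) (Pi.single i 1 + Pi.single j 1) (by
      rw [add_dotProduct, single_one_dotProduct, single_one_dotProduct,
        Pi.single_eq_of_ne hi, Pi.single_eq_of_ne hj, add_zero])
    rw [Matrix.vecMulVec_add, ← single_vmv, ← single_vmv, map_add, hxy i hi, hxy j hj] at h1
    exact share (hx0 i hi) (hy0 i hi) h1
  have hind : ∀ i j, i ≠ o → j ≠ o → i ≠ j →
      ¬ ((∃ c : k, x j = c • x i) ∧ (∃ c : k, y j = c • y i)) := by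
    rintro i j hi hj hij ⟨⟨c, hc⟩, ⟨d, hd⟩⟩
    have h1 : D (single o j 1 - (c * d) • single o i 1) = 0 := by
      rw [map_sub, map_smul, hxy j hj, hxy i hi, hc, hd, Matrix.smul_vecMulVec,
        Matrix.vecMulVec_smul, smul_smul, sub_self]
    have hmem : (single o j 1 - (c * d) • single o i 1 : Matrix (Fin n) (Fin n) k)
        ∈ gJ (0 : Matrix (Fin n) (Fin n) k) :=
      Submodule.sub_mem _ (ev_mem (Ne.symm hj)) (Submodule.smul_mem _ _ (ev_mem (Ne.symm hi)))
    have h2 := hD.inj _ hmem h1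
    have h3 := congrFun (congrFun h2 o) j
    rw [Matrix.sub_apply, Matrix.smul_apply, Matrix.single_apply_same,
      Matrix.single_apply_of_col_ne _ _ hij, Matrix.zero_apply, smul_zero, sub_zero] at h3
    exact one_ne_zero h3
  have hinvx : ∀ i j, i ≠ o → j ≠ o → (∃ c : k, x j = c • x i) → ∃ c : k, x i = c • x j := by
    rintro i j hi hj ⟨c, hc⟩
    have hc0 : c ≠ 0 := by
      rintro rfl
      rw [zero_smul] at hc
      exact hx0 j hj hc
    exact ⟨c⁻¹, by rw [hc, smul_smul, inv_mul_cancel₀ hc0, one_smul]⟩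
  have hinvy : ∀ i j, i ≠ o → j ≠ o → (∃ c : k, y j = c • y i) → ∃ c : k, y i = c • y j := by
    rintro i j hi hj ⟨c, hc⟩
    have hc0 : c ≠ 0 := by
      rintro rfl
      rw [zero_smul] at hc
      exact hy0 j hj hc
    exact ⟨c⁻¹, by rw [hc, smul_smul, inv_mul_cancel₀ hc0, one_smul]⟩
  by_cases hall : ∀ j, j ≠ o → ∃ c : k, x j = c • x j0
  · -- type one
    have hex2 : ∀ j, ∃ c : k, j ≠ o → x j = c • x j0 := by
      intro j
      by_cases hj : j = o
      · exact ⟨0, fun h => absurd hj h⟩
      obtain ⟨c, hc⟩ := hall j hj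
      exact ⟨c, fun _ => hc⟩
    choose c hc using hex2
    obtain ⟨A, B, h1, h2, h3⟩ := sl_main hD hE o j0 hj0 (x j0) (fun j => c j • y j) (by
      intro j hj
      rw [hxy j hj, hc j hj, Matrix.smul_vecMulVec, Matrix.vecMulVec_smul])
    exact ⟨A, B, h1, h2, Or.inl h3⟩
  · push Not at hall
    obtain ⟨l, hl, hxl⟩ := hall
    have hlj : l ≠ j0 := by
      rintro rfl
      exact hxl 1 (one_smul k _).symm
    have hyl : ∃ c : k, y l = c • y j0 :=
      (hshare j0 l hj0 hl).resolve_left (fun ⟨c, hc⟩ => hxl c hc)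
    have hally : ∀ j, j ≠ o → ∃ c : k, y j = c • y j0 := by
      intro j hj
      by_contra hcon
      have e1 : ∃ c : k, x j = c • x j0 := (hshare j0 j hj0 hj).resolve_right hcon
      rcases hshare l j hl hj with h | h
      · obtain ⟨c, hc⟩ := hinvx l j hl hj h
        obtain ⟨d, hd⟩ := e1
        exact hxl (c * d) (by rw [hc, hd, smul_smul])
      · obtain ⟨c, hc⟩ := h
        obtain ⟨d, hd⟩ := hyl
        exact hcon ⟨c * d, by rw [hc, hd, smul_smul]⟩
    have hex2 : ∀ j, ∃ c : k, j ≠ o → y j = c • y j0 := by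
      intro j
      by_cases hj : j = o
      · exact ⟨0, fun h => absurd hj h⟩
      obtain ⟨c, hc⟩ := hally j hj
      exact ⟨c, fun _ => hc⟩
    choose c hc using hex2
    -- the transposed map
    let D' : Matrix (Fin n) (Fin n) k →ₗ[k] Matrix (Fin n) (Fin n) k := -(trm k n ∘ₗ D)
    have hD'a : ∀ X, D' X = -(D X)ᵀ := fun X => rfl
    have htm : ∀ X : Matrix (Fin n) (Fin n) k, X ∈ gJ (0 : Matrix (Fin n) (Fin n) k) →
        -Xᵀ ∈ gJ (0 : Matrix (Fin n) (Fin n) k) := by
      intro X hX
      rw [mem_gJ_zero, Matrix.trace_neg, Matrix.trace_transpose, mem_gJ_zero.mp hX, neg_zero]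
    have hD' : LIso (0 : Matrix (Fin n) (Fin n) k) 0 D' := by
      refine ⟨fun X hX => htm _ (hD.mem X hX), ?_, ?_, ?_⟩
      · intro Y hY
        obtain ⟨X, hX, h⟩ := hD.surj _ (htm Y hY)
        refine ⟨X, hX, ?_⟩
        rw [hD'a, h, transpose_neg, transpose_transpose, neg_neg]
      · intro X hX h
        rw [hD'a, neg_eq_zero] at h
        have h1 := congrArg Matrix.transpose h
        rw [transpose_transpose, transpose_zero] at h1
        exact hD.inj X hX h1
      · intro X hX Y hY
        rw [hD'a, hD'a, hD'a, hD.lie X hX Y hY, transpose_sub, transpose_mul, transpose_mul,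
          neg_mul_neg, neg_mul_neg, neg_sub]
    have hE' : ExtSl D' := by
      intro p q hpq
      obtain ⟨r, s, h1, h2⟩ := hE p q hpq
      refine ⟨-s, r, ?_, ?_⟩
      · rw [hD'a, h1, vmv_transpose, Matrix.neg_vecMulVec]
      · rw [dotProduct_neg, dotProduct_comm, h2, neg_zero]
    obtain ⟨A, B, h1, h2, h3⟩ := sl_main hD' hE' o j0 hj0 (-y j0) (fun j => c j • x j) (by
      intro j hj
      rw [hD'a, hxy j hj, vmv_transpose, hc j hj, Matrix.smul_vecMulVec, Matrix.neg_vecMulVec,
        Matrix.vecMulVec_smul])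
    refine ⟨Bᵀ, Aᵀ, ?_, ?_, Or.inr fun X hX => ?_⟩
    · rw [← transpose_mul, h1, transpose_one]
    · rw [← transpose_mul, h2, transpose_one]
    · have e1 := h3 X hX
      rw [hD'a] at e1
      have e2 := congrArg Matrix.transpose e1
      rw [transpose_neg, transpose_transpose, transpose_mul, transpose_mul] at e2
      rw [← neg_neg (D X), e2, Matrix.mul_assoc]

end Sl

end Pool.Agent.Helper14.RG.AU
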