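import Pool.Agent.Helper14.RG.AU.FacV
import Pool.Agent.Helper14.RG.AU.FacW
import Pool.Agent.Helper97.AU.Ext

set_option autoImplicit false

/-!
# Isomorphisms between Lie algebras `sl_m` and `sl_n` are standard
-/

namespace Pool.Agent.Helper14.RG.AU

open Matrix Pool.Agent.Helper97.CG Pool.Agent.Helper14.RG Pool.Agent.Helper97.AU

variable {k : Type*} [Field k] [CharZero k]

theorem lieStd_sl [IsAlgClosed k] {m n : ℕ} (hm : 1 ≤ m) (hn : 1 ≤ n) :
    LieStd (0 : Matrix (Fin m) (Fin m) k) (0 : Matrix (Fin n) (Fin n) k) := by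
  intro D h1 h2 h3 h4
  have hD : LIso (0 : Matrix (Fin m) (Fin m) k) (0 : Matrix (Fin n) (Fin n) k) D := ⟨h1, h2, h3, h4⟩
  have hmn : n = m := by
    have e1 := (trRel (TD_zero hm) (TD_zero hn) hD).dim
    have e3 : n * n = m * m := by
      have e4 : ((n * n : ℕ) : k) = ((m * m : ℕ) : k) := by
        push_cast
        linear_combination e1
      exact Nat.cast_injective e4
    exact Nat.mul_self_inj.mp e3
  subst hmn
  by_cases hn2 : 2 ≤ n
  · have hE : ExtSl D := by
      intro u f hfu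
      have hex : Ex 0 (vecMulVec u f) := by
        refine ex_of ?_ ?_ ?_
        · rw [mem_gJ_zero, trace_vmv, dotProduct_comm, hfu]
        · rw [Matrix.vecMulVec_mul_vecMulVec, hfu, zero_smul, Matrix.vecMulVec_zero]
        · intro Y _
          exact ⟨f ⬝ᵥ (Y *ᵥ u), by rw [vmv_mul_mul]⟩
      have hex' := (LI.ex ⟨h1, h2, h3, h4⟩ hex : Ex 0 (D (vecMulVec u f)))
      obtain ⟨x, y, hxy⟩ := ex_sl hex'
      refine ⟨x, y, hxy, ?_⟩
      have := mem_gJ_zero.mp hex'.1
      rw [hxy, trace_vmv] at this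
      rw [dotProduct_comm, this]
    obtain ⟨A, B, hAB, hBA, h⟩ := sl_class hn2 hD hE
    exact ⟨A, B, hAB, hBA, h⟩
  · have hn1 : n = 1 := by omega
    subst hn1
    refine ⟨1, 1, Matrix.mul_one 1, Matrix.mul_one 1, Or.inl fun X hX => ?_⟩
    have hX0 : X = 0 := by
      have e1 := mem_gJ_zero.mp hX
      rw [Matrix.trace_fin_one] at e1
      ext i j
      rw [Subsingleton.elim i 0, Subsingleton.elim j 0, e1, Matrix.zero_apply]
    rw [hX0, map_zero, Matrix.mul_zero, Matrix.zero_mul]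

end Pool.Agent.Helper14.RG.AU
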