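import Pool.Agent.Helper14.RG.AU.Final
import Pool.Agent.Helper14.RG.AU.FacX
import Pool.Agent.Helper97.AU.Excl
import Pool.Agent.Helper14.RG.LC.All

set_option autoImplicit false

/-!
# The intrinsic theorem for classical groups
-/

namespace Pool.Agent.Helper14.RG.AU

open Matrix Pool.Agent.Helper97.CG Pool.Agent.Helper14.RG Pool.Agent.Helper97.AU

universe u

variable {k : Type u} [Field k] [IsAlgClosed k] [CharZero k]

/-- `SL_n`, `Sp_n`, or `SO_n` with `n ≥ 7`, `n ≠ 8` -/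
def Good {n : ℕ} (J : Matrix (Fin n) (Fin n) k) : Prop :=
  J = 0 ∨ (Jᵀ = -J ∧ J.det ≠ 0) ∨ (Jᵀ = J ∧ J.det ≠ 0 ∧ 7 ≤ n ∧ n ≠ 8)

omit [IsAlgClosed k] [CharZero k] in
lemma pos_of_ne_bot {n : ℕ} {J : Matrix (Fin n) (Fin n) k} (h : gJ J ≠ ⊥) : 0 < n := by
  rcases Nat.eq_zero_or_pos n with h0 | h0
  · subst h0
    exfalso
    apply h
    rw [Submodule.eq_bot_iff]
    intro X _
    exact Subsingleton.elim _ _
  · exact h0

theorem lieStd_all {m n : ℕ} {J : Matrix (Fin m) (Fin m) k} {J' : Matrix (Fin n) (Fin n) k}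
    (h : Good J) (h' : Good J') (hne : gJ J ≠ ⊥) (hne' : gJ J' ≠ ⊥) : LieStd J J' := by
  have hm := pos_of_ne_bot hne
  have hn := pos_of_ne_bot hne'
  rcases h with rfl | ⟨h1, h2⟩ | ⟨h1, h2, h3, h4⟩
  · rcases h' with rfl | ⟨h1', h2'⟩ | ⟨h1', h2', h3', h4'⟩
    · exact lieStd_sl hm hn
    · exact lieStd_sl_sp hn h1' h2' m
    · exact lieStd_sl_so h3' h1' h2' m
  · rcases h' with rfl | ⟨h1', h2'⟩ | ⟨h1', h2', h3', h4'⟩
    · exact lieStd_sp_sl hm h1 h2 n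
    · exact lieStd_sp_sp h1 h2 h1' h2' hm
    · exact lieStd_sp_so h3' h1 h2 h1' h2'
  · rcases h' with rfl | ⟨h1', h2'⟩ | ⟨h1', h2', h3', h4'⟩
    · exact lieStd_so_sl h3 h1 h2 n
    · exact lieStd_so_sp h3 h1 h2 h1' h2'
    · exact lieStd_so (by omega) (by omega) h4' h1 h2 h1' h2'

theorem lf_good {n : ℕ} {J : Matrix (Fin n) (Fin n) k} (h : Good J)
    (hf : J = 0 ∨ FormFacts J) : LF J := by
  rcases h with rfl | ⟨h1, h2⟩ | ⟨h1, h2, h3, h4⟩
  · exact lf_zero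
  · rcases hf with hf | hf
    · rw [hf]
      exact lf_zero
    · exact lf_sp h1 h2 hf
  · rcases hf with hf | hf
    · rw [hf]
      exact lf_zero
    · exact lf_so (by omega) h1 h2 hf

theorem intrinsic_good {ι : Type*} [DecidableEq ι] [Fintype ι] {n : ι → ℕ}
    {J : ∀ i, Matrix (Fin (n i)) (Fin (n i)) k} {Q : Type*} [Group Q]
    (hG : ∀ i, Good (J i)) (hJ : ∀ i, J i = 0 ∨ FormFacts (J i))
    (π : (∀ i, IsoG (J i)) →* Q) (hπ : Function.Surjective π)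
    (hZ : π.ker ≤ Subgroup.center (∀ i, IsoG (J i))) (σ : Q ≃* Q)
    (hreg : ∀ f ∈ quotAlg (prodAlg fun i => mAlg (isoHom (J i))) π,
      (fun q => f (σ q)) ∈ quotAlg (prodAlg fun i => mAlg (isoHom (J i))) π)
    (M : ℕ) (hM : 0 < M) (hfin : ∀ x, σ^[M] x = x) :
    RationalQuotient (quotAlg (prodAlg fun i => mAlg (isoHom (J i))) π : Set (Q → k))
      (fixSub σ) :=
  intrinsic_of_facts (fun i => lf_good (hG i) (hJ i)) hJ
    (fun i j hi hj => lieStd_all (hG j) (hG i) hj hi) π hπ hZ σ hreg M hM hfin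

end Pool.Agent.Helper14.RG.AU
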