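import Pool.Agent.Helper14.RG.AU.Perm

set_option autoImplicit false

/-!
# From the Lie algebras back to the groups
-/

namespace Pool.Agent.Helper14.RG.AU

open Matrix Pool.Agent.Helper97.CG Pool.Agent.Helper14.RG

lemma irr_const {k : Type*} [Field k] {X : Type*} {A : Subalgebra k (X → k)} (h : Irr A)
    {χ : X → k} (hχ : χ ∈ A) {N : ℕ} (hN : 0 < N) (h1 : ∀ x, χ x ^ N = 1) (x y : X) :
    χ x = χ y := by
  classical
  by_contra hne
  let R : Finset k := (Polynomial.nthRootsFinset N (1 : k)).erase (χ y)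
  have ha : (fun z => χ z - χ y) ∈ A := A.sub_mem hχ (A.algebraMap_mem (χ y))
  have hb : (fun z => ∏ ζ ∈ R, (χ z - ζ)) ∈ A := by
    have h2 : (fun z => ∏ ζ ∈ R, (χ z - ζ)) = ∏ ζ ∈ R, (fun z => χ z - ζ) := by
      funext z
      rw [Finset.prod_apply]
    rw [h2]
    exact A.prod_mem fun ζ _ => A.sub_mem hχ (A.algebraMap_mem ζ)
  obtain ⟨z, hz1, hz2⟩ := h.2 _ ha _ hb (Function.ne_iff.mpr ⟨x, sub_ne_zero.mpr hne⟩)
    (Function.ne_iff.mpr ⟨y, by
      rw [Pi.zero_apply, Finset.prod_ne_zero_iff]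
      intro ζ hζ
      exact sub_ne_zero.mpr (Finset.ne_of_mem_erase hζ).symm⟩)
  rw [Finset.prod_ne_zero_iff] at hz2
  have h3 : χ z ∈ R := by
    refine Finset.mem_erase.mpr ⟨sub_ne_zero.mp hz1, ?_⟩
    rw [Polynomial.mem_nthRootsFinset hN]
    exact h1 z
  exact hz2 (χ z) h3 (sub_self _)

section Tw

variable {k : Type*} [Field k] {m n : ℕ} {J : Matrix (Fin m) (Fin m) k}
  {J' : Matrix (Fin n) (Fin n) k}

/-- the standard representation or its dual -/
def tw (ε : Bool) (g : IsoG J) : Matrix (Fin m) (Fin m) k :=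
  if ε then (isoHom J g⁻¹)ᵀ else isoHom J g

lemma tw_false (g : IsoG J) : tw false g = isoHom J g := rfl

lemma tw_true (g : IsoG J) : tw true g = (isoHom J g⁻¹)ᵀ := rfl

lemma tw_mul (ε : Bool) (g h : IsoG J) : tw ε (g * h) = tw ε g * tw ε h := by
  cases ε
  · rw [tw_false, tw_false, tw_false, map_mul]
  · rw [tw_true, tw_true, tw_true, _root_.mul_inv_rev, map_mul, transpose_mul]

lemma tw_one (ε : Bool) : tw ε (1 : IsoG J) = 1 := by
  cases ε
  · rw [tw_false, map_one]
  · rw [tw_true, inv_one, map_one, transpose_one]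

lemma tw_det (ε : Bool) (g : IsoG J) : (tw ε g).det = 1 := by
  cases ε
  · rw [tw_false, isoHom_det]
  · rw [tw_true, Matrix.det_transpose, isoHom_det]

lemma tw_inj (ε : Bool) {g h : IsoG J} (e : tw ε g = tw ε h) : g = h := by
  cases ε
  · exact isoHom_inj J e
  · rw [tw_true, tw_true] at e
    have := isoHom_inj J (Matrix.transpose_injective e)
    exact inv_injective this

lemma tw_reg (ε : Bool) (a b : Fin m) : (fun g : IsoG J => tw ε g a b) ∈ mAlg (isoHom J) := by
  cases ε
  · exact iso_entry_mem J a b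
  · exact (iso_grpAlg J).2 _ (iso_entry_mem J b a)

/-- a conjugate representation which maps to `IsoG J'` up to scalars maps to `IsoG J'` -/
theorem exact_of_scalar (hirr : Irr (mAlg (isoHom J))) (ε : Bool) (a : Matrix (Fin n) (Fin m) k)
    (b : Matrix (Fin m) (Fin n) k) (hab : a * b = 1) (hba : b * a = 1)
    (hc : ∀ g : IsoG J, ∃ (c : k) (h : IsoG J'), isoHom J' h = c • (a * tw ε g * b)) (g : IsoG J) :
    ∃ h : IsoG J', isoHom J' h = a * tw ε g * b := by
  rcases Nat.eq_zero_or_pos n with h0 | h0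
  · subst h0
    exact ⟨1, Subsingleton.elim _ _⟩
  have hdet : ∀ g : IsoG J, (a * tw ε g * b).det = 1 := by
    intro g
    rw [Matrix.det_conj_of_mul_eq_one hab hba, tw_det]
  have hcn : ∀ g : IsoG J, ∀ (c : k) (h : IsoG J'), isoHom J' h = c • (a * tw ε g * b) →
      c ^ n = 1 := by
    intro g c h e
    have h1 := congrArg Matrix.det e
    rw [isoHom_det, Matrix.det_smul, hdet, Fintype.card_fin, mul_one] at h1
    exact h1.symm
  have hform : ∀ g : IsoG J, ∀ (c : k) (h : IsoG J'), isoHom J' h = c • (a * tw ε g * b) →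
      (c * c) • ((a * tw ε g * b)ᵀ * J' * (a * tw ε g * b)) = J' := by
    intro g c h e
    have h1 := isoHom_rel J' h
    rw [e, transpose_smul, Matrix.smul_mul, Matrix.smul_mul, Matrix.mul_smul, smul_smul] at h1
    exact h1
  suffices hrel : (a * tw ε g * b)ᵀ * J' * (a * tw ε g * b) = J' from
    ⟨⟨⟨a * tw ε g * b, hdet g⟩, hrel⟩, rfl⟩
  by_cases hJ : J' = 0
  · rw [hJ, Matrix.mul_zero, Matrix.zero_mul]
  obtain ⟨u, v, huv⟩ : ∃ u v, J' u v ≠ 0 := by
    by_contra hcon
    push Not at hcon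
    exact hJ (Matrix.ext hcon)
  let χ : IsoG J → k := fun g => ((a * tw ε g * b)ᵀ * J' * (a * tw ε g * b)) u v * (J' u v)⁻¹
  have hF : ∀ i j, (fun g : IsoG J => (a * tw ε g * b) i j) ∈ mAlg (isoHom J) := by
    intro i j
    exact mul_mem_alg (mAlg (isoHom J)) (fun g => a * tw ε g) (fun _ => b)
      (fun i j => mul_mem_alg (mAlg (isoHom J)) (fun _ => a) (fun g => tw ε g)
        (fun _ _ => const_mem _ _) (fun i j => tw_reg ε i j) i j) (fun _ _ => const_mem _ _) i j
  have hχ : χ ∈ mAlg (isoHom J) := by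
    refine Subalgebra.mul_mem _ ?_ (const_mem _ _)
    exact mul_mem_alg (mAlg (isoHom J)) (fun g => (a * tw ε g * b)ᵀ * J')
      (fun g => a * tw ε g * b) (fun i j => mul_mem_alg (mAlg (isoHom J))
        (fun g => (a * tw ε g * b)ᵀ) (fun _ => J') (fun i j => hF j i)
        (fun _ _ => const_mem _ _) i j) hF u v
  have hval : ∀ g : IsoG J, ∀ (c : k) (h : IsoG J'), isoHom J' h = c • (a * tw ε g * b) →
      c * c * χ g = 1 := by
    intro g c h e
    have h1 := congrFun (congrFun (hform g c h e) u) v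
    rw [Matrix.smul_apply, smul_eq_mul] at h1
    show c * c * (_ * (J' u v)⁻¹) = 1
    rw [← mul_assoc, h1, mul_inv_cancel₀ huv]
  have hpow : ∀ g, χ g ^ n = 1 := by
    intro g
    obtain ⟨c, h, e⟩ := hc g
    have h1 := congrArg (fun x => x ^ n) (hval g c h e)
    simp only [mul_pow, one_pow] at h1
    rw [hcn g c h e, one_mul, one_mul] at h1
    exact h1
  have h1 : χ g = 1 := by
    rw [irr_const hirr hχ h0 hpow g 1]
    show ((a * tw ε (1 : IsoG J) * b)ᵀ * J' * (a * tw ε (1 : IsoG J) * b)) u v * (J' u v)⁻¹ = 1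
    rw [tw_one, Matrix.mul_one, hab, transpose_one, Matrix.one_mul, Matrix.mul_one,
      mul_inv_cancel₀ huv]
  obtain ⟨c, h, e⟩ := hc g
  have h2 := hval g c h e
  rw [h1, mul_one] at h2
  have h3 := hform g c h e
  rw [h2, one_smul] at h3
  exact h3

/-- the inverse map on matrices -/
def tw' (ε : Bool) (a : Matrix (Fin n) (Fin m) k) (b : Matrix (Fin m) (Fin n) k) (h : IsoG J') :
    Matrix (Fin m) (Fin m) k :=
  if ε then (b * isoHom J' h⁻¹ * a)ᵀ else b * isoHom J' h * a

lemma tw'_false (a : Matrix (Fin n) (Fin m) k) (b : Matrix (Fin m) (Fin n) k) (h : IsoG J') :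
    tw' false a b h = b * tw false h * a := rfl

lemma tw'_true (a : Matrix (Fin n) (Fin m) k) (b : Matrix (Fin m) (Fin n) k) (h : IsoG J') :
    tw' true a b h = aᵀ * tw true h * bᵀ := by
  show (b * isoHom J' h⁻¹ * a)ᵀ = _
  rw [transpose_mul, transpose_mul, tw_true, Matrix.mul_assoc]

lemma scalar_inv {ε : Bool} {a : Matrix (Fin n) (Fin m) k} {b : Matrix (Fin m) (Fin n) k}
    (hab : a * b = 1) (hba : b * a = 1) {c : k} {g : IsoG J} {h : IsoG J'}
    (e : isoHom J' h = c • (a * tw ε g * b)) : ∃ c' : k, isoHom J g = c' • tw' ε a b h := by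
  rcases Nat.eq_zero_or_pos m with h0 | h0
  · subst h0
    exact ⟨1, Subsingleton.elim _ _⟩
  have h1 : c • (tw ε g * (b * isoHom J' h⁻¹ * a)) = 1 := by
    have h2 : b * (isoHom J' h * isoHom J' h⁻¹) * a = 1 := by
      rw [iso_mul_inv, Matrix.mul_one, hba]
    rw [e] at h2
    calc c • (tw ε g * (b * isoHom J' h⁻¹ * a))
        = c • ((b * a) * tw ε g * (b * isoHom J' h⁻¹ * a)) := by rw [hba, Matrix.one_mul]
      _ = b * ((c • (a * tw ε g * b)) * isoHom J' h⁻¹) * a := by
          rw [Matrix.smul_mul, Matrix.mul_smul, Matrix.smul_mul]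
          simp only [Matrix.mul_assoc]
      _ = 1 := h2
  cases ε
  · have hc : c ≠ 0 := by
      rintro rfl
      rw [zero_smul] at h1
      have : Nonempty (Fin m) := ⟨⟨0, h0⟩⟩
      exact one_ne_zero h1.symm
    refine ⟨c⁻¹, ?_⟩
    have h2 : tw' false a b h = c • isoHom J g := by
      show b * isoHom J' h * a = c • isoHom J g
      rw [e, tw_false]
      calc b * (c • (a * isoHom J g * b)) * a = c • ((b * a) * isoHom J g * (b * a)) := by
            rw [Matrix.mul_smul, Matrix.smul_mul]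
            simp only [Matrix.mul_assoc]
        _ = c • isoHom J g := by rw [hba, Matrix.one_mul, Matrix.mul_one]
    rw [h2, smul_smul, inv_mul_cancel₀ hc, one_smul]
  · refine ⟨c, ?_⟩
    have e1 : (isoHom J g)ᵀ * tw true g = 1 := by
      rw [tw_true, ← transpose_mul, iso_inv_mul, transpose_one]
    have h2 : c • (b * isoHom J' h⁻¹ * a) = (isoHom J g)ᵀ := by
      calc c • (b * isoHom J' h⁻¹ * a)
          = c • (((isoHom J g)ᵀ * tw true g) * (b * isoHom J' h⁻¹ * a)) := by
            rw [e1, Matrix.one_mul]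
        _ = (isoHom J g)ᵀ * (c • (tw true g * (b * isoHom J' h⁻¹ * a))) := by
            rw [Matrix.mul_smul, Matrix.mul_assoc]
        _ = (isoHom J g)ᵀ := by rw [h1, Matrix.mul_one]
    have h3 := congrArg transpose h2
    rw [transpose_smul, transpose_transpose] at h3
    exact h3.symm

theorem exact_of_scalar' (hirr : Irr (mAlg (isoHom J'))) (ε : Bool) (a : Matrix (Fin n) (Fin m) k)
    (b : Matrix (Fin m) (Fin n) k) (hab : a * b = 1) (hba : b * a = 1)
    (hc : ∀ h : IsoG J', ∃ (c : k) (g : IsoG J), isoHom J g = c • tw' ε a b h) (h : IsoG J') :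
    ∃ g : IsoG J, isoHom J g = tw' ε a b h := by
  cases ε
  · simp only [tw'_false] at hc ⊢
    exact exact_of_scalar hirr false b a hba hab hc h
  · simp only [tw'_true] at hc ⊢
    exact exact_of_scalar hirr true aᵀ bᵀ (transpose_one_of hba) (transpose_one_of hab) hc h

/-- the group isomorphism -/
theorem exists_std (hirr : Irr (mAlg (isoHom J))) (hirr' : Irr (mAlg (isoHom J'))) (ε : Bool)
    (a : Matrix (Fin n) (Fin m) k) (b : Matrix (Fin m) (Fin n) k) (hab : a * b = 1)
    (hba : b * a = 1)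
    (hc : ∀ g : IsoG J, ∃ (c : k) (h : IsoG J'), isoHom J' h = c • (a * tw ε g * b))
    (hc' : ∀ h : IsoG J', ∃ (c : k) (g : IsoG J), isoHom J g = c • tw' ε a b h) :
    ∃ τ : IsoG J ≃* IsoG J', IsStdIso τ ∧ ∀ g, isoHom J' (τ g) = a * tw ε g * b := by
  choose f hf using exact_of_scalar hirr ε a b hab hba hc
  choose f' hf' using exact_of_scalar' hirr' ε a b hab hba hc'
  have hinv : ∀ h, f (f' h) = h := by
    intro h
    apply isoHom_inj J'
    rw [hf]
    have h1 := hf' h
    cases ε
    · rw [tw_false, h1, tw'_false, tw_false]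
      calc a * (b * isoHom J' h * a) * b = (a * b) * isoHom J' h * (a * b) := by
            simp only [Matrix.mul_assoc]
        _ = isoHom J' h := by rw [hab, Matrix.one_mul, Matrix.mul_one]
    · -- the inverse of `f' h`
      have h2 : isoHom J (f' h) = (b * isoHom J' h⁻¹ * a)ᵀ := h1
      have h3 : isoHom J (f' h)⁻¹ = (b * isoHom J' h * a)ᵀ := by
        have h4 : isoHom J (f' h) * (b * isoHom J' h * a)ᵀ = 1 := by
          rw [h2, ← transpose_mul]
          have h5 : b * isoHom J' h * a * (b * isoHom J' h⁻¹ * a) = 1 := by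
            calc b * isoHom J' h * a * (b * isoHom J' h⁻¹ * a)
                = b * isoHom J' h * (a * b) * isoHom J' h⁻¹ * a := by
                  simp only [Matrix.mul_assoc]
              _ = b * (isoHom J' h * isoHom J' h⁻¹) * a := by
                  rw [hab, Matrix.mul_one, Matrix.mul_assoc b]
              _ = 1 := by rw [iso_mul_inv, Matrix.mul_one, hba]
          rw [h5, transpose_one]
        calc isoHom J (f' h)⁻¹ = isoHom J (f' h)⁻¹ * (isoHom J (f' h) * (b * isoHom J' h * a)ᵀ) := by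
              rw [h4, Matrix.mul_one]
          _ = _ := by rw [← Matrix.mul_assoc, iso_inv_mul, Matrix.one_mul]
      rw [tw_true, h3, transpose_transpose]
      calc a * (b * isoHom J' h * a) * b = (a * b) * isoHom J' h * (a * b) := by
            simp only [Matrix.mul_assoc]
        _ = isoHom J' h := by rw [hab, Matrix.one_mul, Matrix.mul_one]
  have hmul : ∀ g h, f (g * h) = f g * f h := by
    intro g h
    apply isoHom_inj J'
    rw [map_mul, hf, hf, hf, tw_mul]
    calc a * (tw ε g * tw ε h) * b = a * tw ε g * (1 * tw ε h) * b := by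
          rw [Matrix.one_mul]; simp only [Matrix.mul_assoc]
      _ = a * tw ε g * b * (a * tw ε h * b) := by
          rw [← hba]; simp only [Matrix.mul_assoc]
  have hinj : Function.Injective f := by
    intro g h e
    apply tw_inj ε
    have h1 := congrArg (isoHom J') e
    rw [hf, hf] at h1
    calc tw ε g = (b * a) * tw ε g * (b * a) := by rw [hba, Matrix.one_mul, Matrix.mul_one]
      _ = b * (a * tw ε g * b) * a := by simp only [Matrix.mul_assoc]
      _ = b * (a * tw ε h * b) * a := by rw [h1]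
      _ = (b * a) * tw ε h * (b * a) := by simp only [Matrix.mul_assoc]
      _ = tw ε h := by rw [hba, Matrix.one_mul, Matrix.mul_one]
  let F : IsoG J →* IsoG J' := MonoidHom.mk' f hmul
  have hbij : Function.Bijective F := ⟨hinj, fun h => ⟨f' h, hinv h⟩⟩
  refine ⟨MulEquiv.ofBijective F hbij, ?_, hf⟩
  refine ⟨ε, a, b, hab, hba, fun g => ?_⟩
  have h1 : isoHom J' ((MulEquiv.ofBijective F hbij) g) = a * tw ε g * b := hf g
  cases ε
  · rw [stdRel_false, h1, Matrix.mul_assoc, hba, Matrix.mul_one]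
    rfl
  · rw [stdRel_true, h1, Matrix.mul_assoc (a * tw true g), hba, Matrix.mul_one, tw_true,
      Matrix.mul_assoc, ← transpose_mul, iso_mul_inv, transpose_one, Matrix.mul_one]

end Tw

end Pool.Agent.Helper14.RG.AU
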