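import Pool.Agent.Helper14.RG.AU.Back1

set_option autoImplicit false

/-!
# The automorphism permutes the factors by standard isomorphisms, up to the centre
-/

namespace Pool.Agent.Helper14.RG.AU

open Matrix Pool.Agent.Helper97.CG Pool.Agent.Helper14.RG

/-- Every isomorphism of the Lie algebras of `J` and `J'` is standard. -/
def LieStd {k : Type*} [Field k] {m n : ℕ} (J : Matrix (Fin m) (Fin m) k)
    (J' : Matrix (Fin n) (Fin n) k) : Prop :=
  ∀ D : Matrix (Fin m) (Fin m) k →ₗ[k] Matrix (Fin n) (Fin n) k,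
    (∀ X ∈ gJ J, D X ∈ gJ J') → (∀ Y ∈ gJ J', ∃ X ∈ gJ J, D X = Y) →
    (∀ X ∈ gJ J, D X = 0 → X = 0) →
    (∀ X ∈ gJ J, ∀ Y ∈ gJ J, D (X * Y - Y * X) = D X * D Y - D Y * D X) →
    ∃ (a : Matrix (Fin n) (Fin m) k) (b : Matrix (Fin m) (Fin n) k), a * b = 1 ∧ b * a = 1 ∧
      ((∀ X ∈ gJ J, D X = a * X * b) ∨ (∀ X ∈ gJ J, D X = -(a * Xᵀ * b)))

section

variable {k : Type*} [Field k] [CharZero k] {ι : Type*} [DecidableEq ι] [Fintype ι] {n : ι → ℕ}
  {J : ∀ i, Matrix (Fin (n i)) (Fin (n i)) k} {Q : Type*} [Group Q]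
  {π : (∀ i, IsoG (J i)) →* Q} {σ : Q ≃* Q} {r : Q → ∀ i, IsoG (J i)}
  {D : ∀ i, Mt k n →ₗ[k] Matrix (Fin (n i)) (Fin (n i)) k}

/-- the relation between `s` and its image -/
lemma Setup.rel (S : Setup J π σ r D) {i j : ι} (a : Matrix (Fin (n i)) (Fin (n j)) k)
    (b : Matrix (Fin (n j)) (Fin (n i)) k) (hab : a * b = 1) (hba : b * a = 1)
    (h : (∀ X ∈ gJ (J j), D i (Pi.single j X) = a * X * b) ∨
      (∀ X ∈ gJ (J j), D i (Pi.single j X) = -(a * Xᵀ * b))) :
    ∃ ε : Bool, ∀ s, ∃ c : k, isoHom (J i) (r (σ (π s)) i) = c • (a * tw ε (s j) * b) := by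
  have key : ∀ s, ∀ X ∈ gJ (J j), D i (Pi.single j (isoHom (J j) (s j) * X * isoHom (J j) (s j)⁻¹))
      * isoHom (J i) (r (σ (π s)) i) = isoHom (J i) (r (σ (π s)) i) * D i (Pi.single j X) := by
    intro s X hX
    have h1 := (S.hD i).equiv S.sp (S.hact i) (single_mem_VJ hX) s
    rw [cj_single'] at h1
    rw [h1]
    unfold Adx
    rw [Matrix.mul_assoc, Matrix.mul_assoc, iso_inv_mul, Matrix.mul_one]
  have hback : ∀ (x : Matrix (Fin (n i)) (Fin (n i)) k) (c : k) (T : Matrix (Fin (n j)) (Fin (n j)) k),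
      b * x * a = c • T → x = c • (a * T * b) := by
    intro x c T e
    calc x = (a * b) * x * (a * b) := by rw [hab, Matrix.one_mul, Matrix.mul_one]
      _ = a * (b * x * a) * b := by simp only [Matrix.mul_assoc]
      _ = c • (a * T * b) := by rw [e, Matrix.mul_smul, Matrix.smul_mul]
  rcases h with h | h
  · refine ⟨false, fun s => ?_⟩
    set x := isoHom (J i) (r (σ (π s)) i) with hx
    have h1 : ∀ X ∈ gJ (J j), (isoHom (J j) (s j)⁻¹ * (b * x * a)) * X
        = X * (isoHom (J j) (s j)⁻¹ * (b * x * a)) := by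
      intro X hX
      have h2 := key s X hX
      rw [h X hX, h _ (conj_mem_gJ _ hX), ← hx] at h2
      have h3 : isoHom (J j) (s j) * X * isoHom (J j) (s j)⁻¹ * (b * x * a) = b * x * a * X := by
        calc isoHom (J j) (s j) * X * isoHom (J j) (s j)⁻¹ * (b * x * a)
            = (b * a) * (isoHom (J j) (s j) * X * isoHom (J j) (s j)⁻¹) * (b * x * a) := by
              rw [hba, Matrix.one_mul]
          _ = b * (a * (isoHom (J j) (s j) * X * isoHom (J j) (s j)⁻¹) * b * x) * a := by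
              simp only [Matrix.mul_assoc]
          _ = b * (x * (a * X * b)) * a := by rw [h2]
          _ = b * x * a * X * (b * a) := by simp only [Matrix.mul_assoc]
          _ = b * x * a * X := by rw [hba, Matrix.mul_one]
      calc isoHom (J j) (s j)⁻¹ * (b * x * a) * X = isoHom (J j) (s j)⁻¹ * (b * x * a * X) := by
            rw [Matrix.mul_assoc]
        _ = (isoHom (J j) (s j)⁻¹ * isoHom (J j) (s j)) * X * isoHom (J j) (s j)⁻¹ * (b * x * a) := by
            rw [← h3]; simp only [Matrix.mul_assoc]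
        _ = X * (isoHom (J j) (s j)⁻¹ * (b * x * a)) := by
            rw [iso_inv_mul, Matrix.one_mul, Matrix.mul_assoc]
    obtain ⟨c, hc⟩ := (S.hF j).lc _ h1
    refine ⟨c, hback x c _ ?_⟩
    calc b * x * a = isoHom (J j) (s j) * (isoHom (J j) (s j)⁻¹ * (b * x * a)) := by
          rw [← Matrix.mul_assoc, iso_mul_inv, Matrix.one_mul]
      _ = c • tw false (s j) := by rw [hc, Matrix.mul_smul, Matrix.mul_one, tw_false]
  · refine ⟨true, fun s => ?_⟩
    set x := isoHom (J i) (r (σ (π s)) i) with hx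
    have h1 : ∀ X ∈ gJ (J j), ((isoHom (J j) (s j))ᵀ * (b * x * a))ᵀ * X
        = X * ((isoHom (J j) (s j))ᵀ * (b * x * a))ᵀ := by
      intro X hX
      have h2 := key s X hX
      rw [h X hX, h _ (conj_mem_gJ _ hX), ← hx, Matrix.neg_mul, Matrix.mul_neg, neg_inj,
        transpose_mul, transpose_mul] at h2
      have h3 : (isoHom (J j) (s j)⁻¹)ᵀ * (Xᵀ * (isoHom (J j) (s j))ᵀ) * (b * x * a)
          = b * x * a * Xᵀ := by
        calc (isoHom (J j) (s j)⁻¹)ᵀ * (Xᵀ * (isoHom (J j) (s j))ᵀ) * (b * x * a)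
            = (b * a) * ((isoHom (J j) (s j)⁻¹)ᵀ * (Xᵀ * (isoHom (J j) (s j))ᵀ)) * (b * x * a) := by
              rw [hba, Matrix.one_mul]
          _ = b * (a * ((isoHom (J j) (s j)⁻¹)ᵀ * (Xᵀ * (isoHom (J j) (s j))ᵀ)) * b * x) * a := by
              simp only [Matrix.mul_assoc]
          _ = b * (x * (a * Xᵀ * b)) * a := by rw [h2]
          _ = b * x * a * Xᵀ * (b * a) := by simp only [Matrix.mul_assoc]
          _ = b * x * a * Xᵀ := by rw [hba, Matrix.mul_one]
      have e1 : (isoHom (J j) (s j))ᵀ * (isoHom (J j) (s j)⁻¹)ᵀ = 1 := by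
        rw [← transpose_mul, iso_inv_mul, transpose_one]
      have h4 : Xᵀ * ((isoHom (J j) (s j))ᵀ * (b * x * a))
          = (isoHom (J j) (s j))ᵀ * (b * x * a) * Xᵀ := by
        calc Xᵀ * ((isoHom (J j) (s j))ᵀ * (b * x * a))
            = ((isoHom (J j) (s j))ᵀ * (isoHom (J j) (s j)⁻¹)ᵀ) * Xᵀ
              * ((isoHom (J j) (s j))ᵀ * (b * x * a)) := by rw [e1, Matrix.one_mul]
          _ = (isoHom (J j) (s j))ᵀ * ((isoHom (J j) (s j)⁻¹)ᵀ * (Xᵀ * (isoHom (J j) (s j))ᵀ)
              * (b * x * a)) := by simp only [Matrix.mul_assoc]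
          _ = (isoHom (J j) (s j))ᵀ * (b * x * a) * Xᵀ := by
              rw [h3]; simp only [Matrix.mul_assoc]
      have h5 := congrArg transpose h4
      rw [transpose_mul, transpose_transpose, transpose_mul _ Xᵀ, transpose_transpose] at h5
      exact h5
    obtain ⟨c, hc⟩ := (S.hF j).lc _ h1
    have hc' : (isoHom (J j) (s j))ᵀ * (b * x * a) = c • (1 : Matrix (Fin (n j)) (Fin (n j)) k) := by
      have := congrArg transpose hc
      rwa [transpose_transpose, transpose_smul, transpose_one] at this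
    have e2 : (isoHom (J j) (s j)⁻¹)ᵀ * (isoHom (J j) (s j))ᵀ = 1 := by
      rw [← transpose_mul, iso_mul_inv, transpose_one]
    refine ⟨c, hback x c _ ?_⟩
    calc b * x * a = (isoHom (J j) (s j)⁻¹)ᵀ * ((isoHom (J j) (s j))ᵀ * (b * x * a)) := by
          rw [← Matrix.mul_assoc, e2, Matrix.one_mul]
      _ = c • tw true (s j) := by rw [hc', Matrix.mul_smul, Matrix.mul_one, tw_true]

/-- the factor isomorphisms -/
theorem Setup.exists_tau (S : Setup J π σ r D)
    (hstd : ∀ i j, gJ (J i) ≠ ⊥ → gJ (J j) ≠ ⊥ → LieStd (J j) (J i)) :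
    ∃ (p : Equiv.Perm ι) (τ : ∀ i, IsoG (J (p i)) ≃* IsoG (J i)), (∀ i, IsStdIso (τ i)) ∧
      ∀ i s, ∃ c : k, isoHom (J i) (r (σ (π s)) i) = c • isoHom (J i) (τ i (s (p i))) := by
  obtain ⟨p, hp0, hp⟩ := S.exists_perm
  have main : ∀ i, ∃ τ : IsoG (J (p i)) ≃* IsoG (J i), IsStdIso τ ∧
      ∀ s, ∃ c : k, isoHom (J i) (r (σ (π s)) i) = c • isoHom (J i) (τ (s (p i))) := by
    intro i
    by_cases hi : gJ (J i) = ⊥
    · -- the trivial group
      have hsc : ∀ M : Matrix (Fin (n i)) (Fin (n i)) k,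
          ∃ c : k, M = c • (1 : Matrix (Fin (n i)) (Fin (n i)) k) := by
        intro M
        refine (S.hF i).lc M fun X hX => ?_
        rw [hi, Submodule.mem_bot] at hX
        rw [hX, Matrix.mul_zero, Matrix.zero_mul]
      have h1 : ∀ j, j = i → ∃ τ : IsoG (J j) ≃* IsoG (J i), IsStdIso τ := by
        rintro _ rfl
        exact ⟨MulEquiv.refl _, IsStdIso.refl _⟩
      obtain ⟨τ, hτ⟩ := h1 (p i) (hp0 i hi)
      refine ⟨τ, hτ, fun s => ?_⟩
      obtain ⟨c, hc⟩ := hsc (isoHom (J i) (r (σ (π s)) i) * isoHom (J i) (τ (s (p i)))⁻¹)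
      refine ⟨c, ?_⟩
      calc isoHom (J i) (r (σ (π s)) i)
          = isoHom (J i) (r (σ (π s)) i) * isoHom (J i) (τ (s (p i)))⁻¹
            * isoHom (J i) (τ (s (p i))) := by
            rw [Matrix.mul_assoc, iso_inv_mul, Matrix.mul_one]
        _ = c • isoHom (J i) (τ (s (p i))) := by rw [hc, Matrix.smul_mul, Matrix.one_mul]
    · obtain ⟨hpi, h1, h2, h3⟩ := hp i hi
      obtain ⟨a, b, hab, hba, h4⟩ := hstd i (p i) hi hpi
        ((D i).comp (LinearMap.single k (fun i => Matrix (Fin (n i)) (Fin (n i)) k) (p i)))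
        h1 h2 h3 (fun X hX Y hY => by
          have h5 := (S.hD i).lie S.sp (S.hact i) (single_mem_VJ hY) (single_mem_VJ hX)
          have h6 : (Pi.single (p i) X : Mt k n) * (Pi.single (p i) Y : Mt k n)
              - (Pi.single (p i) Y : Mt k n) * (Pi.single (p i) X : Mt k n)
              = Pi.single (p i) (X * Y - Y * X) := by
            funext l
            by_cases hl : l = p i
            · subst hl
              rw [Pi.sub_apply, Pi.mul_apply, Pi.mul_apply, Pi.single_eq_same, Pi.single_eq_same,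
                Pi.single_eq_same]
            · rw [Pi.sub_apply, Pi.mul_apply, Pi.mul_apply, Pi.single_eq_of_ne hl,
                Pi.single_eq_of_ne hl, Pi.single_eq_of_ne hl, Matrix.mul_zero, sub_zero]
          rw [h6] at h5
          exact h5)
      obtain ⟨ε, hε⟩ := S.rel a b hab hba h4
      have hc : ∀ g : IsoG (J (p i)), ∃ (c : k) (h : IsoG (J i)),
          isoHom (J i) h = c • (a * tw ε g * b) := by
        intro g
        obtain ⟨c, e⟩ := hε (Pi.mulSingle (p i) g)
        rw [Pi.mulSingle_eq_same] at e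
        exact ⟨c, _, e⟩
      have hc' : ∀ h : IsoG (J i), ∃ (c : k) (g : IsoG (J (p i))),
          isoHom (J (p i)) g = c • tw' ε a b h := by
        intro h
        obtain ⟨s, hs⟩ := S.hπ (σ.symm (π (Pi.mulSingle i h)))
        have h7 : π (r (σ (π s))) = π (Pi.mulSingle i h) := by
          rw [S.hr, hs, MulEquiv.apply_symm_apply]
        have h8 : (r (σ (π s))) * (Pi.mulSingle i h : ∀ i, IsoG (J i))⁻¹ ∈ π.ker := by
          rw [MonoidHom.mem_ker, map_mul, map_inv, h7, mul_inv_cancel]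
        obtain ⟨c1, hc1⟩ := (S.hF i).center (center_comp (S.hZ h8) i)
        obtain ⟨c2, hc2⟩ := hε s
        have h9 : isoHom (J i) (r (σ (π s)) i) = c1 • isoHom (J i) h := by
          have e1 : r (σ (π s)) i
              = ((r (σ (π s))) * (Pi.mulSingle i h : ∀ i, IsoG (J i))⁻¹) i * h := by
            rw [Pi.mul_apply, Pi.inv_apply, Pi.mulSingle_eq_same, inv_mul_cancel_right]
          rw [e1, map_mul, hc1, Matrix.smul_mul, Matrix.one_mul]
        obtain ⟨c3, hc3⟩ : ∃ c3 : k, isoHom (J i) h = c3 • (a * tw ε (s (p i)) * b) := by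
          rcases Nat.eq_zero_or_pos (n i) with h0 | h0
          · refine ⟨1, ?_⟩
            ext u v
            exact absurd u.isLt (by omega)
          · have hc0 : c1 ≠ 0 := by
              rintro rfl
              have h10 := congrArg Matrix.det h9
              have : Nonempty (Fin (n i)) := ⟨⟨0, h0⟩⟩
              rw [isoHom_det, zero_smul, Matrix.det_zero] at h10
              exact one_ne_zero h10
            refine ⟨c1⁻¹ * c2, ?_⟩
            rw [← smul_smul, ← hc2, h9, smul_smul, inv_mul_cancel₀ hc0, one_smul]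
        obtain ⟨c4, hc4⟩ := scalar_inv hab hba hc3
        exact ⟨c4, _, hc4⟩
      obtain ⟨τ, hτ, hτ2⟩ := exists_std (S.hF (p i)).irr (S.hF i).irr ε a b hab hba hc hc'
      refine ⟨τ, hτ, fun s => ?_⟩
      obtain ⟨c, e⟩ := hε s
      exact ⟨c, by rw [e, hτ2]⟩
  choose τ hτ1 hτ2 using main
  exact ⟨p, τ, hτ1, hτ2⟩

end

end Pool.Agent.Helper14.RG.AU
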