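import Pool.Agent.Helper14.RG.LC.Cl4

set_option autoImplicit false

/-!
# Derivatives at `0` of matrix valued polynomial functions of one variable
-/

namespace Pool.Agent.Helper14.RG.AU

open Polynomial Matrix Pool.Agent.Helper97.CG Pool.Agent.Helper14.RG

section Dv

variable {k : Type*} [Field k] {m n l : Type*}

/-- `F` is a polynomial function with derivative `d` at `0` -/
def Dv (F : k → Matrix m n k) (d : Matrix m n k) : Prop :=
  ∃ P : Matrix m n k[X], (∀ t, P.map (eval t) = F t) ∧ P.map (fun p => p.coeff 1) = d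

lemma Dv.zero {F : k → Matrix m n k} {P : Matrix m n k[X]} (h : ∀ t, P.map (eval t) = F t) :
    P.map (fun p => p.coeff 0) = F 0 := by
  rw [← h 0]
  ext i j
  show (P i j).coeff 0 = eval 0 (P i j)
  rw [coeff_zero_eq_eval_zero]

lemma Dv.uniq [Infinite k] {F : k → Matrix m n k} {d d' : Matrix m n k} (h : Dv F d)
    (h' : Dv F d') : d = d' := by
  obtain ⟨P, h1, rfl⟩ := h
  obtain ⟨P', h1', rfl⟩ := h'
  have : P = P' := by
    ext1 i j
    apply Polynomial.funext
    intro t
    exact congrFun (congrFun ((h1 t).trans (h1' t).symm) i) j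
  rw [this]

lemma Dv.const (A : Matrix m n k) : Dv (fun _ : k => A) 0 := by
  refine ⟨A.map C, fun t => ?_, ?_⟩
  · ext i j
    show eval t (C (A i j)) = A i j
    rw [eval_C]
  · ext i j
    show (C (A i j)).coeff 1 = 0
    rw [coeff_C_succ]

lemma Dv.add {F G : k → Matrix m n k} {d e : Matrix m n k} (hF : Dv F d) (hG : Dv G e) :
    Dv (fun t => F t + G t) (d + e) := by
  obtain ⟨P, h1, rfl⟩ := hF
  obtain ⟨P', h1', rfl⟩ := hG
  refine ⟨P + P', fun t => ?_, ?_⟩
  · beta_reduce
    rw [← h1, ← h1']
    ext i j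
    show eval t (P i j + P' i j) = eval t (P i j) + eval t (P' i j)
    rw [eval_add]
  · ext i j
    show (P i j + P' i j).coeff 1 = (P i j).coeff 1 + (P' i j).coeff 1
    rw [coeff_add]

lemma Dv.mul [Fintype n] {F : k → Matrix m n k} {G : k → Matrix n l k} {d : Matrix m n k}
    {e : Matrix n l k} (hF : Dv F d) (hG : Dv G e) :
    Dv (fun t => F t * G t) (F 0 * e + d * G 0) := by
  obtain ⟨P, h1, rfl⟩ := hF
  obtain ⟨P', h1', rfl⟩ := hG
  refine ⟨P * P', fun t => ?_, ?_⟩
  · beta_reduce
    rw [← h1, ← h1']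
    ext i j
    show eval t (∑ x, P i x * P' x j) = ∑ x, eval t (P i x) * eval t (P' x j)
    rw [eval_finset_sum]
    exact Finset.sum_congr rfl fun x _ => eval_mul
  · rw [← Dv.zero h1, ← Dv.zero h1']
    ext i j
    show (∑ x, P i x * P' x j).coeff 1 = (∑ x, (P i x).coeff 0 * (P' x j).coeff 1)
      + ∑ x, (P i x).coeff 1 * (P' x j).coeff 0
    rw [finset_sum_coeff, ← Finset.sum_add_distrib]
    exact Finset.sum_congr rfl fun x _ => mul_coeff_one _ _

lemma Dv.congr {F G : k → Matrix m n k} {d e : Matrix m n k} (h : Dv F d) (hF : ∀ t, G t = F t)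
    (hd : e = d) : Dv G e := by
  obtain ⟨P, h1, rfl⟩ := h
  exact ⟨P, fun t => (h1 t).trans (hF t).symm, hd.symm⟩

/-- the function `t ↦ A + t B + t² C` -/
lemma Dv.quad (A B E : Matrix m n k) : Dv (fun t : k => A + t • B + (t * t) • E) B := by
  refine ⟨A.map C + (X : k[X]) • B.map C + (X * X : k[X]) • E.map C, fun t => ?_, ?_⟩
  · ext i j
    show eval t (C (A i j) + X * C (B i j) + X * X * C (E i j)) = _
    rw [eval_add, eval_add, eval_mul, eval_mul, eval_mul, eval_C, eval_C, eval_C, eval_X]
    rfl
  · ext i j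
    show (C (A i j) + X * C (B i j) + X * X * C (E i j)).coeff 1 = B i j
    rw [coeff_add, coeff_add, coeff_C_succ, coeff_mul_C, coeff_X_one, coeff_mul_C,
      mul_coeff_one, coeff_X_zero, coeff_X_one]
    ring

/-- composition with a linear map -/
lemma Dv.lin {m' n' : Type*} [Fintype m] [Fintype n] [DecidableEq m] [DecidableEq n]
    (Λ : Matrix m n k →ₗ[k] Matrix m' n' k) {F : k → Matrix m n k} {d : Matrix m n k}
    (h : Dv F d) : Dv (fun t => Λ (F t)) (Λ d) := by
  obtain ⟨P, h1, rfl⟩ := h
  have hΛ : ∀ (A : Matrix m n k) (i : m') (j : n'),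
      Λ A i j = ∑ a, ∑ b, A a b * Λ (Matrix.single a b 1) i j := by
    intro A i j
    conv_lhs => rw [matrix_eq_sum_single A]
    rw [map_sum, Matrix.sum_apply]
    refine Finset.sum_congr rfl fun a _ => ?_
    rw [map_sum, Matrix.sum_apply]
    refine Finset.sum_congr rfl fun b _ => ?_
    have : Matrix.single a b (A a b) = A a b • Matrix.single a b (1 : k) := by
      rw [Matrix.smul_single, smul_eq_mul, mul_one]
    rw [this, map_smul, Matrix.smul_apply, smul_eq_mul]
  refine ⟨Matrix.of fun i j => ∑ a, ∑ b, P a b * C (Λ (Matrix.single a b 1) i j), fun t => ?_, ?_⟩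
  · beta_reduce
    rw [← h1]
    ext i j
    show eval t (∑ a, ∑ b, P a b * C (Λ (Matrix.single a b 1) i j)) = _
    rw [hΛ, eval_finset_sum]
    refine Finset.sum_congr rfl fun a _ => ?_
    rw [eval_finset_sum]
    refine Finset.sum_congr rfl fun b _ => ?_
    rw [eval_mul, eval_C]
    rfl
  · ext i j
    show (∑ a, ∑ b, P a b * C (Λ (Matrix.single a b 1) i j)).coeff 1 = _
    rw [hΛ, finset_sum_coeff]
    refine Finset.sum_congr rfl fun a _ => ?_
    rw [finset_sum_coeff]
    refine Finset.sum_congr rfl fun b _ => ?_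
    rw [coeff_mul_C]
    rfl

/-- a polynomial function whose derivative vanishes everywhere is constant -/
lemma Dv.const_of [CharZero k] {F : k → Matrix m n k} {d : Matrix m n k} (h : Dv F d)
    (h0 : ∀ t, Dv (fun u => F (t + u)) 0) (t : k) : F t = F 0 := by
  obtain ⟨P, h1, -⟩ := h
  ext i j
  have hd : derivative (P i j) = 0 := by
    apply Polynomial.funext
    intro t
    rw [eval_zero]
    have h2 : Dv (fun u => F (t + u)) (P.map fun p => eval t (derivative p)) := by
      refine ⟨P.map (fun p => p.comp (C t + X)), fun u => ?_, ?_⟩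
      · beta_reduce
        rw [← h1]
        ext i j
        show eval u ((P i j).comp (C t + X)) = eval (t + u) (P i j)
        rw [eval_comp, eval_add, eval_C, eval_X]
      · ext i j
        show ((P i j).comp (C t + X)).coeff 1 = eval t (derivative (P i j))
        have h3 : ((P i j).comp (C t + X)).coeff 1
            = eval 0 (derivative ((P i j).comp (C t + X))) := by
          rw [← coeff_zero_eq_eval_zero, coeff_derivative]
          simp
        rw [h3, derivative_comp, eval_mul, eval_comp]
        simp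
    have h4 := (h0 t).uniq h2
    have h5 := congrFun (congrFun h4 i) j
    exact h5.symm
  have h6 := natDegree_eq_zero_of_derivative_eq_zero hd
  have h7 := eq_C_of_natDegree_eq_zero h6
  have e1 : F t i j = eval t (P i j) := by rw [← h1 t]; rfl
  have e2 : F 0 i j = eval 0 (P i j) := by rw [← h1 0]; rfl
  rw [e1, e2, h7, eval_C, eval_C]

end Dv

end Pool.Agent.Helper14.RG.AU
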