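import Pool.Agent.Helper14.RG.AU.Inj

set_option autoImplicit false

/-!
# Facts about the Lie algebras: generalities and `sl_n`
-/

namespace Pool.Agent.Helper14.RG.AU

open Matrix Pool.Agent.Helper97.CG Pool.Agent.Helper14.RG

section Gen

variable {k : Type*} [Field k] [CharZero k] {n : ℕ} {J : Matrix (Fin n) (Fin n) k}
  {I : Submodule k (Matrix (Fin n) (Fin n) k)}

/-- a stable subspace is stable under the operations of root elements -/
lemma stab_root (hI : ∀ (g : IsoG J), ∀ X ∈ I, isoHom J g * X * isoHom J g⁻¹ ∈ I)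
    {X Y : Matrix (Fin n) (Fin n) k} (hX : X ∈ rt J) (hY : Y ∈ I) :
    X * Y - Y * X ∈ I ∧ X * Y * X ∈ I := by
  have h1 : ∀ t : k, Y + t • (X * Y - Y * X) - (t * t) • (X * Y * X) ∈ I := by
    intro t
    have h2 := hI (uni hX t) Y hY
    rw [uni_coe, uni_inv_coe] at h2
    have e1 : (1 + t • X) * Y * (1 + (-t) • X)
        = Y + t • (X * Y - Y * X) - (t * t) • (X * Y * X) := by
      rw [Matrix.add_mul, Matrix.one_mul, Matrix.mul_add, Matrix.mul_one, Matrix.add_mul,
        Matrix.smul_mul, Matrix.mul_smul, Matrix.smul_mul, Matrix.mul_smul, smul_smul, neg_smul,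
        mul_neg, neg_smul, smul_sub]
      abel
    rw [e1] at h2
    exact h2
  have h2 := I.sub_mem (h1 1) hY
  have h3 := I.sub_mem (h1 (-1)) hY
  rw [one_smul, one_mul, one_smul] at h2
  rw [neg_smul, one_smul, neg_mul_neg, one_mul, one_smul] at h3
  have h4 : X * Y - Y * X ∈ I := by
    have h5 := I.smul_mem (2⁻¹ : k) (I.sub_mem h2 h3)
    have e : (2⁻¹ : k) • ((Y + (X * Y - Y * X) - X * Y * X - Y)
        - (Y + -(X * Y - Y * X) - X * Y * X - Y)) = X * Y - Y * X := by
      have e2 : (Y + (X * Y - Y * X) - X * Y * X - Y) - (Y + -(X * Y - Y * X) - X * Y * X - Y)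
          = (2 : k) • (X * Y - Y * X) := by
        rw [two_smul]
        abel
      rw [e2, smul_smul, inv_mul_cancel₀ two_ne_zero, one_smul]
    rw [e] at h5
    exact h5
  refine ⟨h4, ?_⟩
  have h6 := I.sub_mem h4 h2
  have e3 : X * Y - Y * X - (Y + (X * Y - Y * X) - X * Y * X - Y) = X * Y * X := by abel
  rw [e3] at h6
  exact h6

/-- a stable subspace is an ideal -/
lemma stab_ideal (hsp : Spans J)
    (hI : ∀ (g : IsoG J), ∀ X ∈ I, isoHom J g * X * isoHom J g⁻¹ ∈ I)
    {X Y : Matrix (Fin n) (Fin n) k} (hX : X ∈ gJ J) (hY : Y ∈ I) : X * Y - Y * X ∈ I := by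
  have h := hsp hX
  induction h using Submodule.span_induction with
  | mem x hx => exact (stab_root hI hx hY).1
  | zero => rw [Matrix.zero_mul, Matrix.mul_zero, sub_zero]; exact I.zero_mem
  | add x y h1 h2 hx hy =>
    have hr : Submodule.span k (rt J) ≤ gJ J := Submodule.span_le.mpr fun x hx => hx.1
    have e : (x + y) * Y - Y * (x + y) = (x * Y - Y * x) + (y * Y - Y * y) := by
      rw [Matrix.add_mul, Matrix.mul_add]
      abel
    rw [e]
    exact I.add_mem (hx (hr h1)) (hy (hr h2))
  | smul a x h1 hx =>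
    have hr : Submodule.span k (rt J) ≤ gJ J := Submodule.span_le.mpr fun x hx => hx.1
    have e : (a • x) * Y - Y * (a • x) = a • (x * Y - Y * x) := by
      rw [Matrix.smul_mul, Matrix.mul_smul, smul_sub]
    rw [e]
    exact I.smul_mem a (hx (hr h1))

end Gen

section SL

variable {k : Type*} [Field k] {n : ℕ}

lemma mem_gJ_zero {X : Matrix (Fin n) (Fin n) k} :
    X ∈ gJ (0 : Matrix (Fin n) (Fin n) k) ↔ X.trace = 0 := by
  rw [mem_gJ, Matrix.mul_zero, Matrix.zero_mul, add_zero]
  exact ⟨fun h => h.2, fun h => ⟨rfl, h⟩⟩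

lemma single_mem_rt {i j : Fin n} (hij : i ≠ j) (c : k) :
    (single i j c : Matrix (Fin n) (Fin n) k) ∈ rt (0 : Matrix (Fin n) (Fin n) k) := by
  refine ⟨mem_gJ_zero.mpr ?_, ?_⟩
  · rw [Matrix.trace_single_eq_of_ne _ _ _ hij]
  · rw [Matrix.single_mul_single_of_ne _ _ _ _ hij.symm]

lemma diag_mem_span {i j : Fin n} (hij : i ≠ j) :
    (single i i 1 - single j j 1 : Matrix (Fin n) (Fin n) k) ∈
      Submodule.span k (rt (0 : Matrix (Fin n) (Fin n) k)) := by
  have h1 : (single i i 1 - single j j 1 + single i j 1 - single j i 1 :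
      Matrix (Fin n) (Fin n) k) ∈ rt (0 : Matrix (Fin n) (Fin n) k) := by
    refine ⟨mem_gJ_zero.mpr ?_, ?_⟩
    · rw [Matrix.trace_sub, Matrix.trace_add, Matrix.trace_sub, Matrix.trace_single_eq_same,
        Matrix.trace_single_eq_same, Matrix.trace_single_eq_of_ne _ _ _ hij,
        Matrix.trace_single_eq_of_ne _ _ _ hij.symm]
      ring
    · simp only [Matrix.add_mul, Matrix.sub_mul, Matrix.mul_add, Matrix.mul_sub,
        Matrix.single_mul_single_same, Matrix.single_mul_single_of_ne _ _ _ _ hij,
        Matrix.single_mul_single_of_ne _ _ _ _ hij.symm, mul_one]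
      abel
  have e : (single i i 1 - single j j 1 : Matrix (Fin n) (Fin n) k)
      = (single i i 1 - single j j 1 + single i j 1 - single j i 1)
        - single i j 1 + single j i 1 := by abel
  rw [e]
  exact Submodule.add_mem _ (Submodule.sub_mem _ (Submodule.subset_span h1)
    (Submodule.subset_span (single_mem_rt hij 1))) (Submodule.subset_span (single_mem_rt hij.symm 1))

lemma sl_le (P : Submodule k (Matrix (Fin n) (Fin n) k))
    (hP1 : ∀ i j : Fin n, i ≠ j → (single i j (1 : k) : Matrix (Fin n) (Fin n) k) ∈ P)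
    (hP2 : ∀ i j : Fin n, i ≠ j → (single i i 1 - single j j 1 : Matrix (Fin n) (Fin n) k) ∈ P) :
    gJ (0 : Matrix (Fin n) (Fin n) k) ≤ P := by
  intro X hX
  have htr := mem_gJ_zero.mp hX
  rcases Nat.eq_zero_or_pos n with h0 | h0
  · subst h0
    have : X = 0 := Subsingleton.elim _ _
    rw [this]
    exact Submodule.zero_mem _
  let i0 : Fin n := ⟨0, h0⟩
  have h1 : X = ∑ i, ∑ j, (if i = j then X i i • (single i i 1 - single i0 i0 1)
      else single i j (X i j)) := by
    have h2 : ∑ i : Fin n, X i i • (single i0 i0 (1 : k) : Matrix (Fin n) (Fin n) k) = 0 := by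
      rw [← Finset.sum_smul]
      have : ∑ i, X i i = 0 := htr
      rw [this, zero_smul]
    have h3 : ∑ i, ∑ j, (if i = j then X i i • (single i i 1 - single i0 i0 1)
        else single i j (X i j) : Matrix (Fin n) (Fin n) k)
        = ∑ i, ∑ j, (single i j (X i j) : Matrix (Fin n) (Fin n) k)
          - ∑ i : Fin n, X i i • (single i0 i0 (1 : k) : Matrix (Fin n) (Fin n) k) := by
      rw [← Finset.sum_sub_distrib]
      refine Finset.sum_congr rfl fun i _ => ?_
      have h4 : ∀ j, (if i = j then X i i • (single i i 1 - single i0 i0 1)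
          else single i j (X i j) : Matrix (Fin n) (Fin n) k)
          = single i j (X i j) - (if i = j then X i i • single i0 i0 (1 : k) else 0) := by
        intro j
        by_cases hij : i = j
        · subst hij
          rw [if_pos rfl, if_pos rfl, smul_sub, Matrix.smul_single, smul_eq_mul, mul_one]
        · rw [if_neg hij, if_neg hij, sub_zero]
      rw [Finset.sum_congr rfl (fun j _ => h4 j), Finset.sum_sub_distrib, Finset.sum_ite_eq,
        if_pos (Finset.mem_univ _)]
    rw [h3, h2, sub_zero]
    exact matrix_eq_sum_single X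
  rw [h1]
  refine Submodule.sum_mem _ fun i _ => Submodule.sum_mem _ fun j _ => ?_
  by_cases hij : i = j
  · rw [if_pos hij]
    by_cases hi0 : i = i0
    · rw [hi0, sub_self, smul_zero]
      exact Submodule.zero_mem _
    · exact Submodule.smul_mem _ _ (hP2 _ _ hi0)
  · rw [if_neg hij]
    have e : (single i j (X i j) : Matrix (Fin n) (Fin n) k) = X i j • single i j (1 : k) := by
      rw [Matrix.smul_single, smul_eq_mul, mul_one]
    rw [e]
    exact Submodule.smul_mem _ _ (hP1 _ _ hij)

theorem spans_zero : Spans (0 : Matrix (Fin n) (Fin n) k) :=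
  sl_le _ (fun _ _ hij => Submodule.subset_span (single_mem_rt hij 1))
    (fun _ _ hij => diag_mem_span hij)

lemma lc_zero (M : Matrix (Fin n) (Fin n) k)
    (h : ∀ X ∈ gJ (0 : Matrix (Fin n) (Fin n) k), M * X = X * M) :
    ∃ c : k, M = c • (1 : Matrix (Fin n) (Fin n) k) := by
  have h1 : M ∈ Set.range (Matrix.scalar (Fin n)) := by
    rw [Matrix.mem_range_scalar_iff_commute_single]
    intro i j hij
    exact (h _ (single_mem_rt hij 1).1).symm
  obtain ⟨c, hc⟩ := h1
  refine ⟨c, ?_⟩
  rw [← hc, Matrix.smul_one_eq_diagonal]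
  rfl

lemma gc_zero [Infinite k] (M : Matrix (Fin n) (Fin n) k)
    (h : ∀ g : IsoG (0 : Matrix (Fin n) (Fin n) k), M * isoHom _ g = isoHom _ g * M) :
    ∃ c : k, M = c • (1 : Matrix (Fin n) (Fin n) k) := by
  refine lc_zero M fun X hX => ?_
  have h1 := spans_zero hX
  induction h1 using Submodule.span_induction with
  | mem x hx =>
    have h2 := h (uni hx 1)
    rw [uni_coe, one_smul, Matrix.mul_add, Matrix.add_mul, Matrix.mul_one, Matrix.one_mul] at h2
    exact add_left_cancel h2
  | zero => rw [Matrix.zero_mul, Matrix.mul_zero]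
  | add x y h1 h2 hx hy =>
    have hr : Submodule.span k (rt (0 : Matrix (Fin n) (Fin n) k)) ≤ gJ 0 :=
      Submodule.span_le.mpr fun x hx => hx.1
    rw [Matrix.mul_add, Matrix.add_mul, hx (hr h1), hy (hr h2)]
  | smul a x h1 hx =>
    have hr : Submodule.span k (rt (0 : Matrix (Fin n) (Fin n) k)) ≤ gJ 0 :=
      Submodule.span_le.mpr fun x hx => hx.1
    rw [Matrix.mul_smul, Matrix.smul_mul, hx (hr h1)]

variable [CharZero k]

lemma sl_sim (I : Submodule k (Matrix (Fin n) (Fin n) k))
    (hle : I ≤ gJ (0 : Matrix (Fin n) (Fin n) k))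
    (hI : ∀ (g : IsoG (0 : Matrix (Fin n) (Fin n) k)), ∀ X ∈ I,
      isoHom _ g * X * isoHom _ g⁻¹ ∈ I) : I = ⊥ ∨ I = gJ (0 : Matrix (Fin n) (Fin n) k) := by
  by_cases hbot : I = ⊥
  · exact Or.inl hbot
  right
  have hid : ∀ X ∈ gJ (0 : Matrix (Fin n) (Fin n) k), ∀ Y ∈ I, X * Y - Y * X ∈ I :=
    fun X hX Y hY => stab_ideal spans_zero hI hX hY
  -- a first matrix unit
  have h1 : ∃ i j : Fin n, i ≠ j ∧ (single i j (1 : k) : Matrix (Fin n) (Fin n) k) ∈ I := by
    obtain ⟨Y, hY, hY0⟩ := Submodule.exists_mem_ne_zero_of_ne_bot hbot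
    by_cases hoff : ∃ i j : Fin n, i ≠ j ∧ Y j i ≠ 0
    · obtain ⟨i, j, hij, hne⟩ := hoff
      refine ⟨i, j, hij, ?_⟩
      have h2 := (stab_root hI (single_mem_rt hij (1 : k)) hY).2
      have e : (single i j (1 : k) : Matrix (Fin n) (Fin n) k) * Y * single i j 1
          = Y j i • single i j 1 := by
        rw [Matrix.single_mul_mul_single, Matrix.smul_single, smul_eq_mul, mul_one, one_mul,
          mul_one]
      rw [e] at h2
      have h3 := I.smul_mem (Y j i)⁻¹ h2
      rw [smul_smul, inv_mul_cancel₀ hne, one_smul] at h3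
      exact h3
    · push Not at hoff
      -- `Y` is diagonal
      have hdiag : ∃ i j : Fin n, Y i i ≠ Y j j := by
        by_contra hcon
        push Not at hcon
        apply hY0
        rcases Nat.eq_zero_or_pos n with h0 | h0
        · subst h0
          exact Subsingleton.elim _ _
        let i0 : Fin n := ⟨0, h0⟩
        refine scalar_traceless ?_ (mem_gJ_zero.mp (hle hY)) (c := Y i0 i0)
        ext a b
        rw [Matrix.smul_apply, smul_eq_mul]
        by_cases hab : a = b
        · subst hab
          rw [Matrix.one_apply_eq, mul_one, hcon a i0]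
        · rw [Matrix.one_apply_ne hab, mul_zero]
          exact hoff b a (Ne.symm hab)
      obtain ⟨i, j, hne⟩ := hdiag
      have hij : i ≠ j := by
        rintro rfl
        exact hne rfl
      refine ⟨i, j, hij, ?_⟩
      have h2 := (stab_root hI (single_mem_rt hij (1 : k)) hY).1
      have e : (single i j (1 : k) : Matrix (Fin n) (Fin n) k) * Y - Y * single i j 1
          = (Y j j - Y i i) • single i j 1 := by
        ext a b
        rw [Matrix.sub_apply, Matrix.smul_apply, Matrix.mul_apply, Matrix.mul_apply]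
        rw [Finset.sum_eq_single j, Finset.sum_eq_single i]
        · by_cases ha : a = i
          · subst ha
            by_cases hb : b = j
            · subst hb
              simp [Matrix.single_apply]
            · simp [Matrix.single_apply, Ne.symm hb, hoff b j hb]
          · by_cases hb : b = j
            · subst hb
              simp [Matrix.single_apply, Ne.symm ha, hoff i a (Ne.symm ha)]
            · simp [Matrix.single_apply, Ne.symm ha, Ne.symm hb]
        · intro c _ hc
          simp [Matrix.single_apply, hc.symm]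
        · intro h; exact absurd (Finset.mem_univ _) h
        · intro c _ hc
          simp [Matrix.single_apply, hc.symm]
        · intro h; exact absurd (Finset.mem_univ _) h
      rw [e] at h2
      have h3 := I.smul_mem (Y j j - Y i i)⁻¹ h2
      rw [smul_smul, inv_mul_cancel₀ (sub_ne_zero.mpr hne.symm), one_smul] at h3
      exact h3
  obtain ⟨i, j, hij, hE⟩ := h1
  have key : ∀ a b : Fin n, a ≠ b → ∀ Y ∈ I,
      (single a b (1 : k) : Matrix (Fin n) (Fin n) k) * Y - Y * single a b 1 ∈ I :=
    fun a b hab Y hY => hid _ (single_mem_rt hab (1 : k)).1 Y hY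
  have s1 : ∀ a, a ≠ j → (single a j (1 : k) : Matrix (Fin n) (Fin n) k) ∈ I := by
    intro a ha
    by_cases hai : a = i
    · rw [hai]; exact hE
    · have h2 := key a i hai _ hE
      rw [Matrix.single_mul_single_same, Matrix.single_mul_single_of_ne _ _ _ _ (Ne.symm ha),
        sub_zero, mul_one] at h2
      exact h2
  have s2 : ∀ b, b ≠ i → (single i b (1 : k) : Matrix (Fin n) (Fin n) k) ∈ I := by
    intro b hb
    by_cases hbj : b = j
    · rw [hbj]; exact hE
    · have h2 := key j b (Ne.symm hbj) _ hE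
      rw [Matrix.single_mul_single_same, Matrix.single_mul_single_of_ne _ _ _ _ hb,
        zero_sub, mul_one] at h2
      exact I.neg_mem_iff.mp h2
  have s3 : ∀ a b, a ≠ b → (single a b (1 : k) : Matrix (Fin n) (Fin n) k) ∈ I := by
    intro a b hab
    by_cases haj : a = j
    · subst haj
      by_cases hbi : b = i
      · subst hbi
        have h2 := (stab_root hI (single_mem_rt hab (1 : k)) hE).2
        rw [Matrix.single_mul_single_same, Matrix.single_mul_single_same, mul_one, mul_one] at h2
        exact h2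
      · have h2 := key a i (Ne.symm hij) _ (s2 b hbi)
        rw [Matrix.single_mul_single_same, Matrix.single_mul_single_of_ne _ _ _ _ (Ne.symm hab),
          sub_zero, mul_one] at h2
        exact h2
    · by_cases hbj : b = j
      · subst hbj
        exact s1 a haj
      · have h2 := key j b (Ne.symm hbj) _ (s1 a haj)
        rw [Matrix.single_mul_single_same, Matrix.single_mul_single_of_ne _ _ _ _ (Ne.symm hab),
          zero_sub, mul_one] at h2
        exact I.neg_mem_iff.mp h2
  refine le_antisymm hle (sl_le I s3 fun a b hab => ?_)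
  have h2 := key a b hab _ (s3 b a (Ne.symm hab))
  rw [Matrix.single_mul_single_same, Matrix.single_mul_single_same, mul_one] at h2
  exact h2

theorem lf_zero [IsAlgClosed k] : LF (0 : Matrix (Fin n) (Fin n) k) where
  typ := Or.inl rfl
  irr := irr_zero
  gc := gc_zero
  lc := lc_zero
  span := spans_zero
  sim := sl_sim

end SL

end Pool.Agent.Helper14.RG.AU
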