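import Pool.Agent.Helper14.RG.AU.FacC

set_option autoImplicit false

/-!
# Facts about the Lie algebra `so_n`
-/

namespace Pool.Agent.Helper14.RG.AU

open Matrix Pool.Agent.Helper97.CG Pool.Agent.Helper14.RG

section So

variable {k : Type*} [Field k] {n : ℕ}

/-- `u ∧ v` -/
def TT (u v : Fin n → k) : Matrix (Fin n) (Fin n) k := vecMulVec u v - vecMulVec v u

/-- basis vectors -/
def ev (k : Type*) [Field k] {n : ℕ} (a : Fin n) : Fin n → k := Pi.single a 1

lemma TT_add_left (u u' v : Fin n → k) : TT (u + u') v = TT u v + TT u' v := by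
  unfold TT
  rw [Matrix.add_vecMulVec, Matrix.vecMulVec_add]
  abel

lemma TT_swap (u v : Fin n → k) : TT u v = -TT v u := by
  unfold TT
  rw [neg_sub]

lemma TT_add_right (u v v' : Fin n → k) : TT u (v + v') = TT u v + TT u v' := by
  rw [TT_swap, TT_add_left, neg_add, ← TT_swap, ← TT_swap]

lemma TT_smul_left (c : k) (u v : Fin n → k) : TT (c • u) v = c • TT u v := by
  unfold TT
  rw [Matrix.smul_vecMulVec, Matrix.vecMulVec_smul, smul_sub]

lemma TT_smul_right (c : k) (u v : Fin n → k) : TT u (c • v) = c • TT u v := by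
  rw [TT_swap, TT_smul_left, ← smul_neg, ← TT_swap]

lemma TT_self (u : Fin n → k) : TT u u = 0 := sub_self _

lemma TT_zero_left (v : Fin n → k) : TT 0 v = 0 := by
  unfold TT
  rw [Matrix.zero_vecMulVec, Matrix.vecMulVec_zero, sub_zero]

lemma TT_transpose (u v : Fin n → k) : (TT u v)ᵀ = -TT u v := by
  unfold TT
  rw [transpose_sub, vmv_transpose, vmv_transpose, neg_sub]

lemma TT_trace (u v : Fin n → k) : (TT u v).trace = 0 := by
  unfold TT
  rw [Matrix.trace_sub, trace_vmv, trace_vmv, dotProduct_comm, sub_self]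

lemma mem_gJ_one {X : Matrix (Fin n) (Fin n) k} :
    X ∈ gJ (1 : Matrix (Fin n) (Fin n) k) ↔ Xᵀ = -X ∧ X.trace = 0 := by
  rw [mem_gJ, Matrix.mul_one, Matrix.one_mul]
  constructor
  · rintro ⟨h1, h2⟩
    exact ⟨eq_neg_of_add_eq_zero_left h1, h2⟩
  · rintro ⟨h1, h2⟩
    exact ⟨by rw [h1, neg_add_cancel], h2⟩

lemma TT_mem (u v : Fin n → k) : TT u v ∈ gJ (1 : Matrix (Fin n) (Fin n) k) :=
  mem_gJ_one.mpr ⟨TT_transpose u v, TT_trace u v⟩

lemma TT_mul_mul {Y : Matrix (Fin n) (Fin n) k} (hY : Yᵀ = -Y) [CharZero k] (u v : Fin n → k) :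
    TT u v * Y * TT u v = (v ⬝ᵥ (Y *ᵥ u)) • TT u v := by
  have h1 : ∀ w : Fin n → k, w ⬝ᵥ (Y *ᵥ w) = 0 := fun w => form_self hY w
  have h2 : u ⬝ᵥ (Y *ᵥ v) = -(v ⬝ᵥ (Y *ᵥ u)) := by
    rw [form_swap (η := (-1 : k)) (by rw [hY, neg_one_smul]) u v, neg_one_mul]
  unfold TT
  rw [Matrix.sub_mul, Matrix.sub_mul, Matrix.mul_sub, Matrix.mul_sub, vmv_mul_mul, vmv_mul_mul,
    vmv_mul_mul, vmv_mul_mul, h1, h1, h2, zero_smul, zero_smul, neg_smul, smul_sub]
  abel

lemma TT_root {u v : Fin n → k} (huu : u ⬝ᵥ u = 0) (huv : u ⬝ᵥ v = 0) (hvv : v ⬝ᵥ v = 0) :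
    TT u v ∈ rt (1 : Matrix (Fin n) (Fin n) k) := by
  refine ⟨TT_mem u v, ?_⟩
  have hvu : v ⬝ᵥ u = 0 := by rw [dotProduct_comm]; exact huv
  unfold TT
  rw [Matrix.sub_mul, Matrix.mul_sub, Matrix.mul_sub, Matrix.vecMulVec_mul_vecMulVec,
    Matrix.vecMulVec_mul_vecMulVec, Matrix.vecMulVec_mul_vecMulVec,
    Matrix.vecMulVec_mul_vecMulVec, huu, huv, hvv, hvu]
  simp

lemma TT_bracket {X : Matrix (Fin n) (Fin n) k} (hX : Xᵀ = -X) (u v : Fin n → k) :
    X * TT u v - TT u v * X = TT (X *ᵥ u) v + TT u (X *ᵥ v) := by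
  have h1 : ∀ w : Fin n → k, w ᵥ* X = -(X *ᵥ w) := by
    intro w
    rw [← Matrix.mulVec_transpose, hX, Matrix.neg_mulVec]
  unfold TT
  rw [Matrix.mul_sub, Matrix.sub_mul, Matrix.mul_vecMulVec, Matrix.mul_vecMulVec,
    Matrix.vecMulVec_mul, Matrix.vecMulVec_mul, h1, h1, Matrix.vecMulVec_neg,
    Matrix.vecMulVec_neg]
  abel

lemma TT_mulVec (u v w : Fin n → k) : TT u v *ᵥ w = (v ⬝ᵥ w) • u - (u ⬝ᵥ w) • v := by
  unfold TT
  rw [Matrix.sub_mulVec, Matrix.vecMulVec_mulVec, Matrix.vecMulVec_mulVec]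
  simp

lemma ev_dot_same (a : Fin n) : ev k a ⬝ᵥ ev k a = 1 := by
  unfold ev
  rw [single_one_dotProduct, Pi.single_eq_same]

lemma ev_dot_ne {a b : Fin n} (h : a ≠ b) : ev k a ⬝ᵥ ev k b = 0 := by
  unfold ev
  rw [single_one_dotProduct, Pi.single_eq_of_ne h]

lemma TT_ev_apply (a b : Fin n) : TT (ev k a) (ev k b) = single a b 1 - single b a 1 := by
  unfold TT ev
  rw [Matrix.single_eq_single_vecMulVec_single, Matrix.single_eq_single_vecMulVec_single]

lemma so_le [CharZero k] (P : Submodule k (Matrix (Fin n) (Fin n) k))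
    (hP : ∀ a b : Fin n, a ≠ b → TT (ev k a) (ev k b) ∈ P) :
    gJ (1 : Matrix (Fin n) (Fin n) k) ≤ P := by
  intro X hX
  have hXt := (mem_gJ_one.mp hX).1
  have h1 : X = ∑ i, ∑ j, ((2 : k)⁻¹ * X i j) • TT (ev k i) (ev k j) := by
    have e1 : X = ∑ i, ∑ j, single i j (X i j) := matrix_eq_sum_single X
    have e2 : Xᵀ = ∑ i, ∑ j, single j i (X i j) := by
      rw [matrix_eq_sum_single Xᵀ, Finset.sum_comm]
      rfl
    have e3 : (2 : k)⁻¹ • X - (2 : k)⁻¹ • Xᵀ
        = (2 : k)⁻¹ • (∑ i, ∑ j, single i j (X i j))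
          - (2 : k)⁻¹ • (∑ i, ∑ j, single j i (X i j)) := by
      rw [← e2, ← e1]
    have e4 : (2 : k)⁻¹ • X - (2 : k)⁻¹ • Xᵀ = X := by
      rw [hXt, smul_neg, sub_neg_eq_add, ← add_smul]
      have : (2 : k)⁻¹ + 2⁻¹ = 1 := by norm_num
      rw [this, one_smul]
    refine e4.symm.trans (e3.trans ?_)
    rw [Finset.smul_sum, Finset.smul_sum, ← Finset.sum_sub_distrib]
    refine Finset.sum_congr rfl fun i _ => ?_
    rw [Finset.smul_sum, Finset.smul_sum, ← Finset.sum_sub_distrib]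
    refine Finset.sum_congr rfl fun j _ => ?_
    rw [TT_ev_apply, smul_sub, Matrix.smul_single, Matrix.smul_single, Matrix.smul_single,
      Matrix.smul_single, smul_eq_mul, smul_eq_mul, mul_one]
  rw [h1]
  refine Submodule.sum_mem _ fun i _ => Submodule.sum_mem _ fun j _ => Submodule.smul_mem _ _ ?_
  by_cases hij : i = j
  · rw [hij, TT_self]
    exact Submodule.zero_mem _
  · exact hP i j hij

lemma exists_avoid {n : ℕ} (S : Finset (Fin n)) (h : S.card < n) : ∃ b, b ∉ S := by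
  by_contra hcon
  push Not at hcon
  have h1 : (Finset.univ : Finset (Fin n)) ⊆ S := fun x _ => hcon x
  have h2 := Finset.card_le_card h1
  rw [Finset.card_univ, Fintype.card_fin] at h2
  omega

/-- isotropic vectors `e_a + s i e_b` -/
def iv (i0 : k) (a b : Fin n) (s : k) : Fin n → k := ev k a + (s * i0) • ev k b

lemma iv_self {i0 : k} (hi : i0 * i0 = -1) {a b : Fin n} (hab : a ≠ b) {s : k} (hs : s * s = 1) :
    iv i0 a b s ⬝ᵥ iv i0 a b s = 0 := by
  unfold iv
  rw [add_dotProduct, dotProduct_add, dotProduct_add, smul_dotProduct, smul_dotProduct,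
    dotProduct_smul, dotProduct_smul, ev_dot_same, ev_dot_same, ev_dot_ne hab,
    ev_dot_ne hab.symm]
  simp only [smul_eq_mul]
  linear_combination (s * s) * hi + (-1 : k) * hs

lemma iv_orth {i0 : k} {a b c d : Fin n} (hac : a ≠ c) (had : a ≠ d) (hbc : b ≠ c) (hbd : b ≠ d)
    (s t : k) : iv i0 a b s ⬝ᵥ iv i0 c d t = 0 := by
  unfold iv
  rw [add_dotProduct, dotProduct_add, dotProduct_add, smul_dotProduct, smul_dotProduct,
    dotProduct_smul, dotProduct_smul, ev_dot_ne hac, ev_dot_ne had, ev_dot_ne hbc,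
    ev_dot_ne hbd]
  simp

lemma iv_root {i0 : k} (hi : i0 * i0 = -1) {a b c d : Fin n} (hab : a ≠ b) (hcd : c ≠ d)
    (hac : a ≠ c) (had : a ≠ d) (hbc : b ≠ c) (hbd : b ≠ d) {s t : k} (hs : s * s = 1)
    (ht : t * t = 1) : TT (iv i0 a b s) (iv i0 c d t) ∈ rt (1 : Matrix (Fin n) (Fin n) k) :=
  TT_root (iv_self hi hab hs) (iv_orth hac had hbc hbd s t) (iv_self hi hcd ht)

lemma iv_sum [CharZero k] (i0 : k) (a b c d : Fin n) : TT (ev k a) (ev k c) = (4 : k)⁻¹ •
    (TT (iv i0 a b 1) (iv i0 c d 1) + TT (iv i0 a b 1) (iv i0 c d (-1))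
      + (TT (iv i0 a b (-1)) (iv i0 c d 1) + TT (iv i0 a b (-1)) (iv i0 c d (-1)))) := by
  have h1 : ∀ c d : Fin n, iv i0 c d 1 + iv i0 c d (-1) = (2 : k) • ev k c := by
    intro c d
    unfold iv
    rw [one_mul, neg_mul, one_mul, neg_smul, two_smul]
    abel
  rw [← TT_add_right, ← TT_add_right, ← TT_add_left, h1, h1, TT_smul_left, TT_smul_right,
    smul_smul, smul_smul]
  have : (4 : k)⁻¹ * 2 * 2 = 1 := by norm_num
  rw [this, one_smul]

theorem so_spans [IsAlgClosed k] [CharZero k] (hn : 4 ≤ n) :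
    Spans (1 : Matrix (Fin n) (Fin n) k) := by
  obtain ⟨i0, hi⟩ := IsAlgClosed.exists_pow_nat_eq (-1 : k) (n := 2) (by norm_num)
  rw [pow_two] at hi
  refine so_le _ fun a c hac => ?_
  obtain ⟨b, hb⟩ := exists_avoid ({a, c} : Finset (Fin n)) (by
    have := Finset.card_le_two (a := a) (b := c); omega)
  obtain ⟨d, hd⟩ := exists_avoid ({a, b, c} : Finset (Fin n)) (by
    have := Finset.card_le_three (a := a) (b := b) (c := c); omega)
  simp only [Finset.mem_insert, Finset.mem_singleton, not_or] at hb hd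
  have hm1 : (-1 : k) * (-1) = 1 := by norm_num
  have hroot : ∀ s t : k, s * s = 1 → t * t = 1 → TT (iv i0 a b s) (iv i0 c d t) ∈
      Submodule.span k (rt (1 : Matrix (Fin n) (Fin n) k)) := fun s t hs ht =>
    Submodule.subset_span (iv_root hi (Ne.symm hb.1) (Ne.symm hd.2.2) hac (Ne.symm hd.1) hb.2
      (Ne.symm hd.2.1) hs ht)
  rw [iv_sum i0 a b c d]
  refine Submodule.smul_mem _ _ (Submodule.add_mem _ (Submodule.add_mem _ ?_ ?_)
    (Submodule.add_mem _ ?_ ?_))
  · exact hroot 1 1 (one_mul 1) (one_mul 1)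
  · exact hroot 1 (-1) (one_mul 1) hm1
  · exact hroot (-1) 1 hm1 (one_mul 1)
  · exact hroot (-1) (-1) hm1 hm1

lemma so_lc (hn : 3 ≤ n) (M : Matrix (Fin n) (Fin n) k)
    (h : ∀ X ∈ gJ (1 : Matrix (Fin n) (Fin n) k), M * X = X * M) :
    ∃ c : k, M = c • (1 : Matrix (Fin n) (Fin n) k) := by
  have hF : ∀ a b : Fin n, M * (single a b 1 - single b a 1)
      = (single a b 1 - single b a 1) * M := by
    intro a b
    rw [← TT_ev_apply]
    exact h _ (TT_mem _ _)
  have h1 : ∀ a b : Fin n, M a a = M b b := by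
    intro a b
    by_cases hab : a = b
    · rw [hab]
    · have h2 := congrFun (congrFun (hF a b) a) b
      rw [Matrix.mul_sub, Matrix.sub_mul, Matrix.sub_apply, Matrix.sub_apply,
        Matrix.mul_single_apply_same, Matrix.single_mul_apply_same,
        Matrix.mul_single_apply_of_ne _ _ _ _ _ (Ne.symm hab),
        Matrix.single_mul_apply_of_ne _ _ _ _ _ hab, sub_zero, sub_zero, mul_one, one_mul] at h2
      exact h2
  have h2 : ∀ x a : Fin n, x ≠ a → M x a = 0 := by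
    intro x a hxa
    obtain ⟨b, hb⟩ := exists_avoid ({x, a} : Finset (Fin n)) (by
      have := Finset.card_le_two (a := x) (b := a); omega)
    simp only [Finset.mem_insert, Finset.mem_singleton, not_or] at hb
    have h3 := congrFun (congrFun (hF a b) x) b
    rw [Matrix.mul_sub, Matrix.sub_mul, Matrix.sub_apply, Matrix.sub_apply,
      Matrix.mul_single_apply_same, Matrix.single_mul_apply_of_ne _ _ _ _ _ hxa,
      Matrix.mul_single_apply_of_ne _ _ _ _ _ hb.2,
      Matrix.single_mul_apply_of_ne _ _ _ _ _ (Ne.symm hb.1), sub_zero, sub_zero, mul_one] at h3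
    exact h3
  let i0 : Fin n := ⟨0, by omega⟩
  refine ⟨M i0 i0, ?_⟩
  ext a b
  rw [Matrix.smul_apply, smul_eq_mul]
  by_cases hab : a = b
  · subst hab
    rw [Matrix.one_apply_eq, mul_one]
    exact h1 a i0
  · rw [Matrix.one_apply_ne hab, mul_zero]
    exact h2 a b hab

theorem so_sim [IsAlgClosed k] [CharZero k] (hn : 5 ≤ n)
    (I : Submodule k (Matrix (Fin n) (Fin n) k)) (hle : I ≤ gJ (1 : Matrix (Fin n) (Fin n) k))
    (hI : ∀ (g : IsoG (1 : Matrix (Fin n) (Fin n) k)), ∀ X ∈ I,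
      isoHom _ g * X * isoHom _ g⁻¹ ∈ I) : I = ⊥ ∨ I = gJ (1 : Matrix (Fin n) (Fin n) k) := by
  by_cases hbot : I = ⊥
  · exact Or.inl hbot
  right
  obtain ⟨i0, hi⟩ := IsAlgClosed.exists_pow_nat_eq (-1 : k) (n := 2) (by norm_num)
  rw [pow_two] at hi
  have hm1 : (-1 : k) * (-1) = 1 := by norm_num
  obtain ⟨Y, hY, hY0⟩ := Submodule.exists_mem_ne_zero_of_ne_bot hbot
  have hYt := (mem_gJ_one.mp (hle hY)).1
  obtain ⟨c, a, hca⟩ : ∃ c a, Y c a ≠ 0 := by
    by_contra hcon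
    push Not at hcon
    exact hY0 (Matrix.ext hcon)
  have hne : a ≠ c := by
    rintro rfl
    have h1 := congrFun (congrFun hYt a) a
    have h2 : Y a a = -Y a a := h1
    have h3 : (2 : k) * Y a a = 0 := by linear_combination h2
    exact hca ((mul_eq_zero.mp h3).resolve_left two_ne_zero)
  obtain ⟨b, hb⟩ := exists_avoid ({a, c} : Finset (Fin n)) (by
    have := Finset.card_le_two (a := a) (b := c); omega)
  obtain ⟨d, hd⟩ := exists_avoid ({a, b, c} : Finset (Fin n)) (by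
    have := Finset.card_le_three (a := a) (b := b) (c := c); omega)
  obtain ⟨e, he⟩ := exists_avoid ({a, b, c, d} : Finset (Fin n)) (by
    have := Finset.card_le_four (a := a) (b := b) (c := c) (d := d); omega)
  simp only [Finset.mem_insert, Finset.mem_singleton, not_or] at hb hd he
  have hid : ∀ X ∈ gJ (1 : Matrix (Fin n) (Fin n) k), ∀ Z ∈ I, X * Z - Z * X ∈ I :=
    fun X hX Z hZ => stab_ideal (so_spans (by omega)) hI hX hZ
  -- a root element in `I`
  obtain ⟨s, t, hs, ht, hR⟩ : ∃ s t : k, s * s = 1 ∧ t * t = 1 ∧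
      TT (iv i0 a b s) (iv i0 c d t) ∈ I := by
    have key : ∀ s t : k, s * s = 1 → t * t = 1 → iv i0 c d t ⬝ᵥ (Y *ᵥ iv i0 a b s) ≠ 0 →
        TT (iv i0 a b s) (iv i0 c d t) ∈ I := by
      intro s t hs ht hne0
      have hroot := iv_root hi (Ne.symm hb.1) (Ne.symm hd.2.2) hne (Ne.symm hd.1) hb.2
        (Ne.symm hd.2.1) hs ht
      have h1 := (stab_root hI hroot hY).2
      rw [TT_mul_mul hYt] at h1
      have h2 := I.smul_mem (iv i0 c d t ⬝ᵥ (Y *ᵥ iv i0 a b s))⁻¹ h1
      rw [smul_smul, inv_mul_cancel₀ hne0, one_smul] at h2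
      exact h2
    by_contra hcon
    push Not at hcon
    have hz : ∀ s t : k, s * s = 1 → t * t = 1 → iv i0 c d t ⬝ᵥ (Y *ᵥ iv i0 a b s) = 0 := by
      intro s t hs ht
      by_contra h0
      exact hcon s t hs ht (key s t hs ht h0)
    apply hca
    have h1 : ∀ c d : Fin n, iv i0 c d 1 + iv i0 c d (-1) = (2 : k) • ev k c := by
      intro c d
      unfold iv
      rw [one_mul, neg_mul, one_mul, neg_smul, two_smul]
      abel
    have h2 : ((2 : k) • ev k c) ⬝ᵥ (Y *ᵥ ((2 : k) • ev k a)) = 0 := by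
      rw [← h1 c d, ← h1 a b, Matrix.mulVec_add, add_dotProduct, dotProduct_add, dotProduct_add,
        hz 1 1 (one_mul 1) (one_mul 1), hz (-1) 1 hm1 (one_mul 1), hz 1 (-1) (one_mul 1) hm1,
        hz (-1) (-1) hm1 hm1]
      ring
    rw [Matrix.mulVec_smul, smul_dotProduct, dotProduct_smul] at h2
    have h3 : ev k c ⬝ᵥ (Y *ᵥ ev k a) = Y c a := by
      unfold ev
      rw [single_one_dotProduct, Matrix.mulVec_single_one]
      rfl
    rw [h3, smul_eq_mul, smul_eq_mul] at h2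
    have h4 : (4 : k) * Y c a = 0 := by linear_combination h2
    exact (mul_eq_zero.mp h4).resolve_left (by norm_num)
  have hTt : ∀ x y : Fin n → k, (TT x y)ᵀ = -TT x y := TT_transpose
  -- first bracket
  have h1 : TT (ev k e) (iv i0 c d t) ∈ I := by
    have h2 := hid _ (TT_mem (ev k e) (ev k a)) _ hR
    rw [TT_bracket (hTt _ _)] at h2
    have e1 : TT (ev k e) (ev k a) *ᵥ iv i0 a b s = ev k e := by
      unfold iv
      rw [TT_mulVec, dotProduct_add, dotProduct_add, dotProduct_smul, dotProduct_smul,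
        ev_dot_same, ev_dot_ne (Ne.symm hb.1), ev_dot_ne he.1, ev_dot_ne he.2.1]
      simp
    have e2 : TT (ev k e) (ev k a) *ᵥ iv i0 c d t = 0 := by
      unfold iv
      rw [TT_mulVec, dotProduct_add, dotProduct_add, dotProduct_smul, dotProduct_smul,
        ev_dot_ne hne, ev_dot_ne (Ne.symm hd.1), ev_dot_ne he.2.2.1, ev_dot_ne he.2.2.2]
      simp
    have e3 : TT (iv i0 a b s) (0 : Fin n → k) = 0 := by
      rw [TT_swap, TT_zero_left, neg_zero]
    rw [e1, e2, e3, add_zero] at h2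
    exact h2
  -- second bracket
  have h2 : TT (ev k e) (ev k a) ∈ I := by
    have h3 := hid _ (TT_mem (ev k a) (ev k c)) _ h1
    rw [TT_bracket (hTt _ _)] at h3
    have e1 : TT (ev k a) (ev k c) *ᵥ ev k e = 0 := by
      rw [TT_mulVec, ev_dot_ne (Ne.symm he.2.2.1), ev_dot_ne (Ne.symm he.1)]
      simp
    have e2 : TT (ev k a) (ev k c) *ᵥ iv i0 c d t = ev k a := by
      unfold iv
      rw [TT_mulVec, dotProduct_add, dotProduct_add, dotProduct_smul, dotProduct_smul,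
        ev_dot_same, ev_dot_ne (Ne.symm hd.2.2), ev_dot_ne hne, ev_dot_ne (Ne.symm hd.1)]
      simp
    rw [e1, e2, TT_zero_left, zero_add] at h3
    exact h3
  -- all basis elements
  have step : ∀ x y z : Fin n, x ≠ y → y ≠ z → x ≠ z → TT (ev k y) (ev k z) ∈ I →
      TT (ev k x) (ev k z) ∈ I := by
    intro x y z hxy hyz hxz h
    have h3 := hid _ (TT_mem (ev k x) (ev k y)) _ h
    rw [TT_bracket (hTt _ _), TT_mulVec, TT_mulVec, ev_dot_same, ev_dot_ne hxy, ev_dot_ne hyz,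
      ev_dot_ne hxz, one_smul, zero_smul, zero_smul, sub_zero, sub_zero, TT_swap _ 0,
      TT_zero_left, neg_zero, add_zero] at h3
    exact h3
  have hsw : ∀ x y : Fin n, TT (ev k x) (ev k y) ∈ I → TT (ev k y) (ev k x) ∈ I := by
    intro x y h
    rw [TT_swap]
    exact I.neg_mem h
  have hea : e ≠ a := he.1
  -- everything containing `a`
  have hA : ∀ x, x ≠ a → TT (ev k x) (ev k a) ∈ I := by
    intro x hx
    by_cases hxe : x = e
    · rw [hxe]; exact h2
    · exact step x e a hxe hea hx h2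
  refine le_antisymm hle (so_le I fun x y hxy => ?_)
  by_cases hya : y = a
  · rw [hya]
    exact hA x (by rw [← hya]; exact hxy)
  · by_cases hxa : x = a
    · rw [hxa]
      exact hsw _ _ (hA y hya)
    · exact step x a y hxa (Ne.symm hya) hxy (hsw _ _ (hA y hya))

end So

end Pool.Agent.Helper14.RG.AU
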