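import Pool.Agent.Helper14.RG.AU.FacB
import Pool.Agent.Helper14.RG.AU.Back2
import Pool.Agent.Helper48.CG.EQV

set_option autoImplicit false

/-!
# Change of basis
-/

namespace Pool.Agent.Helper14.RG.AU

open Matrix Pool.Agent.Helper97.CG Pool.Agent.Helper14.RG

section Tr

variable {k : Type*} [Field k] {n : ℕ} {J J' P Q : Matrix (Fin n) (Fin n) k}

/-- conjugation as a linear map -/
def cjm (P Q : Matrix (Fin n) (Fin n) k) : Matrix (Fin n) (Fin n) k →ₗ[k] Matrix (Fin n) (Fin n) k where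
  toFun X := P * X * Q
  map_add' X Y := by rw [Matrix.mul_add, Matrix.add_mul]
  map_smul' r X := by rw [Matrix.mul_smul, Matrix.smul_mul, RingHom.id_apply]

lemma cjm_apply (X : Matrix (Fin n) (Fin n) k) : cjm P Q X = P * X * Q := rfl

lemma cjm_mul (hQP : Q * P = 1) (X Y : Matrix (Fin n) (Fin n) k) :
    cjm P Q (X * Y) = cjm P Q X * cjm P Q Y := by
  rw [cjm_apply, cjm_apply, cjm_apply]
  calc P * (X * Y) * Q = P * X * (1 * Y) * Q := by
        rw [Matrix.one_mul]; simp only [Matrix.mul_assoc]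
    _ = _ := by rw [← hQP]; simp only [Matrix.mul_assoc]

lemma cjm_cjm (hQP : Q * P = 1) (X : Matrix (Fin n) (Fin n) k) : cjm Q P (cjm P Q X) = X := by
  rw [cjm_apply, cjm_apply]
  calc Q * (P * X * Q) * P = (Q * P) * X * (Q * P) := by simp only [Matrix.mul_assoc]
    _ = X := by rw [hQP, Matrix.one_mul, Matrix.mul_one]

lemma cjm_mem (hPQ : P * Q = 1) (hJ : Pᵀ * J * P = J') {X : Matrix (Fin n) (Fin n) k}
    (hX : X ∈ gJ J') : cjm P Q X ∈ gJ J := by
  have hQP : Q * P = 1 := mul_eq_one_comm.mp hPQ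
  have hQP' : Qᵀ * Pᵀ = 1 := by rw [← transpose_mul, hPQ, transpose_one]
  rw [cjm_apply]
  refine ⟨?_, ?_⟩
  · rw [transpose_mul, transpose_mul]
    calc Qᵀ * (Xᵀ * Pᵀ) * J + J * (P * X * Q)
        = Qᵀ * Xᵀ * (Pᵀ * J) * (P * Q) + (Qᵀ * Pᵀ) * J * (P * X * Q) := by
          rw [hPQ, hQP', Matrix.mul_one, Matrix.one_mul]
          simp only [Matrix.mul_assoc]
      _ = Qᵀ * (Xᵀ * (Pᵀ * J * P) + (Pᵀ * J * P) * X) * Q := by
          simp only [Matrix.mul_add, Matrix.add_mul, Matrix.mul_assoc]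
      _ = 0 := by rw [hJ, hX.1, Matrix.mul_zero, Matrix.zero_mul]
  · rw [Matrix.trace_mul_comm, ← Matrix.mul_assoc, hQP, Matrix.one_mul]
    exact hX.2

/-- the conjugate of a group element -/
lemma iso_tr (hPQ : P * Q = 1) (hJ : Pᵀ * J * P = J') (g : IsoG J') :
    ∃ h : IsoG J, isoHom J h = P * isoHom J' g * Q ∧ isoHom J h⁻¹ = P * isoHom J' g⁻¹ * Q := by
  have hQP : Q * P = 1 := mul_eq_one_comm.mp hPQ
  have hQP' : Qᵀ * Pᵀ = 1 := by rw [← transpose_mul, hPQ, transpose_one]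
  have hdet : (P * isoHom J' g * Q).det = 1 := by
    rw [Matrix.det_conj_of_mul_eq_one hPQ hQP, isoHom_det]
  have hrel : (P * isoHom J' g * Q)ᵀ * J * (P * isoHom J' g * Q) = J := by
    rw [transpose_mul, transpose_mul]
    calc Qᵀ * ((isoHom J' g)ᵀ * Pᵀ) * J * (P * isoHom J' g * Q)
        = Qᵀ * ((isoHom J' g)ᵀ * (Pᵀ * J * P) * isoHom J' g) * Q := by
          simp only [Matrix.mul_assoc]
      _ = Qᵀ * (Pᵀ * J * P) * Q := by rw [hJ, isoHom_rel]
      _ = (Qᵀ * Pᵀ) * J * (P * Q) := by simp only [Matrix.mul_assoc]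
      _ = J := by rw [hPQ, hQP', Matrix.one_mul, Matrix.mul_one]
  let h : IsoG J := ⟨⟨P * isoHom J' g * Q, hdet⟩, hrel⟩
  refine ⟨h, rfl, ?_⟩
  have e1 : isoHom J h * (P * isoHom J' g⁻¹ * Q) = 1 := by
    show P * isoHom J' g * Q * (P * isoHom J' g⁻¹ * Q) = 1
    calc P * isoHom J' g * Q * (P * isoHom J' g⁻¹ * Q)
        = P * (isoHom J' g * (Q * P) * isoHom J' g⁻¹) * Q := by simp only [Matrix.mul_assoc]
      _ = 1 := by rw [hQP, Matrix.mul_one, iso_mul_inv, Matrix.mul_one, hPQ]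
  calc isoHom J h⁻¹ = isoHom J h⁻¹ * (isoHom J h * (P * isoHom J' g⁻¹ * Q)) := by
        rw [e1, Matrix.mul_one]
    _ = _ := by rw [← Matrix.mul_assoc, iso_inv_mul, Matrix.one_mul]

lemma back_form (hPQ : P * Q = 1) (hJ : Pᵀ * J * P = J') : Qᵀ * J' * Q = J := by
  have hQP' : Qᵀ * Pᵀ = 1 := by rw [← transpose_mul, hPQ, transpose_one]
  rw [← hJ]
  calc Qᵀ * (Pᵀ * J * P) * Q = (Qᵀ * Pᵀ) * J * (P * Q) := by simp only [Matrix.mul_assoc]
    _ = J := by rw [hPQ, hQP', Matrix.one_mul, Matrix.mul_one]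

/-- the facts about the Lie algebra are invariant under change of basis -/
theorem lf_tr (hPQ : P * Q = 1) (hJ : Pᵀ * J * P = J')
    (hlc : ∀ M : Matrix (Fin n) (Fin n) k, (∀ X ∈ gJ J', M * X = X * M) →
      ∃ c : k, M = c • (1 : Matrix (Fin n) (Fin n) k))
    (hsp : Spans J')
    (hsim : ∀ I : Submodule k (Matrix (Fin n) (Fin n) k), I ≤ gJ J' →
      (∀ (g : IsoG J'), ∀ X ∈ I, isoHom J' g * X * isoHom J' g⁻¹ ∈ I) → I = ⊥ ∨ I = gJ J')
    (hf : FormFacts J) : LF J := by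
  have hQP : Q * P = 1 := mul_eq_one_comm.mp hPQ
  have hJ' : Qᵀ * J' * Q = J := back_form hPQ hJ
  refine ⟨Or.inr hf.det, hf.irr, hf.comm, ?_, ?_, ?_⟩
  · intro M hM
    obtain ⟨c, hc⟩ := hlc (cjm Q P M) (fun X hX => by
      have h1 := hM _ (cjm_mem hPQ hJ hX)
      have h2 := congrArg (cjm Q P) h1
      rw [cjm_mul hPQ, cjm_mul hPQ, cjm_cjm hQP] at h2
      exact h2)
    refine ⟨c, ?_⟩
    have h3 := congrArg (cjm P Q) hc
    rw [cjm_cjm hPQ, map_smul, cjm_apply, Matrix.mul_one, hPQ] at h3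
    exact h3
  · intro X hX
    have h1 : cjm Q P X ∈ gJ J' := cjm_mem hQP hJ' hX
    have h2 := hsp h1
    have h3 : cjm P Q (cjm Q P X) ∈ Submodule.span k (rt J) := by
      generalize cjm Q P X = Y at h2
      induction h2 using Submodule.span_induction with
      | mem x hx =>
        refine Submodule.subset_span ⟨cjm_mem hPQ hJ hx.1, ?_⟩
        rw [← cjm_mul hQP, hx.2, map_zero]
      | zero => rw [map_zero]; exact Submodule.zero_mem _
      | add x y _ _ hx hy => rw [map_add]; exact Submodule.add_mem _ hx hy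
      | smul a x _ hx => rw [map_smul]; exact Submodule.smul_mem _ _ hx
    rw [cjm_cjm hPQ] at h3
    exact h3
  · intro I hle hI
    rcases hsim (I.map (cjm Q P)) (by
      rintro _ ⟨X, hX, rfl⟩
      exact cjm_mem hQP hJ' (hle hX)) (by
      rintro g _ ⟨X, hX, rfl⟩
      obtain ⟨h, h1, h2⟩ := iso_tr hPQ hJ g
      refine ⟨isoHom J h * X * isoHom J h⁻¹, hI h X hX, ?_⟩
      rw [cjm_mul hPQ, cjm_mul hPQ]
      have e1 : cjm Q P (isoHom J h) = isoHom J' g := by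
        rw [h1]
        exact cjm_cjm hQP _
      have e2 : cjm Q P (isoHom J h⁻¹) = isoHom J' g⁻¹ := by
        rw [h2]
        exact cjm_cjm hQP _
      rw [e1, e2]) with h | h
    · left
      rw [Submodule.eq_bot_iff]
      intro X hX
      have h1 : cjm Q P X ∈ I.map (cjm Q P) := ⟨X, hX, rfl⟩
      rw [h, Submodule.mem_bot] at h1
      rw [← cjm_cjm hPQ X, h1, map_zero]
    · right
      refine le_antisymm hle fun X hX => ?_
      have h1 : cjm Q P X ∈ I.map (cjm Q P) := by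
        rw [h]
        exact cjm_mem hQP hJ' hX
      obtain ⟨Z, hZ, e⟩ := h1
      have h2 := congrArg (cjm P Q) e
      rw [cjm_cjm hPQ, cjm_cjm hPQ] at h2
      rw [← h2]
      exact hZ

end Tr

section So2

universe u
variable {k : Type u} [Field k] [IsAlgClosed k] [CharZero k] {n : ℕ}
  {J : Matrix (Fin n) (Fin n) k}

lemma exists_orthonormal (hJ : Jᵀ = J) (hdet : J.det ≠ 0) :
    ∃ P Q : Matrix (Fin n) (Fin n) k, P * Q = 1 ∧ Pᵀ * J * P = 1 := by
  have h1 : IsForm (1 : k) J := ⟨Or.inl rfl, by rw [hJ, one_smul], hdet⟩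
  have h2 : IsForm (1 : k) (1 : Matrix (Fin n) (Fin n) k) :=
    ⟨Or.inl rfl, by rw [transpose_one, one_smul], by rw [Matrix.det_one]; exact one_ne_zero⟩
  obtain ⟨P, hP⟩ := st_EQV k (Fin n) (Fin n) 1 J 1 h1 h2 rfl
  exact ⟨P, Pᵀ * J, mul_eq_one_comm.mp hP, hP⟩

theorem lf_so (hn : 5 ≤ n) (hJ : Jᵀ = J) (hdet : J.det ≠ 0) (hf : FormFacts J) : LF J := by
  obtain ⟨P, Q, hPQ, hP⟩ := exists_orthonormal hJ hdet
  exact lf_tr hPQ hP (so_lc (by omega)) (so_spans (by omega)) (so_sim hn) hf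

end So2

section LieTr

variable {k : Type*} [Field k] {m n : ℕ} {J J1 P Q : Matrix (Fin m) (Fin m) k}
  {J' J1' P' Q' : Matrix (Fin n) (Fin n) k}

/-- standardness is invariant under change of basis -/
theorem lieStd_tr (hPQ : P * Q = 1) (hJ : Pᵀ * J * P = J1) (hPQ' : P' * Q' = 1)
    (hJ' : P'ᵀ * J' * P' = J1') (h : LieStd J1 J1') : LieStd J J' := by
  have hQP : Q * P = 1 := mul_eq_one_comm.mp hPQ
  have hQP' : Q' * P' = 1 := mul_eq_one_comm.mp hPQ'
  have hJb : Qᵀ * J1 * Q = J := back_form hPQ hJ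
  have hJb' : Q'ᵀ * J1' * Q' = J' := back_form hPQ' hJ'
  intro D h1 h2 h3 h4
  obtain ⟨a, b, hab, hba, h5⟩ := h ((cjm Q' P').comp (D.comp (cjm P Q)))
    (fun X hX => cjm_mem hQP' hJb' (h1 _ (cjm_mem hPQ hJ hX)))
    (fun Y hY => by
      obtain ⟨X, hX, e⟩ := h2 _ (cjm_mem hPQ' hJ' hY)
      refine ⟨cjm Q P X, cjm_mem hQP hJb hX, ?_⟩
      show cjm Q' P' (D (cjm P Q (cjm Q P X))) = Y
      rw [cjm_cjm hPQ, e, cjm_cjm hQP'])
    (fun X hX e => by
      have e1 : cjm Q' P' (D (cjm P Q X)) = 0 := e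
      have e2 := congrArg (cjm P' Q') e1
      rw [cjm_cjm hPQ', map_zero] at e2
      have e3 := h3 _ (cjm_mem hPQ hJ hX) e2
      rw [← cjm_cjm hQP X, e3, map_zero])
    (fun X hX Y hY => by
      show cjm Q' P' (D (cjm P Q (X * Y - Y * X))) = cjm Q' P' (D (cjm P Q X)) *
        cjm Q' P' (D (cjm P Q Y)) - cjm Q' P' (D (cjm P Q Y)) * cjm Q' P' (D (cjm P Q X))
      rw [map_sub, cjm_mul hQP, cjm_mul hQP, h4 _ (cjm_mem hPQ hJ hX) _ (cjm_mem hPQ hJ hY),
        map_sub, cjm_mul hPQ', cjm_mul hPQ'])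
  rcases h5 with h5 | h5
  · refine ⟨P' * a * Q, P * b * Q', ?_, ?_, Or.inl fun X hX => ?_⟩
    · calc P' * a * Q * (P * b * Q') = P' * (a * (Q * P) * b) * Q' := by
            simp only [Matrix.mul_assoc]
        _ = 1 := by rw [hQP, Matrix.mul_one, hab, Matrix.mul_one, hPQ']
    · calc P * b * Q' * (P' * a * Q) = P * (b * (Q' * P') * a) * Q := by
            simp only [Matrix.mul_assoc]
        _ = 1 := by rw [hQP', Matrix.mul_one, hba, Matrix.mul_one, hPQ]
    · have e1 := h5 _ (cjm_mem hQP hJb hX)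
      have e2 : cjm Q' P' (D (cjm P Q (cjm Q P X))) = a * cjm Q P X * b := e1
      rw [cjm_cjm hPQ] at e2
      have e3 := congrArg (cjm P' Q') e2
      rw [cjm_cjm hPQ'] at e3
      rw [e3, cjm_apply, cjm_apply]
      simp only [Matrix.mul_assoc]
  · refine ⟨P' * a * Pᵀ, Qᵀ * b * Q', ?_, ?_, Or.inr fun X hX => ?_⟩
    · calc P' * a * Pᵀ * (Qᵀ * b * Q') = P' * (a * (Pᵀ * Qᵀ) * b) * Q' := by
            simp only [Matrix.mul_assoc]
        _ = 1 := by
            rw [← transpose_mul, hQP, transpose_one, Matrix.mul_one, hab, Matrix.mul_one, hPQ']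
    · calc Qᵀ * b * Q' * (P' * a * Pᵀ) = Qᵀ * (b * (Q' * P') * a) * Pᵀ := by
            simp only [Matrix.mul_assoc]
        _ = 1 := by
            rw [hQP', Matrix.mul_one, hba, Matrix.mul_one, ← transpose_mul, hPQ, transpose_one]
    · have e1 := h5 _ (cjm_mem hQP hJb hX)
      have e2 : cjm Q' P' (D (cjm P Q (cjm Q P X))) = -(a * (cjm Q P X)ᵀ * b) := e1
      rw [cjm_cjm hPQ] at e2
      have e3 := congrArg (cjm P' Q') e2
      rw [cjm_cjm hPQ'] at e3
      rw [e3, map_neg, cjm_apply, cjm_apply, transpose_mul, transpose_mul]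
      simp only [Matrix.mul_assoc]

end LieTr

end Pool.Agent.Helper14.RG.AU
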