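import Pool.Agent.Helper14.RG.AU.TrB
import Pool.Agent.Helper14.RG.AU.FacT

set_option autoImplicit false

/-!
# Isomorphisms of the Lie algebras `so_n`
-/

namespace Pool.Agent.Helper14.RG.AU

open Matrix Pool.Agent.Helper97.CG Pool.Agent.Helper14.RG

section Basic

variable {k : Type*} [Field k] {n : ℕ}

lemma mem_K {X : Matrix (Fin n) (Fin n) k} [CharZero k] :
    X ∈ gJ (1 : Matrix (Fin n) (Fin n) k) ↔ Xᵀ = -X := by
  refine ⟨fun h => (mem_gJ_one.mp h).1, fun h => mem_gJ_one.mpr ⟨h, ?_⟩⟩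
  refine trace_zero_of_skew (J := 1) (by rw [Matrix.det_one]; exact one_ne_zero) ?_
  rw [Matrix.mul_one, Matrix.one_mul, h, neg_add_cancel]

lemma skew_mul3 {X Y : Matrix (Fin n) (Fin n) k} (hX : Xᵀ = -X) (hY : Yᵀ = -Y) :
    (X * Y * X)ᵀ = -(X * Y * X) := by
  rw [transpose_mul, transpose_mul, hX, hY]
  noncomm_ring

lemma skew_mul3' {X Y Z : Matrix (Fin n) (Fin n) k} (hX : Xᵀ = -X) (hY : Yᵀ = -Y)
    (hZ : Zᵀ = -Z) : (X * Y * Z + Z * Y * X)ᵀ = -(X * Y * Z + Z * Y * X) := by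
  rw [transpose_add, transpose_mul, transpose_mul, transpose_mul, transpose_mul, hX, hY, hZ]
  noncomm_ring

lemma skew_dot {F : Matrix (Fin n) (Fin n) k} (hF : Fᵀ = -F) (u v : Fin n → k) :
    u ⬝ᵥ (F *ᵥ v) = -(v ⬝ᵥ (F *ᵥ u)) := by
  rw [form_swap (η := (-1 : k)) (by rw [hF, neg_one_smul]) u v, neg_one_mul]

/-- the lemma on matrices acting by zero on skew matrices -/
lemma act_zero [CharZero k] (hn : 3 ≤ n) {H : Matrix (Fin n) (Fin n) k}
    (h : ∀ Z ∈ gJ (1 : Matrix (Fin n) (Fin n) k), H * Z + Z * Hᵀ = 0) : H = 0 := by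
  have h1 : ∀ u v : Fin n → k, TT (H *ᵥ u) v + TT u (H *ᵥ v) = 0 := by
    intro u v
    have h2 := h _ (TT_mem u v)
    have h3 : TT (H *ᵥ u) v + TT u (H *ᵥ v) = H * TT u v + TT u v * Hᵀ := by
      unfold TT
      rw [Matrix.mul_sub, Matrix.sub_mul, Matrix.mul_vecMulVec, Matrix.mul_vecMulVec,
        Matrix.vecMulVec_mul, Matrix.vecMulVec_mul, Matrix.vecMul_transpose,
        Matrix.vecMul_transpose]
      abel
    rw [h3, h2]
  have hev : ∀ a c : Fin n, (H *ᵥ ev k a) c = H c a := by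
    intro a c
    unfold ev
    rw [Matrix.mulVec_single_one]
    rfl
  have hee : ∀ a : Fin n, ev k a a = 1 := fun a => Pi.single_eq_same a 1
  have hen : ∀ a b : Fin n, b ≠ a → ev k a b = 0 := fun a b h => Pi.single_eq_of_ne h 1
  have hent : ∀ (u v : Fin n → k) (x y : Fin n), TT u v x y = u x * v y - v x * u y := by
    intro u v x y
    rfl
  have hoff : ∀ c a : Fin n, c ≠ a → H c a = 0 := by
    intro c a hca
    obtain ⟨b, hb⟩ := exists_avoid ({c, a} : Finset (Fin n)) (by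
      have := Finset.card_le_two (a := c) (b := a); omega)
    simp only [Finset.mem_insert, Finset.mem_singleton, not_or] at hb
    have h2 := congrFun (congrFun (h1 (ev k a) (ev k b)) c) b
    rw [Matrix.add_apply, hent, hent, hev, hev, hev, hee, hen b c (Ne.symm hb.1), hen a c hca,
      hen a b hb.2, Matrix.zero_apply] at h2
    linear_combination h2
  have hdd : ∀ a b : Fin n, a ≠ b → H a a + H b b = 0 := by
    intro a b hab
    have h2 := congrFun (congrFun (h1 (ev k a) (ev k b)) a) b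
    rw [Matrix.add_apply, hent, hent, hev, hev, hev, hev, hee, hee, hen b a hab,
      hen a b (Ne.symm hab), Matrix.zero_apply] at h2
    linear_combination h2
  ext a c
  rw [Matrix.zero_apply]
  by_cases hac : a = c
  · subst hac
    obtain ⟨b, hb⟩ := exists_avoid ({a} : Finset (Fin n)) (by
      rw [Finset.card_singleton]; omega)
    rw [Finset.mem_singleton] at hb
    obtain ⟨c, hc⟩ := exists_avoid ({a, b} : Finset (Fin n)) (by
      have := Finset.card_le_two (a := a) (b := b); omega)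
    simp only [Finset.mem_insert, Finset.mem_singleton, not_or] at hc
    have e1 := hdd a b (Ne.symm hb)
    have e2 := hdd a c (Ne.symm hc.1)
    have e3 := hdd b c (Ne.symm hc.2)
    have e4 : (2 : k) * H a a = 0 := by linear_combination e1 + e2 - e3
    exact (mul_eq_zero.mp e4).resolve_left two_ne_zero
  · exact hoff a c hac

/-- a nonzero symmetric matrix is nonzero on the diagonal of its form -/
lemma exists_form_ne [CharZero k] {q : Matrix (Fin n) (Fin n) k} (hq : qᵀ = q) (h0 : q ≠ 0) :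
    ∃ w : Fin n → k, w ⬝ᵥ (q *ᵥ w) ≠ 0 := by
  by_contra hcon
  push Not at hcon
  apply h0
  have h1 : ∀ u v : Fin n → k, u ⬝ᵥ (q *ᵥ v) = 0 := by
    intro u v
    have e1 := hcon (u + v)
    have e2 : v ⬝ᵥ (q *ᵥ u) = u ⬝ᵥ (q *ᵥ v) := by
      rw [form_swap (η := (1 : k)) (by rw [hq, one_smul]) v u, one_mul]
    rw [Matrix.mulVec_add, add_dotProduct, dotProduct_add, dotProduct_add, hcon u, hcon v,
      e2] at e1
    have e3 : (2 : k) * (u ⬝ᵥ (q *ᵥ v)) = 0 := by linear_combination e1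
    exact (mul_eq_zero.mp e3).resolve_left two_ne_zero
  ext i j
  have h2 := h1 (ev k i) (ev k j)
  unfold ev at h2
  rw [single_one_dotProduct, Matrix.mulVec_single_one] at h2
  exact h2

end Basic

section Triple

variable {k : Type*} [Field k] [CharZero k] {n : ℕ}

/-- The trace form and the triple product are preserved. -/
structure Trip (D : Matrix (Fin n) (Fin n) k →ₗ[k] Matrix (Fin n) (Fin n) k) : Prop where
  iso : LIso (1 : Matrix (Fin n) (Fin n) k) 1 D
  tr : ∀ X Y : Matrix (Fin n) (Fin n) k, Xᵀ = -X → Yᵀ = -Y → (D X * D Y).trace = (X * Y).trace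
  tri : ∀ X Y : Matrix (Fin n) (Fin n) k, Xᵀ = -X → Yᵀ = -Y → D (X * Y * X) = D X * D Y * D X

variable {D : Matrix (Fin n) (Fin n) k →ₗ[k] Matrix (Fin n) (Fin n) k}

lemma Trip.mem (T : Trip D) {X : Matrix (Fin n) (Fin n) k} (hX : Xᵀ = -X) : (D X)ᵀ = -D X :=
  mem_K.mp (T.iso.mem X (mem_K.mpr hX))

lemma Trip.surj (T : Trip D) {Y : Matrix (Fin n) (Fin n) k} (hY : Yᵀ = -Y) :
    ∃ X : Matrix (Fin n) (Fin n) k, Xᵀ = -X ∧ D X = Y := by
  obtain ⟨X, hX, h⟩ := T.iso.surj Y (mem_K.mpr hY)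
  exact ⟨X, mem_K.mp hX, h⟩

lemma Trip.lie (T : Trip D) {X Y : Matrix (Fin n) (Fin n) k} (hX : Xᵀ = -X) (hY : Yᵀ = -Y) :
    D (X * Y - Y * X) = D X * D Y - D Y * D X := T.iso.lie X (mem_K.mpr hX) Y (mem_K.mpr hY)

/-- the trace relations give the triple product -/
theorem trip_of (hn : 3 ≤ n) (hn8 : n ≠ 8)
    (hD : LIso (1 : Matrix (Fin n) (Fin n) k) 1 D) : Trip D := by
  have hTD : TD (1 : Matrix (Fin n) (Fin n) k) ((n : k) - 2 * 1) ((n : k) - 8 * 1) 3
      ((2 : k)⁻¹ * ((n : k) * n - 1 * n)) :=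
    TD_form (one_mul 1) (by rw [transpose_one, one_smul])
      (by rw [Matrix.det_one]; exact one_ne_zero)
  have R := trRel hTD hTD hD
  have h2 : (n : k) - 2 * 1 ≠ 0 := by
    intro h
    have : (n : k) = ((2 : ℕ) : k) := by push_cast; linear_combination h
    have := Nat.cast_injective this
    omega
  have h8 : (n : k) - 8 * 1 ≠ 0 := by
    intro h
    have : (n : k) = ((8 : ℕ) : k) := by push_cast; linear_combination h
    exact hn8 (Nat.cast_injective this)
  have htr : ∀ X Y : Matrix (Fin n) (Fin n) k, Xᵀ = -X → Yᵀ = -Y →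
      (D X * D Y).trace = (X * Y).trace := fun X Y hX hY =>
    mul_left_cancel₀ h2 (R.two X (mem_K.mpr hX) Y (mem_K.mpr hY))
  have hmem : ∀ X : Matrix (Fin n) (Fin n) k, Xᵀ = -X → (D X)ᵀ = -D X := fun X hX =>
    mem_K.mp (hD.mem X (mem_K.mpr hX))
  have hcube : ∀ X : Matrix (Fin n) (Fin n) k, Xᵀ = -X → D (X * X * X) = D X * D X * D X := by
    intro X hX
    have e0 : (X * X * X)ᵀ = -(X * X * X) := skew_mul3 hX hX
    have e1 : (D X * D X * D X)ᵀ = -(D X * D X * D X) := skew_mul3 (hmem X hX) (hmem X hX)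
    have e2 : D (X * X * X) - D X * D X * D X = 0 := by
      refine hTD.nd _ ?_ ?_
      · intro W' hW'
        obtain ⟨W, hW, rfl⟩ := hD.surj W' hW'
        have hWt := mem_K.mp hW
        have e3 := R.four X (mem_K.mpr hX) W hW
        rw [htr X X hX hX, htr X W hX hWt] at e3
        have e4 : (D X * D X * D X * D W).trace = (X * X * X * W).trace :=
          mul_left_cancel₀ h8 (by linear_combination e3)
        rw [Matrix.sub_mul, Matrix.trace_sub, e4, htr _ W e0 hWt, sub_self]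
      · exact mem_K.mpr (by rw [transpose_sub, hmem _ e0, e1, neg_sub_neg, neg_sub])
    exact sub_eq_zero.mp e2
  refine ⟨hD, htr, ?_⟩
  intro X Y hX hY
  have hXY : (X + Y)ᵀ = -(X + Y) := by rw [transpose_add, hX, hY, neg_add]
  have hXY' : (X - Y)ᵀ = -(X - Y) := by rw [transpose_sub, hX, hY]; abel
  have hL : (X * Y - Y * X)ᵀ = -(X * Y - Y * X) := by
    rw [transpose_sub, transpose_mul, transpose_mul, hX, hY]
    noncomm_ring
  have e1 := hcube _ hXY
  have e2 := hcube _ hXY'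
  have e3 := hcube _ hY
  have e4 := hD.lie X (mem_K.mpr hX) _ (mem_K.mpr hL)
  rw [hD.lie X (mem_K.mpr hX) Y (mem_K.mpr hY)] at e4
  have id1 : (6 : k) • (X * Y * X) = (X + Y) * (X + Y) * (X + Y) - (X - Y) * (X - Y) * (X - Y)
      - (2 : k) • (Y * Y * Y) - (2 : k) • (X * (X * Y - Y * X) - (X * Y - Y * X) * X) := by
    have h6 : (6 : k) = ((6 : ℕ) : k) := by norm_num
    have h2' : (2 : k) = ((2 : ℕ) : k) := by norm_num
    rw [h6, h2']
    simp only [Nat.cast_smul_eq_nsmul]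
    noncomm_ring
  have id2 : (6 : k) • (D X * D Y * D X) = (D X + D Y) * (D X + D Y) * (D X + D Y)
      - (D X - D Y) * (D X - D Y) * (D X - D Y)
      - (2 : k) • (D Y * D Y * D Y)
      - (2 : k) • (D X * (D X * D Y - D Y * D X) - (D X * D Y - D Y * D X) * D X) := by
    have h6 : (6 : k) = ((6 : ℕ) : k) := by norm_num
    have h2' : (2 : k) = ((2 : ℕ) : k) := by norm_num
    rw [h6, h2']
    simp only [Nat.cast_smul_eq_nsmul]
    noncomm_ring
  have e5 : (6 : k) • D (X * Y * X) = (6 : k) • (D X * D Y * D X) := by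
    rw [← map_smul, id1, map_sub, map_sub, map_sub, map_smul, map_smul, e1, e2, e3, e4, map_add,
      map_sub, id2]
  have h60 : (6 : k) ≠ 0 := by norm_num
  exact smul_right_injective _ h60 e5

lemma Trip.tri' (T : Trip D) {X Y Z : Matrix (Fin n) (Fin n) k} (hX : Xᵀ = -X) (hY : Yᵀ = -Y)
    (hZ : Zᵀ = -Z) : D (X * Y * Z + Z * Y * X) = D X * D Y * D Z + D Z * D Y * D X := by
  have hXZ : (X + Z)ᵀ = -(X + Z) := by rw [transpose_add, hX, hZ, neg_add]
  have e1 := T.tri (X + Z) Y hXZ hY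
  have e2 := T.tri X Y hX hY
  have e3 := T.tri Z Y hZ hY
  have id1 : X * Y * Z + Z * Y * X = (X + Z) * Y * (X + Z) - X * Y * X - Z * Y * Z := by
    noncomm_ring
  rw [id1, map_sub, map_sub, e1, e2, e3, map_add]
  noncomm_ring

/-- products of two skew matrices: linear relations are preserved -/
theorem Trip.wd (T : Trip D) (hn : 3 ≤ n) {ι : Type*} (s : Finset ι)
    (X Y : ι → Matrix (Fin n) (Fin n) k) (hX : ∀ i, (X i)ᵀ = -X i) (hY : ∀ i, (Y i)ᵀ = -Y i)
    (h : ∑ i ∈ s, X i * Y i = 0) : ∑ i ∈ s, D (X i) * D (Y i) = 0 := by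
  refine act_zero hn fun Z' hZ' => ?_
  obtain ⟨Z, hZ, rfl⟩ := T.surj (mem_K.mp hZ')
  have h1 : ∑ i ∈ s, Y i * X i = 0 := by
    have h2 := congrArg Matrix.transpose h
    rw [transpose_zero, Matrix.transpose_sum] at h2
    rw [← h2]
    refine Finset.sum_congr rfl fun i _ => ?_
    rw [transpose_mul, hX, hY, Matrix.neg_mul, Matrix.mul_neg, neg_neg]
  rw [Matrix.transpose_sum, Finset.sum_mul, Finset.mul_sum, ← Finset.sum_add_distrib]
  have h3 : ∀ i ∈ s, D (X i) * D (Y i) * D Z + D Z * (D (X i) * D (Y i))ᵀ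
      = D (X i * Y i * Z + Z * Y i * X i) := by
    intro i _
    rw [T.tri' (hX i) (hY i) hZ, transpose_mul, T.mem (hX i), T.mem (hY i)]
    noncomm_ring
  rw [Finset.sum_congr rfl h3, ← map_sum, Finset.sum_add_distrib, ← Finset.sum_mul, h,
    Matrix.zero_mul, zero_add]
  have h4 : ∑ i ∈ s, Z * Y i * X i = Z * ∑ i ∈ s, Y i * X i := by
    rw [Finset.mul_sum]
    exact Finset.sum_congr rfl fun i _ => Matrix.mul_assoc _ _ _
  rw [h4, h1, Matrix.mul_zero, map_zero]

/-- two products -/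
lemma Trip.wd2 (T : Trip D) (hn : 3 ≤ n) {X Y X' Y' : Matrix (Fin n) (Fin n) k}
    (hX : Xᵀ = -X) (hY : Yᵀ = -Y) (hX' : X'ᵀ = -X') (hY' : Y'ᵀ = -Y')
    (h : X * Y = X' * Y') : D X * D Y = D X' * D Y' := by
  have h1 := T.wd hn (Finset.univ : Finset (Fin 2)) ![X, X'] ![Y, -Y']
    (by intro i; fin_cases i <;> assumption)
    (by
      intro i
      fin_cases i
      · exact hY
      · show (-Y')ᵀ = - -Y'
        rw [transpose_neg, hY'])
    (by
      rw [Fin.sum_univ_two]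
      show X * Y + X' * (-Y') = 0
      rw [h, Matrix.mul_neg, add_neg_cancel])
  rw [Fin.sum_univ_two] at h1
  have h2 : D X * D Y + D X' * D (-Y') = 0 := h1
  rw [map_neg, Matrix.mul_neg] at h2
  exact add_neg_eq_zero.mp h2

/-- three squares -/
lemma Trip.wd6 (T : Trip D) (hn : 3 ≤ n) {X Y Z X' Y' Z' : Matrix (Fin n) (Fin n) k}
    (hX : Xᵀ = -X) (hY : Yᵀ = -Y) (hZ : Zᵀ = -Z) (hX' : X'ᵀ = -X') (hY' : Y'ᵀ = -Y')
    (hZ' : Z'ᵀ = -Z')
    (h : X * X + Y * Y - Z * Z = X' * X' + Y' * Y' - Z' * Z') :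
    D X * D X + D Y * D Y - D Z * D Z = D X' * D X' + D Y' * D Y' - D Z' * D Z' := by
  have h1 := T.wd hn (Finset.univ : Finset (Fin 6)) ![X, Y, Z, X', Y', Z']
    ![X, Y, -Z, -X', -Y', Z']
    (by intro i; fin_cases i <;> assumption)
    (by
      intro i
      fin_cases i
      · exact hX
      · exact hY
      · show (-Z)ᵀ = - -Z
        rw [transpose_neg, hZ]
      · show (-X')ᵀ = - -X'
        rw [transpose_neg, hX']
      · show (-Y')ᵀ = - -Y'
        rw [transpose_neg, hY']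
      · exact hZ')
    (by
      rw [Fin.sum_univ_six]
      show X * X + Y * Y + Z * (-Z) + X' * (-X') + Y' * (-Y') + Z' * Z' = 0
      have h2 : X * X + Y * Y + Z * (-Z) + X' * (-X') + Y' * (-Y') + Z' * Z'
        = (X * X + Y * Y - Z * Z) - (X' * X' + Y' * Y' - Z' * Z') := by noncomm_ring
      rw [h2, h, sub_self])
  rw [Fin.sum_univ_six] at h1
  have h2 : D X * D X + D Y * D Y + D Z * D (-Z) + D X' * D (-X') + D Y' * D (-Y')
      + D Z' * D Z' = 0 := h1
  rw [map_neg, map_neg, map_neg] at h2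
  have h3 : (D X * D X + D Y * D Y - D Z * D Z) - (D X' * D X' + D Y' * D Y' - D Z' * D Z')
      = 0 := by
    rw [← h2]
    noncomm_ring
  exact sub_eq_zero.mp h3

end Triple

end Pool.Agent.Helper14.RG.AU
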