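import Pool.Agent.Helper14.RG.AU.FacS

set_option autoImplicit false

/-!
# Isomorphisms of the Lie algebras `so_n`: the frame
-/

namespace Pool.Agent.Helper14.RG.AU

open Matrix Pool.Agent.Helper97.CG Pool.Agent.Helper14.RG

section E

variable {k : Type*} [Field k] {n : ℕ}

/-- basis elements of `so_n` -/
def Em (k : Type*) [Field k] {n : ℕ} (a b : Fin n) : Matrix (Fin n) (Fin n) k :=
  TT (ev k a) (ev k b)

lemma Em_t (a b : Fin n) : (Em k a b)ᵀ = -Em k a b := TT_transpose _ _

lemma Em_swap (a b : Fin n) : Em k a b = -Em k b a := TT_swap _ _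

lemma Em_eq (a b : Fin n) : Em k a b = single a b 1 - single b a 1 := TT_ev_apply a b

lemma Em_mul_disj {a b c d : Fin n} (hac : a ≠ c) (had : a ≠ d) (hbc : b ≠ c) (hbd : b ≠ d) :
    Em k a b * Em k c d = 0 := by
  rw [Em_eq, Em_eq, Matrix.sub_mul, Matrix.mul_sub, Matrix.mul_sub,
    Matrix.single_mul_single_of_ne _ _ _ _ hbc, Matrix.single_mul_single_of_ne _ _ _ _ hbd,
    Matrix.single_mul_single_of_ne _ _ _ _ hac, Matrix.single_mul_single_of_ne _ _ _ _ had]
  simp

lemma Em_sq {a b : Fin n} (hab : a ≠ b) :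
    Em k a b * Em k a b = -(single a a 1 + single b b 1) := by
  rw [Em_eq, Matrix.sub_mul, Matrix.mul_sub, Matrix.mul_sub,
    Matrix.single_mul_single_of_ne _ _ _ _ hab.symm, Matrix.single_mul_single_same,
    Matrix.single_mul_single_same, Matrix.single_mul_single_of_ne _ _ _ _ hab, mul_one]
  abel

lemma Em_cube {a b : Fin n} (hab : a ≠ b) : Em k a b * Em k a b * Em k a b = -Em k a b := by
  rw [Em_sq hab, Em_eq, Matrix.neg_mul, Matrix.add_mul, Matrix.mul_sub, Matrix.mul_sub,
    Matrix.single_mul_single_same, Matrix.single_mul_single_of_ne _ _ _ _ hab,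
    Matrix.single_mul_single_of_ne _ _ _ _ hab.symm, Matrix.single_mul_single_same, mul_one]
  abel

lemma Em_tr {a b : Fin n} (hab : a ≠ b) : (Em k a b * Em k a b).trace = -2 := by
  rw [Em_sq hab, Matrix.trace_neg, Matrix.trace_add, Matrix.trace_single_eq_same,
    Matrix.trace_single_eq_same]
  norm_num

lemma Em_three {i a b : Fin n} (hia : i ≠ a) (hib : i ≠ b) (hab : a ≠ b) :
    Em k i a * Em k i a + Em k i b * Em k i b - Em k a b * Em k a b
      = -(single i i 1 + single i i 1) := by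
  rw [Em_sq hia, Em_sq hib, Em_sq hab]
  abel

/-- `E_{i0} E_{j0} = - e_ij` -/
lemma Em_mul_common {i j a : Fin n} (hij : i ≠ j) (hia : i ≠ a) (hja : j ≠ a) :
    Em k i a * Em k j a = -single i j 1 := by
  rw [Em_eq, Em_eq, Matrix.sub_mul, Matrix.mul_sub, Matrix.mul_sub,
    Matrix.single_mul_single_of_ne _ _ _ _ hja.symm, Matrix.single_mul_single_same,
    Matrix.single_mul_single_of_ne _ _ _ _ hij, Matrix.single_mul_single_of_ne _ _ _ _ hia,
    mul_one]
  abel

end E

section Frame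

variable {k : Type*} [Field k] [CharZero k] {n : ℕ}
  {D : Matrix (Fin n) (Fin n) k →ₗ[k] Matrix (Fin n) (Fin n) k}

/-- images of the basis elements -/
def Fm (D : Matrix (Fin n) (Fin n) k →ₗ[k] Matrix (Fin n) (Fin n) k) (a b : Fin n) :
    Matrix (Fin n) (Fin n) k := D (Em k a b)

lemma Trip.Fm_t (T : Trip D) (a b : Fin n) : (Fm D a b)ᵀ = -Fm D a b := T.mem (Em_t a b)

lemma Trip.Fm_swap (T : Trip D) (a b : Fin n) : Fm D a b = -Fm D b a := by
  unfold Fm
  rw [Em_swap, map_neg]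

lemma Trip.Fm_disj (T : Trip D) (hn : 3 ≤ n) {a b c d : Fin n} (hac : a ≠ c) (had : a ≠ d)
    (hbc : b ≠ c) (hbd : b ≠ d) : Fm D a b * Fm D c d = 0 := by
  have h := T.wd2 hn (Em_t (k := k) a b) (Em_t c d) (Em_t a b) (Y' := 0)
    (by rw [transpose_zero, neg_zero])
    (by rw [Em_mul_disj hac had hbc hbd, Matrix.mul_zero])
  rw [map_zero, Matrix.mul_zero] at h
  exact h

lemma Trip.Fm_cube (T : Trip D) {a b : Fin n} (hab : a ≠ b) :
    Fm D a b * Fm D a b * Fm D a b = -Fm D a b := by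
  unfold Fm
  rw [← T.tri _ _ (Em_t a b) (Em_t a b), Em_cube hab, map_neg]

lemma Trip.Fm_tr (T : Trip D) {a b : Fin n} (hab : a ≠ b) :
    (Fm D a b * Fm D a b).trace = -2 := by
  unfold Fm
  rw [T.tr _ _ (Em_t a b) (Em_t a b), Em_tr hab]

/-- the projections -/
theorem Trip.exists_q (T : Trip D) (hn : 6 ≤ n) :
    ∃ q : Fin n → Matrix (Fin n) (Fin n) k,
      (∀ i j, i ≠ j → -(Fm D i j * Fm D i j) = q i + q j) ∧ (∀ i j, i ≠ j → q i * q j = 0) ∧
      (∀ i, q i * q i = q i) ∧ (∀ i, (q i)ᵀ = q i) ∧ (∀ i, q i ≠ 0) := by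
  have hn3 : 3 ≤ n := by omega
  have hex : ∀ i : Fin n, ∃ q : Matrix (Fin n) (Fin n) k, ∀ a b : Fin n, i ≠ a → i ≠ b → a ≠ b →
      q = (-(2 : k)⁻¹) • (Fm D i a * Fm D i a + Fm D i b * Fm D i b - Fm D a b * Fm D a b) := by
    intro i
    obtain ⟨a0, ha0⟩ := exists_avoid ({i} : Finset (Fin n)) (by
      rw [Finset.card_singleton]; omega)
    rw [Finset.mem_singleton] at ha0
    obtain ⟨b0, hb0⟩ := exists_avoid ({i, a0} : Finset (Fin n)) (by
      have := Finset.card_le_two (a := i) (b := a0); omega)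
    simp only [Finset.mem_insert, Finset.mem_singleton, not_or] at hb0
    refine ⟨(-(2 : k)⁻¹) • (Fm D i a0 * Fm D i a0 + Fm D i b0 * Fm D i b0
      - Fm D a0 b0 * Fm D a0 b0), ?_⟩
    intro a b hia hib hab
    congr 1
    exact T.wd6 hn3 (Em_t _ _) (Em_t _ _) (Em_t _ _) (Em_t _ _) (Em_t _ _) (Em_t _ _)
      (by rw [Em_three (Ne.symm ha0) (Ne.symm hb0.1) (Ne.symm hb0.2), Em_three hia hib hab])
  choose q hq using hex
  have hsq : ∀ a b : Fin n, Fm D a b * Fm D a b = Fm D b a * Fm D b a := by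
    intro a b
    rw [T.Fm_swap a b, Matrix.neg_mul, Matrix.mul_neg, neg_neg]
  have hP : ∀ i j, i ≠ j → -(Fm D i j * Fm D i j) = q i + q j := by
    intro i j hij
    obtain ⟨a, ha⟩ := exists_avoid ({i, j} : Finset (Fin n)) (by
      have := Finset.card_le_two (a := i) (b := j); omega)
    simp only [Finset.mem_insert, Finset.mem_singleton, not_or] at ha
    rw [hq i j a hij (Ne.symm ha.1) (Ne.symm ha.2), hq j i a hij.symm (Ne.symm ha.2)
      (Ne.symm ha.1), ← smul_add, hsq j i]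
    have e1 : Fm D i j * Fm D i j + Fm D i a * Fm D i a - Fm D j a * Fm D j a
        + (Fm D i j * Fm D i j + Fm D j a * Fm D j a - Fm D i a * Fm D i a)
        = (2 : k) • (Fm D i j * Fm D i j) := by
      rw [two_smul]
      abel
    rw [e1, smul_smul, neg_mul, inv_mul_cancel₀ two_ne_zero, neg_smul, one_smul]
  have hFF : ∀ a b c d : Fin n, a ≠ c → a ≠ d → b ≠ c → b ≠ d →
      (Fm D a b * Fm D a b) * (Fm D c d * Fm D c d) = 0 := by
    intro a b c d h1 h2 h3 h4
    calc (Fm D a b * Fm D a b) * (Fm D c d * Fm D c d)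
        = Fm D a b * (Fm D a b * Fm D c d) * Fm D c d := by simp only [Matrix.mul_assoc]
      _ = 0 := by rw [T.Fm_disj hn3 h1 h2 h3 h4, Matrix.mul_zero, Matrix.zero_mul]
  have horth : ∀ i j, i ≠ j → q i * q j = 0 := by
    intro i c hic
    obtain ⟨a, ha⟩ := exists_avoid ({i, c} : Finset (Fin n)) (by
      have := Finset.card_le_two (a := i) (b := c); omega)
    obtain ⟨b, hb⟩ := exists_avoid ({i, c, a} : Finset (Fin n)) (by
      have := Finset.card_le_three (a := i) (b := c) (c := a); omega)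
    obtain ⟨d, hd⟩ := exists_avoid ({i, c, a, b} : Finset (Fin n)) (by
      have := Finset.card_le_four (a := i) (b := c) (c := a) (d := b); omega)
    obtain ⟨e, he⟩ := exists_avoid ({i, c, a, b, d} : Finset (Fin n)) (by
      have := Finset.card_le_five (a := i) (b := c) (c := a) (d := b) (e := d); omega)
    simp only [Finset.mem_insert, Finset.mem_singleton, not_or] at ha hb hd he
    obtain ⟨ha1, ha2⟩ := ha
    obtain ⟨hb1, hb2, hb3⟩ := hb
    obtain ⟨hd1, hd2, hd3, hd4⟩ := hd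
    obtain ⟨he1, he2, he3, he4, he5⟩ := he
    rw [hq i a b (Ne.symm ha1) (Ne.symm hb1) (Ne.symm hb3),
      hq c d e (Ne.symm hd2) (Ne.symm he2) (Ne.symm he5), Matrix.smul_mul, Matrix.mul_smul]
    have z1 := hFF i a c d hic (Ne.symm hd1) ha2 (Ne.symm hd3)
    have z2 := hFF i a c e hic (Ne.symm he1) ha2 (Ne.symm he3)
    have z3 := hFF i a d e (Ne.symm hd1) (Ne.symm he1) (Ne.symm hd3) (Ne.symm he3)
    have z4 := hFF i b c d hic (Ne.symm hd1) hb2 (Ne.symm hd4)
    have z5 := hFF i b c e hic (Ne.symm he1) hb2 (Ne.symm he4)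
    have z6 := hFF i b d e (Ne.symm hd1) (Ne.symm he1) (Ne.symm hd4) (Ne.symm he4)
    have z7 := hFF a b c d ha2 (Ne.symm hd3) hb2 (Ne.symm hd4)
    have z8 := hFF a b c e ha2 (Ne.symm he3) hb2 (Ne.symm he4)
    have z9 := hFF a b d e (Ne.symm hd3) (Ne.symm he3) (Ne.symm hd4) (Ne.symm he4)
    rw [Matrix.sub_mul, Matrix.add_mul, Matrix.mul_sub, Matrix.mul_sub, Matrix.mul_sub,
      Matrix.mul_add, Matrix.mul_add, Matrix.mul_add, z1, z2, z3, z4, z5, z6, z7, z8, z9]
    simp
  have hPP : ∀ i j, i ≠ j → (q i + q j) * (q i + q j) = q i + q j := by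
    intro i j hij
    rw [← hP i j hij, neg_mul_neg]
    calc Fm D i j * Fm D i j * (Fm D i j * Fm D i j)
        = (Fm D i j * Fm D i j * Fm D i j) * Fm D i j := by simp only [Matrix.mul_assoc]
      _ = -(Fm D i j * Fm D i j) := by rw [T.Fm_cube hij, Matrix.neg_mul]
  have hg : ∀ i j, i ≠ j → (q i * q i - q i) + (q j * q j - q j) = 0 := by
    intro i j hij
    have e1 := hPP i j hij
    rw [Matrix.add_mul, Matrix.mul_add, Matrix.mul_add, horth i j hij, horth j i hij.symm,
      add_zero, zero_add] at e1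
    rw [show (q i * q i - q i) + (q j * q j - q j) = (q i * q i + q j * q j) - (q i + q j) by
      abel, e1, sub_self]
  have hidem : ∀ i, q i * q i = q i := by
    intro i
    obtain ⟨a, ha⟩ := exists_avoid ({i} : Finset (Fin n)) (by
      rw [Finset.card_singleton]; omega)
    rw [Finset.mem_singleton] at ha
    obtain ⟨b, hb⟩ := exists_avoid ({i, a} : Finset (Fin n)) (by
      have := Finset.card_le_two (a := i) (b := a); omega)
    simp only [Finset.mem_insert, Finset.mem_singleton, not_or] at hb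
    have e1 := hg i a (Ne.symm ha)
    have e2 := hg i b (Ne.symm hb.1)
    have e3 := hg a b (Ne.symm hb.2)
    have e4 : (2 : k) • (q i * q i - q i) = 0 := by
      have : (2 : k) • (q i * q i - q i) = ((q i * q i - q i) + (q a * q a - q a))
          + ((q i * q i - q i) + (q b * q b - q b)) - ((q a * q a - q a) + (q b * q b - q b)) := by
        rw [two_smul]
        abel
      rw [this, e1, e2, e3]
      simp
    have e5 := (smul_eq_zero.mp e4).resolve_left two_ne_zero
    exact sub_eq_zero.mp e5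
  have hqt : ∀ i, (q i)ᵀ = q i := by
    intro i
    obtain ⟨a, ha⟩ := exists_avoid ({i} : Finset (Fin n)) (by
      rw [Finset.card_singleton]; omega)
    rw [Finset.mem_singleton] at ha
    obtain ⟨b, hb⟩ := exists_avoid ({i, a} : Finset (Fin n)) (by
      have := Finset.card_le_two (a := i) (b := a); omega)
    simp only [Finset.mem_insert, Finset.mem_singleton, not_or] at hb
    have e1 : ∀ a b : Fin n, (Fm D a b * Fm D a b)ᵀ = Fm D a b * Fm D a b := by
      intro a b
      rw [transpose_mul, T.Fm_t, neg_mul_neg]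
    rw [hq i a b (Ne.symm ha) (Ne.symm hb.1) (Ne.symm hb.2), transpose_smul, transpose_sub,
      transpose_add, e1, e1, e1]
  have hne : ∀ i, q i ≠ 0 := by
    intro i h0
    obtain ⟨a, ha⟩ := exists_avoid ({i} : Finset (Fin n)) (by
      rw [Finset.card_singleton]; omega)
    rw [Finset.mem_singleton] at ha
    obtain ⟨b, hb⟩ := exists_avoid ({i, a} : Finset (Fin n)) (by
      have := Finset.card_le_two (a := i) (b := a); omega)
    simp only [Finset.mem_insert, Finset.mem_singleton, not_or] at hb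
    have e1 := congrArg Matrix.trace (hq i a b (Ne.symm ha) (Ne.symm hb.1) (Ne.symm hb.2))
    rw [h0, Matrix.trace_zero, Matrix.trace_smul, Matrix.trace_sub, Matrix.trace_add,
      T.Fm_tr (Ne.symm ha), T.Fm_tr (Ne.symm hb.1), T.Fm_tr (Ne.symm hb.2), smul_eq_mul] at e1
    have h2 : (2 : k)⁻¹ * 2 = 1 := inv_mul_cancel₀ two_ne_zero
    have e2 : (1 : k) = 0 := by linear_combination -h2 - e1
    exact one_ne_zero e2
  exact ⟨q, hP, horth, hidem, hqt, hne⟩

/-- the rank two relation -/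
lemma Trip.rank2 (T : Trip D) (x y u v : Fin n → k) :
    TT (D (TT x y) *ᵥ u) (D (TT x y) *ᵥ v)
      = -(v ⬝ᵥ (D (TT x y) *ᵥ u)) • D (TT x y) := by
  set F := D (TT x y) with hF
  have hFt : Fᵀ = -F := T.mem (TT_transpose x y)
  obtain ⟨Y, hY, hYe⟩ := T.surj (TT_transpose u v)
  have h1 : F * TT u v * F = ((2 : k)⁻¹ * (F * TT u v).trace) • F := by
    have e1 := T.tri (TT x y) Y (TT_transpose x y) hY
    rw [TT_mul_mul hY, map_smul, ← hF, hYe] at e1
    have e2 : (TT x y * Y).trace = 2 * (y ⬝ᵥ (Y *ᵥ x)) := by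
      unfold TT
      rw [Matrix.sub_mul, Matrix.trace_sub, Matrix.vecMulVec_mul, Matrix.vecMulVec_mul,
        trace_vmv, trace_vmv, dotProduct_comm x, dotProduct_comm y, ← Matrix.dotProduct_mulVec,
        ← Matrix.dotProduct_mulVec, skew_dot hY x y]
      ring
    have e3 := T.tr (TT x y) Y (TT_transpose x y) hY
    rw [← hF, hYe, e2] at e3
    rw [e3, ← mul_assoc, inv_mul_cancel₀ two_ne_zero, one_mul]
    exact e1.symm
  have hvm : ∀ w : Fin n → k, w ᵥ* F = -(F *ᵥ w) := by
    intro w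
    rw [← Matrix.mulVec_transpose, hFt, Matrix.neg_mulVec]
  have h2 : F * TT u v * F = -TT (F *ᵥ u) (F *ᵥ v) := by
    unfold TT
    rw [Matrix.mul_sub, Matrix.sub_mul, Matrix.mul_vecMulVec, Matrix.mul_vecMulVec,
      Matrix.vecMulVec_mul, Matrix.vecMulVec_mul, hvm, hvm, Matrix.vecMulVec_neg,
      Matrix.vecMulVec_neg]
    abel
  have h3 : (F * TT u v).trace = 2 * (v ⬝ᵥ (F *ᵥ u)) := by
    unfold TT
    rw [Matrix.mul_sub, Matrix.trace_sub, Matrix.mul_vecMulVec, Matrix.mul_vecMulVec,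
      trace_vmv, trace_vmv, dotProduct_comm (F *ᵥ u), dotProduct_comm (F *ᵥ v),
      skew_dot hFt u v]
    ring
  have h4 : (2 : k)⁻¹ * (2 * (v ⬝ᵥ (F *ᵥ u))) = v ⬝ᵥ (F *ᵥ u) := by
    rw [← mul_assoc, inv_mul_cancel₀ two_ne_zero, one_mul]
  rw [h2, h3, h4] at h1
  rw [neg_smul, ← h1, neg_neg]

/-- the frame -/
theorem Trip.frame [IsAlgClosed k] (T : Trip D) (hn : 6 ≤ n) :
    ∃ A : Matrix (Fin n) (Fin n) k, Aᵀ * A = 1 ∧
      ∀ X ∈ gJ (1 : Matrix (Fin n) (Fin n) k), D X = A * X * Aᵀ := by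
  obtain ⟨q, hP, horth, hidem, hqt, hne⟩ := T.exists_q hn
  have hn3 : 3 ≤ n := by omega
  let o : Fin n := ⟨0, by omega⟩
  -- the first vector
  obtain ⟨w, hw⟩ := exists_form_ne (hqt o) (hne o)
  obtain ⟨c, hc⟩ := IsAlgClosed.exists_pow_nat_eq (w ⬝ᵥ (q o *ᵥ w)) (n := 2) (by norm_num)
  have hc0 : c ≠ 0 := by
    rintro rfl
    apply hw
    rw [← hc]
    ring
  set a : Fin n → k := c⁻¹ • (q o *ᵥ w) with ha
  have hqa : q o *ᵥ a = a := by
    rw [ha, Matrix.mulVec_smul, Matrix.mulVec_mulVec, hidem]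
  have haa : a ⬝ᵥ a = 1 := by
    have e1 : (q o *ᵥ w) ⬝ᵥ (q o *ᵥ w) = w ⬝ᵥ (q o *ᵥ w) := by
      rw [form_swap (η := (1 : k)) (by rw [hqt, one_smul]) (q o *ᵥ w) w, one_mul,
        Matrix.mulVec_mulVec, hidem]
    rw [ha, smul_dotProduct, dotProduct_smul, e1, ← hc, smul_eq_mul, smul_eq_mul]
    field_simp
  have hPa : ∀ j, j ≠ o → Fm D j o *ᵥ (Fm D j o *ᵥ a) = -a := by
    intro j hj
    have e1 : q j *ᵥ a = 0 := by
      rw [← hqa, Matrix.mulVec_mulVec, horth j o hj, Matrix.zero_mulVec]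
    have e2 : -(Fm D j o * Fm D j o) *ᵥ a = a := by
      rw [hP j o hj, Matrix.add_mulVec, e1, hqa, zero_add]
    rw [Matrix.mulVec_mulVec, ← neg_neg ((Fm D j o * Fm D j o) *ᵥ a), ← Matrix.neg_mulVec, e2]
  set b : Fin n → (Fin n → k) := fun j => if j = o then a else Fm D j o *ᵥ a with hb
  have hbo : b o = a := by rw [hb]; exact if_pos rfl
  have hbj : ∀ j, j ≠ o → b j = Fm D j o *ᵥ a := fun j hj => by rw [hb]; exact if_neg hj
  have hab : ∀ j, j ≠ o → a ⬝ᵥ b j = 0 := by
    intro j hj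
    rw [hbj j hj]
    exact form_self (T.Fm_t j o) a
  have hF0 : ∀ j, j ≠ o → Fm D j o = TT (b j) a := by
    intro j hj
    have e1 := T.rank2 (ev k j) (ev k o) (-(Fm D j o *ᵥ a)) a
    have e2 : D (TT (ev k j) (ev k o)) = Fm D j o := rfl
    rw [e2, Matrix.mulVec_neg, hPa j hj, neg_neg, haa, neg_one_smul, ← hbj j hj] at e1
    rw [TT_swap, e1, neg_neg]
  have hF : ∀ i j, i ≠ j → Fm D i j = TT (b i) (b j) := by
    intro i j hij
    by_cases hj : j = o
    · rw [hj, hbo]
      exact hF0 i (by rw [← hj]; exact hij)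
    · by_cases hi : i = o
      · rw [hi, hbo, T.Fm_swap, hF0 j hj, ← TT_swap]
      · have e1 : Em k i j = Em k i o * Em k o j - Em k o j * Em k i o := by
          have e2 : Em k i o * Em k o j - Em k o j * Em k i o
              = TT (Em k i o *ᵥ ev k o) (ev k j) + TT (ev k o) (Em k i o *ᵥ ev k j) :=
            TT_bracket (Em_t i o) _ _
          rw [e2]
          unfold Em
          rw [TT_mulVec, TT_mulVec, ev_dot_same, ev_dot_ne hi, ev_dot_ne (Ne.symm hj),
            ev_dot_ne hij, one_smul, zero_smul, zero_smul, sub_zero, sub_zero, TT_swap _ 0,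
            TT_zero_left, neg_zero, add_zero]
        have e3 : Fm D i j = Fm D i o * Fm D o j - Fm D o j * Fm D i o := by
          unfold Fm
          rw [e1, T.lie (Em_t i o) (Em_t o j)]
        have e4 : Fm D o j = TT a (b j) := by
          rw [T.Fm_swap, hF0 j hj, ← TT_swap]
        have e6 : b i ⬝ᵥ a = 0 := by rw [dotProduct_comm]; exact hab i hi
        rw [e3, e4, TT_bracket (T.Fm_t i o), hF0 i hi, TT_mulVec, TT_mulVec, haa, e6, hab j hj,
          one_smul, zero_smul, zero_smul, sub_zero, zero_sub, ← neg_smul, TT_smul_right, TT_self,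
          smul_zero, add_zero]
  -- orthonormality
  have hoo : ∀ i j, b i ⬝ᵥ b j = if i = j then 1 else 0 := by
    have hdot : ∀ i j, i ≠ o → j ≠ o → b i ⬝ᵥ b j = -(a ⬝ᵥ (Fm D i o *ᵥ (Fm D j o *ᵥ a))) := by
      intro i j hi hj
      rw [hbj i hi, hbj j hj]
      have e1 := skew_dot (T.Fm_t i o) a (Fm D j o *ᵥ a)
      rw [e1, neg_neg, dotProduct_comm]
    intro i j
    by_cases hij : i = j
    · rw [if_pos hij, ← hij]
      by_cases hi : i = o
      · rw [hi, hbo, haa]
      · rw [hdot i i hi hi, hPa i hi, dotProduct_neg, neg_neg, haa]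
    · rw [if_neg hij]
      by_cases hi : i = o
      · rw [hi, hbo]
        exact hab j (by rw [← hi]; exact Ne.symm hij)
      · by_cases hj : j = o
        · rw [hj, hbo, dotProduct_comm]
          exact hab i hi
        · obtain ⟨l, hl⟩ := exists_avoid ({i, j, o} : Finset (Fin n)) (by
            have := Finset.card_le_three (a := i) (b := j) (c := o); omega)
          simp only [Finset.mem_insert, Finset.mem_singleton, not_or] at hl
          obtain ⟨hl1, hl2, hl3⟩ := hl
          have e1 : Fm D i o * Fm D j o = Fm D i l * Fm D j l :=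
            T.wd2 hn3 (Em_t _ _) (Em_t _ _) (Em_t _ _) (Em_t _ _)
              (by rw [Em_mul_common hij hi hj, Em_mul_common hij (Ne.symm hl1) (Ne.symm hl2)])
          have e2 : Fm D j l *ᵥ a = 0 := by
            rw [hF j l (Ne.symm hl2), TT_mulVec, dotProduct_comm (b l), dotProduct_comm (b j),
              hab l hl3, hab j hj, zero_smul, zero_smul, sub_zero]
          rw [hdot i j hi hj, Matrix.mulVec_mulVec, e1, ← Matrix.mulVec_mulVec, e2,
            Matrix.mulVec_zero, dotProduct_zero, neg_zero]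
  refine ⟨Matrix.of fun x j => b j x, ?_, ?_⟩
  · ext i j
    rw [Matrix.mul_apply, Matrix.one_apply]
    exact hoo i j
  · set A : Matrix (Fin n) (Fin n) k := Matrix.of fun x j => b j x with hA
    have hAe : ∀ j, A *ᵥ ev k j = b j := by
      intro j
      unfold ev
      rw [Matrix.mulVec_single_one]
      rfl
    have hAT : ∀ u v : Fin n → k, A * TT u v * Aᵀ = TT (A *ᵥ u) (A *ᵥ v) := by
      intro u v
      unfold TT
      rw [Matrix.mul_sub, Matrix.sub_mul, Matrix.mul_vecMulVec, Matrix.mul_vecMulVec,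
        Matrix.vecMulVec_mul, Matrix.vecMulVec_mul, Matrix.vecMul_transpose,
        Matrix.vecMul_transpose]
    let P : Submodule k (Matrix (Fin n) (Fin n) k) := LinearMap.ker (D - lrm A Aᵀ)
    have hle : gJ (1 : Matrix (Fin n) (Fin n) k) ≤ P := by
      refine so_le P fun i j hij => ?_
      rw [LinearMap.mem_ker, LinearMap.sub_apply, lrm_apply, hAT, hAe, hAe, ← hF i j hij]
      exact sub_self _
    intro X hX
    have h1 := hle hX
    rw [LinearMap.mem_ker, LinearMap.sub_apply, lrm_apply] at h1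
    exact sub_eq_zero.mp h1

end Frame

end Pool.Agent.Helper14.RG.AU
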