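import Pool.Agent.Helper14.RG.AU.FacU

set_option autoImplicit false

/-!
# Isomorphisms between Lie algebras `so_m` and `so_n` are standard
-/

namespace Pool.Agent.Helper14.RG.AU

open Matrix Pool.Agent.Helper97.CG Pool.Agent.Helper14.RG

variable {k : Type*} [Field k] [CharZero k]

lemma TD_so (n : ℕ) : TD (1 : Matrix (Fin n) (Fin n) k) ((n : k) - 2 * 1) ((n : k) - 8 * 1) 3
    ((2 : k)⁻¹ * ((n : k) * n - 1 * n)) :=
  TD_form (one_mul 1) (by rw [transpose_one, one_smul])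
    (by rw [Matrix.det_one]; exact one_ne_zero)

theorem lieStd_one [IsAlgClosed k] {m n : ℕ} (hm : 6 ≤ m) (hn : 6 ≤ n) (hn8 : n ≠ 8) :
    LieStd (1 : Matrix (Fin m) (Fin m) k) (1 : Matrix (Fin n) (Fin n) k) := by
  intro D h1 h2 h3 h4
  have hD : LIso (1 : Matrix (Fin m) (Fin m) k) (1 : Matrix (Fin n) (Fin n) k) D := ⟨h1, h2, h3, h4⟩
  have hmn : n = m := by
    have e1 := (trRel (TD_so m) (TD_so n) hD).dim
    have e2 : (n : k) * n + m = (m : k) * m + n := by
      have h2 : (2 : k)⁻¹ ≠ 0 := inv_ne_zero two_ne_zero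
      have e3 := mul_left_cancel₀ h2 e1
      linear_combination e3
    have e3 : n * n + m = m * m + n := by
      have e4 : ((n * n + m : ℕ) : k) = ((m * m + n : ℕ) : k) := by
        push_cast
        exact e2
      exact Nat.cast_injective e4
    rcases Nat.lt_trichotomy n m with h | h | h
    · nlinarith
    · exact h
    · nlinarith
  subst hmn
  have T := trip_of (by omega) hn8 hD
  obtain ⟨A, hA, hDA⟩ := T.frame (by omega)
  exact ⟨A, Aᵀ, mul_eq_one_comm.mp hA, hA, Or.inl hDA⟩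

universe u

theorem lieStd_so {k : Type u} [Field k] [IsAlgClosed k] [CharZero k] {m n : ℕ} (hm : 6 ≤ m)
    (hn : 6 ≤ n) (hn8 : n ≠ 8) {J : Matrix (Fin m) (Fin m) k} {J' : Matrix (Fin n) (Fin n) k}
    (hJ : Jᵀ = J) (hdet : J.det ≠ 0) (hJ' : J'ᵀ = J') (hdet' : J'.det ≠ 0) : LieStd J J' := by
  obtain ⟨P, Q, hPQ, hP⟩ := exists_orthonormal hJ hdet
  obtain ⟨P', Q', hPQ', hP'⟩ := exists_orthonormal hJ' hdet'
  exact lieStd_tr hPQ hP hPQ' hP' (lieStd_one hm hn hn8)

end Pool.Agent.Helper14.RG.AU
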