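import Pool.Agent.Helper14.RG.AU.Back2

set_option autoImplicit false

/-!
# The intrinsic theorem from the facts about the Lie algebras
-/

namespace Pool.Agent.Helper14.RG.AU

open Matrix Pool.Agent.Helper97.CG Pool.Agent.Helper14.RG

section Sep

variable {k : Type*} [Field k] {G Q : Type*} [Group G] [Group Q]

/-- regular functions separate the points of a quotient by a finite group -/
lemma sep_quot {B : Subalgebra k (G → k)} (hB : RStable B)
    (hsep : ∀ x y : G, x ≠ y → ∃ b ∈ B, b x ≠ b y) (π : G →* Q) (hπ : Function.Surjective π)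
    [Finite π.ker] {q q' : Q} (h : q ≠ q') : ∃ f ∈ quotAlg B π, f q ≠ f q' := by
  classical
  have := Fintype.ofFinite π.ker
  obtain ⟨x, rfl⟩ := hπ q
  obtain ⟨y, rfl⟩ := hπ q'
  have h1 : ∀ z : π.ker, ∃ g ∈ B, g (x * z) = 0 ∧ g y = 1 := by
    intro z
    have hne : x * z ≠ y := by
      intro e
      apply h
      rw [← e, map_mul, MonoidHom.mem_ker.mp z.2, mul_one]
    obtain ⟨b, hb, hbne⟩ := hsep _ _ hne
    refine ⟨fun s => (b y - b (x * z))⁻¹ * (b s - b (x * z)), ?_, ?_, ?_⟩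
    · exact B.mul_mem (B.algebraMap_mem _) (B.sub_mem hb (B.algebraMap_mem _))
    · beta_reduce
      rw [sub_self, mul_zero]
    · exact inv_mul_cancel₀ (sub_ne_zero.mpr (Ne.symm hbne))
  choose g hgB hg0 hg1 using h1
  let h0 : G → k := fun s => ∏ z : π.ker, g z s
  have hh0 : h0 ∈ B := by
    have e : h0 = ∏ z : π.ker, g z := by
      funext s
      rw [Finset.prod_apply]
    rw [e]
    exact B.prod_mem fun z _ => hgB z
  have hx : ∀ z : π.ker, h0 (x * z) = 0 := fun z =>
    Finset.prod_eq_zero (Finset.mem_univ z) (hg0 z)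
  have hy : h0 y = 1 := Finset.prod_eq_one fun z _ => hg1 z
  let F : G → k := fun s => 1 - ∏ z : π.ker, (1 - h0 (s * z))
  have hF : F ∈ B := by
    refine B.sub_mem B.one_mem ?_
    have e : (fun s => ∏ z : π.ker, (1 - h0 (s * z))) = ∏ z : π.ker, (fun s => 1 - h0 (s * z)) := by
      funext s
      rw [Finset.prod_apply]
    rw [e]
    exact B.prod_mem fun z _ => B.sub_mem B.one_mem (hB _ _ hh0)
  have hinv : ∀ s, ∀ w ∈ π.ker, F (s * w) = F s := by
    intro s w hw
    show 1 - ∏ z : π.ker, (1 - h0 (s * w * z)) = 1 - ∏ z : π.ker, (1 - h0 (s * z))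
    congr 1
    refine Fintype.prod_equiv (Equiv.mulLeft (⟨w, hw⟩ : π.ker)) _ _ fun z => ?_
    show 1 - h0 (s * w * z) = 1 - h0 (s * ((⟨w, hw⟩ : π.ker) * z : π.ker))
    rw [Subgroup.coe_mul, mul_assoc]
  choose r hr using hπ
  have hFr : ∀ s, F (r (π s)) = F s := by
    intro s
    have h2 : s⁻¹ * r (π s) ∈ π.ker := by
      rw [MonoidHom.mem_ker, map_mul, map_inv, hr, inv_mul_cancel]
    have h3 := hinv s _ h2
    rw [mul_inv_cancel_left] at h3
    exact h3
  refine ⟨fun q => F (r q), ?_, ?_⟩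
  · show (fun s => F (r (π s))) ∈ B
    have e : (fun s => F (r (π s))) = F := funext hFr
    rw [e]
    exact hF
  · beta_reduce
    rw [hFr, hFr]
    have e1 : F x = 0 := by
      show 1 - ∏ z : π.ker, (1 - h0 (x * z)) = 0
      rw [Finset.prod_eq_one (fun z _ => by rw [hx z, sub_zero]), sub_self]
    have e2 : F y = 1 := by
      show 1 - ∏ z : π.ker, (1 - h0 (y * z)) = 1
      rw [Finset.prod_eq_zero (Finset.mem_univ (1 : π.ker)) (by
        rw [OneMemClass.coe_one, mul_one, hy, sub_self]), sub_zero]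
    rw [e1, e2]
    exact zero_ne_one

end Sep

section Cen

variable {k : Type*} [Field k] {n : ℕ} {J : Matrix (Fin n) (Fin n) k}

lemma LF.finite_center (h : LF J) : Finite (Subgroup.center (IsoG J)) := by
  classical
  rcases Nat.eq_zero_or_pos n with h0 | h0
  · subst h0
    have : Subsingleton (IsoG J) := ⟨fun x y => isoHom_inj J (Subsingleton.elim _ _)⟩
    infer_instance
  choose c hc using fun z : Subgroup.center (IsoG J) => h.center z.2
  refine Finite.of_injective (β := Polynomial.nthRootsFinset n (1 : k)) (fun z => ⟨c z, ?_⟩) ?_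
  · rw [Polynomial.mem_nthRootsFinset h0]
    have h1 := congrArg Matrix.det (hc z)
    rw [isoHom_det, Matrix.det_smul, Matrix.det_one, Fintype.card_fin, mul_one] at h1
    exact h1.symm
  · intro z z' hz
    simp only [Subtype.mk.injEq] at hz
    apply Subtype.ext
    apply isoHom_inj J
    rw [hc z, hc z', hz]

end Cen

section

variable {k : Type*} [Field k] [CharZero k] {ι : Type*} [DecidableEq ι] [Fintype ι] {n : ι → ℕ}
  {J : ∀ i, Matrix (Fin (n i)) (Fin (n i)) k} {Q : Type*} [Group Q]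
  {π : (∀ i, IsoG (J i)) →* Q} {σ : Q ≃* Q} {r : Q → ∀ i, IsoG (J i)}
  {D : ∀ i, Mt k n →ₗ[k] Matrix (Fin (n i)) (Fin (n i)) k}

omit [CharZero k] [Fintype ι] in
lemma finite_center_prod [Finite ι] (hF : ∀ i, LF (J i)) :
    Finite (Subgroup.center (∀ i, IsoG (J i))) := by
  have := fun i => (hF i).finite_center
  refine Finite.of_injective
    (fun (z : Subgroup.center (∀ i, IsoG (J i))) (i : ι) =>
      (⟨z.1 i, center_comp z.2 i⟩ : Subgroup.center (IsoG (J i)))) ?_
  intro z z' h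
  apply Subtype.ext
  funext i
  exact congrArg Subtype.val (congrFun h i)

omit [CharZero k] in
lemma entries_sep (x y : ∀ i, IsoG (J i)) (h : x ≠ y) :
    ∃ b ∈ prodAlg (fun i => mAlg (isoHom (J i))), b x ≠ b y := by
  obtain ⟨i, hi⟩ := Function.ne_iff.mp h
  by_contra hcon
  push Not at hcon
  apply hi
  apply isoHom_inj (J i)
  ext a b
  exact hcon _ (mem_prodAlg (fun i => mAlg (isoHom (J i))) i (iso_entry_mem (J i) a b))

theorem Setup.exact (S : Setup J π σ r D)
    (hreg : ∀ f ∈ quotAlg (prodAlg fun i => mAlg (isoHom (J i))) π,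
      (fun q => f (σ q)) ∈ quotAlg (prodAlg fun i => mAlg (isoHom (J i))) π)
    (p : Equiv.Perm ι) (τ : ∀ i, IsoG (J (p i)) ≃* IsoG (J i)) (hτ : ∀ i, IsStdIso (τ i))
    (hrel : ∀ i s, ∃ c : k, isoHom (J i) (r (σ (π s)) i) = c • isoHom (J i) (τ i (s (p i))))
    (s : ∀ i, IsoG (J i)) : σ (π s) = π (fun i => τ i (s (p i))) := by
  classical
  set B := prodAlg fun i => mAlg (isoHom (J i)) with hB
  have hfc := finite_center_prod S.hF
  have hfk : Finite π.ker := Finite.of_injective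
    (fun z : π.ker => (⟨z.1, S.hZ z.2⟩ : Subgroup.center (∀ i, IsoG (J i))))
    (fun z z' h => Subtype.ext (congrArg
      (Subtype.val : Subgroup.center (∀ i, IsoG (J i)) → ∀ i, IsoG (J i)) h))
  have hBst : RStable B := RStable.prod fun i => iso_rstable _
  have hirr : Irr B := Irr.prod fun i => (S.hF i).irr
  let T : (∀ i, IsoG (J i)) → ∀ i, IsoG (J i) := fun s i => τ i (s (p i))
  have hT : ∀ s t, T (s * t) = T s * T t := by
    intro s t
    funext i
    exact map_mul (τ i) _ _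
  have hTreg : ∀ b ∈ B, (fun s => b (T s)) ∈ B := by
    let B' : Subalgebra k ((∀ i, IsoG (J i)) → k) :=
      { carrier := {b | (fun s => b (T s)) ∈ B}
        mul_mem' := fun {a b} ha hb => B.mul_mem ha hb
        add_mem' := fun {a b} ha hb => B.add_mem ha hb
        algebraMap_mem' := fun r => B.algebraMap_mem r }
    have h1 : B ≤ B' := by
      refine prodAlg_le_entries J fun i a b => ?_
      exact mem_prodAlg (fun i => mAlg (isoHom (J i))) (p i)
        ((hτ i).reg _ (iso_entry_mem (J i) a b))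
    exact fun b hb => h1 hb
  -- the difference
  let ζ : (∀ i, IsoG (J i)) → Q := fun s => σ (π s) * (π (T s))⁻¹
  have hzc : ∀ s, ∃ z ∈ Subgroup.center (∀ i, IsoG (J i)), π z = ζ s := by
    intro s
    refine ⟨r (σ (π s)) * (T s)⁻¹, center_of_comp fun i => ?_, ?_⟩
    · obtain ⟨c, hc⟩ := hrel i s
      refine center_of_scalar (c := c) ?_
      rw [Pi.mul_apply, Pi.inv_apply, map_mul, hc, Matrix.smul_mul]
      show c • (isoHom (J i) (T s i) * isoHom (J i) (T s i)⁻¹) = _
      rw [iso_mul_inv]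
    · rw [map_mul, map_inv, S.hr]
  have hζc : ∀ s, ζ s ∈ Subgroup.center Q := by
    intro s
    obtain ⟨z, hz, e⟩ := hzc s
    rw [← e, Subgroup.mem_center_iff]
    intro q
    obtain ⟨x, rfl⟩ := S.hπ q
    rw [← map_mul, ← map_mul, Subgroup.mem_center_iff.mp hz x]
  have hζ : ∀ s t, ζ (s * t) = ζ s * ζ t := by
    intro s t
    have h1 : ζ (s * t) = σ (π s) * ζ t * (π (T s))⁻¹ := by
      show σ (π (s * t)) * (π (T (s * t)))⁻¹ = σ (π s) * (σ (π t) * (π (T t))⁻¹) * (π (T s))⁻¹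
      rw [hT, map_mul, map_mul, map_mul, _root_.mul_inv_rev]
      group
    rw [h1, Subgroup.mem_center_iff.mp (hζc t), mul_assoc]
    exact (Subgroup.mem_center_iff.mp (hζc t) _).symm
  have hζ1 : ζ 1 = 1 := by
    have h1 := hζ 1 1
    rw [mul_one] at h1
    exact left_eq_mul.mp h1
  have hζinv : ∀ s, ζ s⁻¹ = (ζ s)⁻¹ := by
    intro s
    have h1 := hζ s⁻¹ s
    rw [inv_mul_cancel, hζ1] at h1
    exact eq_inv_of_mul_eq_one_left h1.symm
  have hfin : (Set.range ζ).Finite := by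
    refine Set.Finite.subset (s := π '' (Subgroup.center (∀ i, IsoG (J i)) : Set _)) ?_ ?_
    · exact Set.Finite.image _ (Set.toFinite _)
    · rintro _ ⟨s, rfl⟩
      obtain ⟨z, hz, e⟩ := hzc s
      exact ⟨z, hz, e⟩
  by_contra hne
  obtain ⟨f, hf, hfne⟩ := sep_quot hBst entries_sep π S.hπ hne
  let F : (∀ i, IsoG (J i)) → k := fun s => f (σ (π s)) - f (π (T s))
  have hFB : F ∈ B := B.sub_mem (hreg f hf) (hTreg _ hf)
  have hF0 : ∀ s, ζ s = 1 → F s = 0 := by
    intro s h1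
    have h2 : σ (π s) = π (T s) := mul_inv_eq_one.mp h1
    show f (σ (π s)) - f (π (T s)) = 0
    rw [h2, sub_self]
  let W : Finset Q := hfin.toFinset
  have hW : ∀ w ∈ W, ∃ s, ζ s = w := fun w hw => (Set.Finite.mem_toFinset hfin).mp hw
  choose! sw hsw using hW
  let Ψ : ∀ w : Q, B := fun w => ⟨fun x => F (x * (sw w)⁻¹), hBst _ _ hFB⟩
  haveI := hirr.isDomain
  have hΨ : ∀ w ∈ W, Ψ w ≠ 0 := by
    intro w _ h0
    have h1 := congrFun (congrArg Subtype.val h0) (s * sw w)
    have h2 : F (s * sw w * (sw w)⁻¹) = 0 := h1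
    rw [mul_inv_cancel_right] at h2
    exact hfne (sub_eq_zero.mp h2)
  have hprod : ∏ w ∈ W, Ψ w = 0 := by
    apply Subtype.ext
    funext x
    have h1 : ((∏ w ∈ W, Ψ w : B) : (∀ i, IsoG (J i)) → k) x
        = ∏ w ∈ W, (Ψ w : (∀ i, IsoG (J i)) → k) x := by
      rw [SubmonoidClass.coe_finset_prod, Finset.prod_apply]
    rw [h1]
    have hx : ζ x ∈ W := (Set.Finite.mem_toFinset hfin).mpr ⟨x, rfl⟩
    refine Finset.prod_eq_zero hx ?_
    show F (x * (sw (ζ x))⁻¹) = 0
    apply hF0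
    rw [hζ, hζinv, hsw _ hx, mul_inv_cancel]
  exact (Finset.prod_ne_zero_iff.mpr hΨ) hprod

/-- The intrinsic theorem. -/
theorem intrinsic_of_facts [IsAlgClosed k] (hF : ∀ i, LF (J i))
    (hJ : ∀ i, J i = 0 ∨ FormFacts (J i))
    (hstd : ∀ i j, gJ (J i) ≠ ⊥ → gJ (J j) ≠ ⊥ → LieStd (J j) (J i))
    (π : (∀ i, IsoG (J i)) →* Q) (hπ : Function.Surjective π)
    (hZ : π.ker ≤ Subgroup.center (∀ i, IsoG (J i))) (σ : Q ≃* Q)
    (hreg : ∀ f ∈ quotAlg (prodAlg fun i => mAlg (isoHom (J i))) π,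
      (fun q => f (σ q)) ∈ quotAlg (prodAlg fun i => mAlg (isoHom (J i))) π)
    (M : ℕ) (hM : 0 < M) (hfin : ∀ x, σ^[M] x = x) :
    RationalQuotient (quotAlg (prodAlg fun i => mAlg (isoHom (J i))) π : Set (Q → k))
      (fixSub σ) := by
  choose r hr using hπ
  have hact := fun i => isAct_lift (σ := σ) hF hZ hreg hr i
  choose D hD using fun i => (hact i).exists_diff
  have S : Setup J π σ r D := ⟨hF, hZ, fun q => ⟨r q, hr q⟩, hr, hact, hD⟩
  obtain ⟨p, τ, hτ, hrel⟩ := S.exists_tau hstd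
  exact iso_rational n J hJ π S.hπ hZ σ M hM hfin p τ hτ (S.exact hreg p τ hτ hrel)

end

end Pool.Agent.Helper14.RG.AU
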