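import Pool.Agent.Helper14.RG.AU.Lift

set_option autoImplicit false

/-!
# Injectivity of the differential of an automorphism
-/

namespace Pool.Agent.Helper14.RG.AU

open Polynomial Matrix Pool.Agent.Helper97.CG Pool.Agent.Helper14.RG

section Const

variable {k : Type*} [Field k] [CharZero k] {ι : Type*} [DecidableEq ι] {n : ι → ℕ}
  {J : ∀ i, Matrix (Fin (n i)) (Fin (n i)) k} {m : ℕ}
  {Φ : (∀ i, IsoG (J i)) → Matrix (Fin m) (Fin m) k → Matrix (Fin m) (Fin m) k}
  {D : Mt k n →ₗ[k] Matrix (Fin m) (Fin m) k}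

/-- if the differential kills a root element, its group acts trivially -/
lemma act_trivial (h : IsAct J Φ) (hD : IsDiff J Φ D) (j : ι)
    {X : Matrix (Fin (n j)) (Fin (n j)) k} (hX : X ∈ rt (J j)) (h0 : D (Pi.single j X) = 0)
    (t : k) (Y : Matrix (Fin m) (Fin m) k) : Φ (Pi.mulSingle j (uni hX t)) Y = Y := by
  have h1 : ∀ Y, Dv (fun t => Φ (Pi.mulSingle j (uni hX t)) Y) 0 := by
    intro Y
    refine (hD.2 _ _ (cv_uni j hX) Y).congr (fun t => rfl) ?_
    rw [h0, Matrix.zero_mul, Matrix.mul_zero, sub_zero]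
  have h2 := (h1 Y).const_of (fun t => ?_) t
  · beta_reduce at h2
    rw [h2, uni_zero, Pi.mulSingle_one, h.one]
  · refine ((h1 Y).lin (h.lin (Pi.mulSingle j (uni hX t)))).congr (fun u => ?_)
      (map_zero _).symm
    show Φ (Pi.mulSingle j (uni hX (t + u))) Y = Φ (Pi.mulSingle j (uni hX t)) _
    rw [uni_add, Pi.mulSingle_mul, h.mul]

end Const

section Comm

variable {k : Type*} [Field k] {n : ℕ} {J : Matrix (Fin n) (Fin n) k}

lemma comm_of_root (hsp : Spans J) {M : Matrix (Fin n) (Fin n) k}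
    (h : ∀ Y ∈ rt J, M * Y = Y * M) {X : Matrix (Fin n) (Fin n) k} (hX : X ∈ gJ J) :
    M * X = X * M := by
  have h2 := hsp hX
  induction h2 using Submodule.span_induction with
  | mem x hx => exact h x hx
  | zero => rw [Matrix.mul_zero, Matrix.zero_mul]
  | add x y h1 h2 hx hy =>
    have hr : Submodule.span k (rt J) ≤ gJ J := Submodule.span_le.mpr fun x hx => hx.1
    rw [Matrix.mul_add, Matrix.add_mul, hx (hr h1), hy (hr h2)]
  | smul a x h1 hx =>
    have hr : Submodule.span k (rt J) ≤ gJ J := Submodule.span_le.mpr fun x hx => hx.1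
    rw [Matrix.mul_smul, Matrix.smul_mul, hx (hr h1)]

lemma scalar_traceless [CharZero k] {X : Matrix (Fin n) (Fin n) k} {c : k}
    (hc : X = c • (1 : Matrix (Fin n) (Fin n) k)) (h : X.trace = 0) : X = 0 := by
  rcases Nat.eq_zero_or_pos n with h0 | h0
  · ext a b
    exact absurd a.isLt (by omega)
  have hn0 : (n : k) ≠ 0 := by rw [Nat.cast_ne_zero]; omega
  rw [hc, Matrix.trace_smul, Matrix.trace_one, Fintype.card_fin, smul_eq_mul] at h
  rw [hc, (mul_eq_zero.mp h).resolve_right hn0, zero_smul]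

lemma exists_root_ne (hsp : Spans J) {X : Matrix (Fin n) (Fin n) k} (hX : X ∈ gJ J)
    (h0 : X ≠ 0) : ∃ Y ∈ rt J, Y ≠ 0 := by
  by_contra hcon
  push Not at hcon
  apply h0
  have h1 : Submodule.span k (rt J) ≤ ⊥ := Submodule.span_le.mpr fun x hx => by
    rw [hcon x hx]
    exact zero_mem _
  exact (Submodule.mem_bot k).mp (h1 (hsp hX))

end Comm

section Inj

variable {k : Type*} [Field k] [CharZero k] {ι : Type*} [DecidableEq ι] [Fintype ι] {n : ι → ℕ}
  {J : ∀ i, Matrix (Fin (n i)) (Fin (n i)) k} {Q : Type*} [Group Q]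
  {π : (∀ i, IsoG (J i)) →* Q} {σ : Q ≃* Q} {r : Q → ∀ i, IsoG (J i)}
  {D : ∀ i, Mt k n →ₗ[k] Matrix (Fin (n i)) (Fin (n i)) k}

omit [Fintype ι] in
/-- a root element which is central modulo the centre vanishes -/
lemma root_zero_of_central (hF : ∀ i, LF (J i))
    (hZ : π.ker ≤ Subgroup.center (∀ i, IsoG (J i))) (j : ι)
    {X : Matrix (Fin (n j)) (Fin (n j)) k} (hX : X ∈ rt (J j))
    (h : π (Pi.mulSingle j (uni hX 1)) ∈ Subgroup.center Q) : X = 0 := by
  rcases Nat.eq_zero_or_pos (n j) with h0 | h0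
  · ext a b
    exact absurd a.isLt (by omega)
  have hn0 : ((n j : ℕ) : k) ≠ 0 := by rw [Nat.cast_ne_zero]; omega
  have hcomm : ∀ g : IsoG (J j), X * isoHom (J j) g = isoHom (J j) g * X := by
    intro g
    have h1 : π (Pi.mulSingle j (uni hX 1) * Pi.mulSingle j g)
        = π (Pi.mulSingle j g * Pi.mulSingle j (uni hX 1)) := by
      rw [map_mul, map_mul]
      exact (Subgroup.mem_center_iff.mp h _).symm
    let z : ∀ i, IsoG (J i) := (Pi.mulSingle j (uni hX 1) * Pi.mulSingle j g)
        * (Pi.mulSingle j g * Pi.mulSingle j (uni hX 1))⁻¹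
    have h2 : z ∈ π.ker := by
      show π ((Pi.mulSingle j (uni hX 1) * Pi.mulSingle j g)
        * (Pi.mulSingle j g * Pi.mulSingle j (uni hX 1))⁻¹) = 1
      rw [map_mul, map_inv, h1, mul_inv_cancel]
    obtain ⟨c, hc⟩ := (hF j).center (center_comp (hZ h2) j)
    have h3 : isoHom (J j) (uni hX 1 * g) = c • isoHom (J j) (g * uni hX 1) := by
      have h4 : uni hX 1 * g = z j * (g * uni hX 1) := by
        show _ = ((Pi.mulSingle j (uni hX 1) * Pi.mulSingle j g : ∀ i, IsoG (J i)) j
          * ((Pi.mulSingle j g * Pi.mulSingle j (uni hX 1) : ∀ i, IsoG (J i)) j)⁻¹)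
            * (g * uni hX 1)
        rw [Pi.mul_apply, Pi.mul_apply, Pi.mulSingle_eq_same,
          Pi.mulSingle_eq_same, inv_mul_cancel_right]
      rw [h4, map_mul, hc, Matrix.smul_mul, Matrix.one_mul]
    rw [map_mul, map_mul, uni_coe, one_smul] at h3
    -- take traces of `g⁻¹ (1 + X) g = c (1 + X)`
    have h5 : isoHom (J j) g⁻¹ * ((1 + X) * isoHom (J j) g) = c • (1 + X) := by
      rw [h3, Matrix.mul_smul, ← Matrix.mul_assoc, iso_inv_mul, Matrix.one_mul]
    have h6 := congrArg Matrix.trace h5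
    rw [Matrix.trace_mul_comm, Matrix.mul_assoc, iso_mul_inv, Matrix.mul_one, Matrix.trace_smul,
      Matrix.trace_add, Matrix.trace_one, Fintype.card_fin, hX.1.2, add_zero, smul_eq_mul] at h6
    have h7 : c = 1 := by
      have h8 : (1 - c) * (n j : k) = 0 := by linear_combination h6
      rcases mul_eq_zero.mp h8 with h9 | h9
      · exact (sub_eq_zero.mp h9).symm
      · exact absurd h9 hn0
    rw [h7, one_smul, Matrix.add_mul, Matrix.mul_add, Matrix.one_mul, Matrix.mul_one] at h3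
    exact add_left_cancel h3
  obtain ⟨c, hc⟩ := (hF j).gc X hcomm
  have h1 := hX.1.2
  rw [hc, Matrix.trace_smul, Matrix.trace_one, Fintype.card_fin, smul_eq_mul] at h1
  rw [hc, (mul_eq_zero.mp h1).resolve_right hn0, zero_smul]

/-- conjugation by an element of a factor -/
lemma cj_single (j : ι) (g : IsoG (J j)) (X : Matrix (Fin (n j)) (Fin (n j)) k) :
    cj (Pi.mulSingle j g : ∀ i, IsoG (J i)) (Pi.single j X)
      = Pi.single j (isoHom (J j) g * X * isoHom (J j) g⁻¹) := by
  funext i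
  show isoHom (J i) ((Pi.mulSingle j g : ∀ i, IsoG (J i)) i) * (Pi.single j X : Mt k n) i
    * isoHom (J i) ((Pi.mulSingle j g : ∀ i, IsoG (J i)) i)⁻¹ = _
  by_cases hij : i = j
  · subst hij
    rw [Pi.mulSingle_eq_same, Pi.single_eq_same, Pi.single_eq_same]
  · rw [Pi.mulSingle_eq_of_ne hij, Pi.single_eq_of_ne hij, Pi.single_eq_of_ne hij, Matrix.mul_zero,
      Matrix.zero_mul]

lemma single_mem_VJ {j : ι} {X : Matrix (Fin (n j)) (Fin (n j)) k} (hX : X ∈ gJ (J j)) :
    (Pi.single j X : Mt k n) ∈ VJ J := by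
  intro i
  by_cases hij : i = j
  · subst hij
    rw [Pi.single_eq_same]
    exact hX
  · rw [Pi.single_eq_of_ne hij]
    exact zero_mem _

theorem diff_inj (hF : ∀ i, LF (J i)) (hZ : π.ker ≤ Subgroup.center (∀ i, IsoG (J i)))
    (hπ : Function.Surjective π) (hr : ∀ q, π (r q) = q)
    (hact : ∀ i, IsAct J (fun s Y => Adx (r (σ (π s))) i Y))
    (hD : ∀ i, IsDiff J (fun s Y => Adx (r (σ (π s))) i Y) (D i)) {X : Mt k n} (hX : X ∈ VJ J)
    (h0 : ∀ i, D i X = 0) : X = 0 := by
  have hsp : ∀ i, Spans (J i) := fun i => (hF i).span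
  by_contra hne
  obtain ⟨j, hj⟩ := Function.ne_iff.mp hne
  rw [Pi.zero_apply] at hj
  -- the stable subspace of the factor `j`
  let I : Submodule k (Matrix (Fin (n j)) (Fin (n j)) k) :=
    { carrier := {Y | Y ∈ gJ (J j) ∧ ∀ i, D i (Pi.single j Y) = 0}
      add_mem' := by
        rintro Y Z ⟨h1, h2⟩ ⟨h3, h4⟩
        refine ⟨add_mem h1 h3, fun i => ?_⟩
        rw [Pi.single_add, map_add, h2, h4, add_zero]
      zero_mem' := ⟨zero_mem _, fun i => by rw [Pi.single_zero, map_zero]⟩
      smul_mem' := by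
        rintro a Y ⟨h1, h2⟩
        refine ⟨(gJ (J j)).smul_mem a h1, fun i => ?_⟩
        have : (Pi.single j (a • Y) : Mt k n) = a • Pi.single j Y := by rw [← Pi.single_smul]
        rw [this, map_smul, h2, smul_zero] }
  have hIle : I ≤ gJ (J j) := fun Y hY => hY.1
  have hIst : ∀ (g : IsoG (J j)), ∀ Y ∈ I, isoHom (J j) g * Y * isoHom (J j) g⁻¹ ∈ I := by
    rintro g Y ⟨h1, h2⟩
    refine ⟨conj_mem_gJ g h1, fun i => ?_⟩
    rw [← cj_single, (hD i).equiv hsp (hact i) (single_mem_VJ h1), h2]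
    exact map_zero ((hact i).lin _)
  have hInz : I ≠ ⊥ := by
    intro hbot
    -- then `X j` commutes with the Lie algebra
    have h1 : ∀ Y ∈ rt (J j), X j * Y = Y * X j := by
      intro Y hY
      have h2 : Y * X j - X j * Y ∈ I := by
        refine ⟨?_, fun i => ?_⟩
        · refine ⟨?_, by rw [Matrix.trace_sub, Matrix.trace_mul_comm, sub_self]⟩
          have e1 : Yᵀ * J j = -(J j * Y) := eq_neg_of_add_eq_zero_left hY.1.1
          have e2 : (X j)ᵀ * J j = -(J j * X j) := eq_neg_of_add_eq_zero_left (hX j).1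
          rw [transpose_sub, transpose_mul, transpose_mul, Matrix.sub_mul, Matrix.mul_assoc, e1,
            Matrix.mul_assoc, e2, Matrix.mul_neg, Matrix.mul_neg, ← Matrix.mul_assoc, e2,
            ← Matrix.mul_assoc, e1, Matrix.mul_sub, Matrix.neg_mul, Matrix.neg_mul]
          simp only [Matrix.mul_assoc]
          abel
        · have e3 : (Pi.single j (Y * X j - X j * Y) : Mt k n)
              = (Pi.single j Y : Mt k n) * X - X * (Pi.single j Y : Mt k n) := by
            funext i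
            by_cases hij : i = j
            · subst hij
              rw [Pi.single_eq_same, Pi.sub_apply, Pi.mul_apply, Pi.mul_apply, Pi.single_eq_same]
            · rw [Pi.single_eq_of_ne hij, Pi.sub_apply, Pi.mul_apply, Pi.mul_apply,
                Pi.single_eq_of_ne hij, Matrix.zero_mul, Matrix.mul_zero, sub_zero]
          rw [e3, (hD i).lie hsp (hact i) hX (single_mem_VJ hY.1), h0 i, Matrix.mul_zero,
            Matrix.zero_mul, sub_zero]
      rw [hbot, Submodule.mem_bot] at h2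
      exact (sub_eq_zero.mp h2).symm
    obtain ⟨c, hc⟩ := (hF j).lc (X j) (fun Y hY => comm_of_root (hsp j) h1 hY)
    exact hj (scalar_traceless hc (hX j).2)
  have hIall : I = gJ (J j) := ((hF j).sim I hIle hIst).resolve_left hInz
  obtain ⟨Y, hY, hY0⟩ := exists_root_ne (hsp j) (hX j) hj
  have hYI : Y ∈ I := by rw [hIall]; exact hY.1
  apply hY0
  refine root_zero_of_central hF hZ j hY ?_
  -- the lift is central
  have h1 : ∀ i, r (σ (π (Pi.mulSingle j (uni hY 1)))) i ∈ Subgroup.center (IsoG (J i)) := by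
    intro i
    have h2 := act_trivial (hact i) (hD i) j hY (hYI.2 i) 1
    have h3 : ∀ W, isoHom (J i) (r (σ (π (Pi.mulSingle j (uni hY 1)))) i) * W
        = W * isoHom (J i) (r (σ (π (Pi.mulSingle j (uni hY 1)))) i) := by
      intro W
      have h4 := h2 W
      have h5 : isoHom (J i) (r (σ (π (Pi.mulSingle j (uni hY 1)))) i) * W
        * isoHom (J i) (r (σ (π (Pi.mulSingle j (uni hY 1)))) i)⁻¹ = W := h4
      calc isoHom (J i) (r (σ (π (Pi.mulSingle j (uni hY 1)))) i) * W
          = isoHom (J i) (r (σ (π (Pi.mulSingle j (uni hY 1)))) i) * W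
            * (isoHom (J i) (r (σ (π (Pi.mulSingle j (uni hY 1)))) i)⁻¹
              * isoHom (J i) (r (σ (π (Pi.mulSingle j (uni hY 1)))) i)) := by
            rw [iso_inv_mul, Matrix.mul_one]
        _ = W * isoHom (J i) (r (σ (π (Pi.mulSingle j (uni hY 1)))) i) := by
            rw [← Matrix.mul_assoc, h5]
    obtain ⟨c, hc⟩ := scalar_of_comm_all _ h3
    exact center_of_scalar hc
  have h2 : σ (π (Pi.mulSingle j (uni hY 1))) ∈ Subgroup.center Q := by
    rw [← hr (σ (π (Pi.mulSingle j (uni hY 1)))), Subgroup.mem_center_iff]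
    intro q
    obtain ⟨s, rfl⟩ := hπ q
    rw [← map_mul, ← map_mul, Subgroup.mem_center_iff.mp (center_of_comp h1) s]
  rw [Subgroup.mem_center_iff] at h2 ⊢
  intro q
  apply σ.injective
  rw [map_mul, map_mul]
  exact h2 (σ q)

end Inj

end Pool.Agent.Helper14.RG.AU
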