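import Pool.Agent.Helper14.RG.AU.Curve

set_option autoImplicit false

/-!
# Derivatives of regular functions along polynomial curves, inner derivations
-/

namespace Pool.Agent.Helper14.RG.AU

open Polynomial Matrix Pool.Agent.Helper97.CG Pool.Agent.Helper14.RG

section Ds

variable {k : Type*} [Field k]

/-- `f` is a polynomial function with derivative `d` at `0` -/
def Ds (f : k → k) (d : k) : Prop := ∃ p : k[X], (∀ t, eval t p = f t) ∧ p.coeff 1 = d

lemma Ds.const (a : k) : Ds (fun _ : k => a) 0 :=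
  ⟨C a, fun t => eval_C, coeff_C_succ⟩

lemma Ds.add {f g : k → k} {d e : k} (hf : Ds f d) (hg : Ds g e) :
    Ds (fun t => f t + g t) (d + e) := by
  obtain ⟨p, h1, rfl⟩ := hf
  obtain ⟨q, h2, rfl⟩ := hg
  exact ⟨p + q, fun t => by rw [eval_add, h1, h2], coeff_add _ _ _⟩

lemma Ds.mul {f g : k → k} {d e : k} (hf : Ds f d) (hg : Ds g e) :
    Ds (fun t => f t * g t) (f 0 * e + d * g 0) := by
  obtain ⟨p, h1, rfl⟩ := hf
  obtain ⟨q, h2, rfl⟩ := hg
  refine ⟨p * q, fun t => by rw [eval_mul, h1, h2], ?_⟩
  rw [mul_coeff_one, ← h1 0, ← h2 0, coeff_zero_eq_eval_zero, coeff_zero_eq_eval_zero]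

lemma Dv.of_entries {m n : Type*} {F : k → Matrix m n k} {d : Matrix m n k}
    (h : ∀ i j, Ds (fun t => F t i j) (d i j)) : Dv F d := by
  choose P h1 h2 using h
  refine ⟨Matrix.of P, fun t => ?_, ?_⟩
  · ext i j
    exact h1 i j t
  · ext i j
    exact h2 i j

lemma Dv.entry {m n : Type*} {F : k → Matrix m n k} {d : Matrix m n k}
    (h : Dv F d) (i : m) (j : n) : Ds (fun t => F t i j) (d i j) := by
  obtain ⟨P, h1, rfl⟩ := h
  exact ⟨P i j, fun t => congrFun (congrFun (h1 t) i) j, rfl⟩

end Ds

section Curves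

variable {k : Type*} [Field k] {ι : Type*} {n : ι → ℕ} (J : ∀ i, Matrix (Fin (n i)) (Fin (n i)) k)

/-- families of matrices -/
abbrev Mt (k : Type*) {ι : Type*} (n : ι → ℕ) : Type _ := ∀ i, Matrix (Fin (n i)) (Fin (n i)) k

/-- `c` is a polynomial curve through `1` with tangent `X` -/
def Cv (c : k → ∀ i, IsoG (J i)) (X : Mt k n) : Prop :=
  c 0 = 1 ∧ ∀ i, Dv (fun t => isoHom (J i) (c t i)) (X i)

/-- the algebra generated by the matrix entries -/
lemma prodAlg_le_entries {B : Subalgebra k ((∀ i, IsoG (J i)) → k)}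
    (h : ∀ i a b, (fun g : ∀ i, IsoG (J i) => isoHom (J i) (g i) a b) ∈ B) :
    prodAlg (fun i => mAlg (isoHom (J i))) ≤ B := by
  refine Algebra.adjoin_le ?_
  rintro _ ⟨i, x, hx, rfl⟩
  exact mAlg_comp (J i) B (fun g : ∀ i, IsoG (J i) => g i) (fun a b => h i a b) hx

/-- the functions with a differential at `1` -/
def dAlg : Subalgebra k ((∀ i, IsoG (J i)) → k) where
  carrier := {f | ∃ L : Mt k n →ₗ[k] k, ∀ c X, Cv J c X → Ds (fun t => f (c t)) (L X)}
  mul_mem' := by
    rintro f g ⟨L, hL⟩ ⟨L', hL'⟩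
    refine ⟨f 1 • L' + g 1 • L, fun c X hc => ?_⟩
    have h := (hL c X hc).mul (hL' c X hc)
    rw [hc.1] at h
    have e : f 1 * L' X + L X * g 1 = (f 1 • L' + g 1 • L) X := by
      rw [LinearMap.add_apply, LinearMap.smul_apply, LinearMap.smul_apply, smul_eq_mul, smul_eq_mul,
        mul_comm (L X)]
    rw [e] at h
    exact h
  add_mem' := by
    rintro f g ⟨L, hL⟩ ⟨L', hL'⟩
    exact ⟨L + L', fun c X hc => (hL c X hc).add (hL' c X hc)⟩
  algebraMap_mem' := fun r => ⟨0, fun c X _ => Ds.const r⟩

lemma exists_diff {f : (∀ i, IsoG (J i)) → k} (hf : f ∈ prodAlg (fun i => mAlg (isoHom (J i)))) :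
    ∃ L : Mt k n →ₗ[k] k, ∀ c X, Cv J c X → Ds (fun t => f (c t)) (L X) := by
  have h : prodAlg (fun i => mAlg (isoHom (J i))) ≤ dAlg J := by
    refine prodAlg_le_entries J fun i a b => ?_
    refine ⟨{ toFun := fun X => X i a b, map_add' := fun _ _ => rfl, map_smul' := fun _ _ => rfl },
      fun c X hc => ?_⟩
    exact (hc.2 i).entry a b
  exact h hf

end Curves

section Inner

variable {k : Type*} [Field k] {m : ℕ}

/-- Derivations of the matrix algebra are inner. -/
lemma inner_of_derivation (b0 : Fin m) (δ : Matrix (Fin m) (Fin m) k → Matrix (Fin m) (Fin m) k)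
    (hadd : ∀ Y Z, δ (Y + Z) = δ Y + δ Z) (hsmul : ∀ (a : k) Y, δ (a • Y) = a • δ Y)
    (hmul : ∀ Y Z, δ (Y * Z) = δ Y * Z + Y * δ Z) (Y : Matrix (Fin m) (Fin m) k) :
    (∑ a, δ (single a b0 1) * single b0 a 1) * Y - Y * (∑ a, δ (single a b0 1) * single b0 a 1)
      = δ Y := by
  have hzero : δ 0 = 0 := by
    have := hsmul 0 0
    rwa [zero_smul, zero_smul] at this
  have hsum : ∀ (s : Finset (Fin m)) (f : Fin m → Matrix (Fin m) (Fin m) k),
      δ (∑ a ∈ s, f a) = ∑ a ∈ s, δ (f a) := by
    classical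
    intro s f
    induction s using Finset.induction_on with
    | empty => rw [Finset.sum_empty, Finset.sum_empty, hzero]
    | insert a s ha ih => rw [Finset.sum_insert ha, Finset.sum_insert ha, hadd, ih]
  have h1 : ∀ a, (single b0 a (1 : k) : Matrix (Fin m) (Fin m) k) * Y
      = ∑ c, Y a c • single b0 c (1 : k) := by
    intro a
    ext i j
    rw [Matrix.sum_apply, Matrix.mul_apply]
    by_cases hi : i = b0
    · subst hi
      rw [Finset.sum_eq_single a, Finset.sum_eq_single j]
      · simp
      · intro b _ hb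
        simp [Matrix.single_apply, hb]
      · intro h; exact absurd (Finset.mem_univ _) h
      · intro b _ hb
        simp [Matrix.single_apply, hb.symm]
      · intro h; exact absurd (Finset.mem_univ _) h
    · rw [Finset.sum_eq_zero, Finset.sum_eq_zero]
      · intro c _
        simp [Matrix.single_apply, Ne.symm hi]
      · intro c _
        simp [Matrix.single_apply, Ne.symm hi]
  have h2 : ∀ c, Y * (single c b0 (1 : k) : Matrix (Fin m) (Fin m) k)
      = ∑ a, Y a c • single a b0 (1 : k) := by
    intro c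
    ext i j
    rw [Matrix.sum_apply, Matrix.mul_apply]
    by_cases hj : j = b0
    · subst hj
      rw [Finset.sum_eq_single c, Finset.sum_eq_single i]
      · simp
      · intro b _ hb
        simp [Matrix.single_apply, hb]
      · intro h; exact absurd (Finset.mem_univ _) h
      · intro b _ hb
        simp [Matrix.single_apply, hb.symm]
      · intro h; exact absurd (Finset.mem_univ _) h
    · rw [Finset.sum_eq_zero, Finset.sum_eq_zero]
      · intro c _
        simp [Matrix.single_apply, Ne.symm hj]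
      · intro c _
        simp [Matrix.single_apply, Ne.symm hj]
  have h3 : ∑ c : Fin m, (single c b0 (1 : k) : Matrix (Fin m) (Fin m) k) * single b0 c 1 = 1 := by
    have h4 : ∀ c : Fin m, (single c b0 (1 : k) : Matrix (Fin m) (Fin m) k) * single b0 c 1
        = single c c 1 := by
      intro c
      rw [Matrix.single_mul_single_same, mul_one]
    rw [Finset.sum_congr rfl (fun c _ => h4 c)]
    ext i j
    rw [Matrix.sum_apply]
    by_cases hij : i = j
    · subst hij
      rw [Finset.sum_eq_single i]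
      · simp
      · intro b _ hb
        simp [Matrix.single_apply, hb]
      · intro h; exact absurd (Finset.mem_univ _) h
    · rw [Matrix.one_apply_ne hij]
      apply Finset.sum_eq_zero
      intro c _
      rw [Matrix.single_apply]
      rw [if_neg]
      rintro ⟨rfl, rfl⟩
      exact hij rfl
  have h5 : (∑ a, δ (single a b0 1) * single b0 a 1) * Y
      = ∑ c, δ (Y * single c b0 1) * single b0 c 1 := by
    rw [Finset.sum_mul]
    calc ∑ a, δ (single a b0 1) * single b0 a 1 * Y
        = ∑ a, ∑ c, Y a c • (δ (single a b0 1) * single b0 c 1) := by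
          refine Finset.sum_congr rfl fun a _ => ?_
          rw [Matrix.mul_assoc, h1, Finset.mul_sum]
          exact Finset.sum_congr rfl fun c _ => by rw [Matrix.mul_smul]
      _ = ∑ c, ∑ a, Y a c • (δ (single a b0 1) * single b0 c 1) := Finset.sum_comm
      _ = _ := by
          refine Finset.sum_congr rfl fun c _ => ?_
          rw [h2, hsum, Finset.sum_mul]
          exact Finset.sum_congr rfl fun a _ => by rw [hsmul, Matrix.smul_mul]
  rw [h5, Finset.sum_congr rfl (fun c _ => by rw [hmul, Matrix.add_mul]), Finset.sum_add_distrib]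
  have h6 : ∑ c, δ Y * single c b0 1 * single b0 c 1 = δ Y := by
    rw [Finset.sum_congr rfl (fun c _ => Matrix.mul_assoc _ _ _), ← Finset.mul_sum, h3,
      Matrix.mul_one]
  have h7 : ∑ c, Y * δ (single c b0 1) * single b0 c 1
      = Y * ∑ a, δ (single a b0 1) * single b0 a 1 := by
    rw [Finset.sum_congr rfl (fun c _ => Matrix.mul_assoc _ _ _), ← Finset.mul_sum]
  rw [h6, h7, add_sub_cancel_right]

/-- A matrix commuting with everything is scalar. -/
lemma scalar_of_comm_all (M : Matrix (Fin m) (Fin m) k) (h : ∀ Y, M * Y = Y * M) :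
    ∃ c : k, M = c • (1 : Matrix (Fin m) (Fin m) k) := by
  have h1 : M ∈ Set.range (Matrix.scalar (Fin m)) := by
    rw [Matrix.mem_range_scalar_iff_commute_single]
    intro i j _
    exact (h _).symm
  obtain ⟨c, hc⟩ := h1
  refine ⟨c, ?_⟩
  rw [← hc, Matrix.smul_one_eq_diagonal]
  rfl

end Inner

end Pool.Agent.Helper14.RG.AU
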