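import Pool.Agent.Helper14.RG.AU.Act

set_option autoImplicit false

/-!
# Root elements, the Lie algebra, and the differential as a Lie homomorphism
-/

namespace Pool.Agent.Helper14.RG.AU

open Polynomial Matrix Pool.Agent.Helper97.CG Pool.Agent.Helper14.RG

section Root

variable {k : Type*} [Field k] {n : ℕ}

/-- The Lie algebra of the group `IsoG J`. -/
def gJ (J : Matrix (Fin n) (Fin n) k) : Submodule k (Matrix (Fin n) (Fin n) k) where
  carrier := {X | Xᵀ * J + J * X = 0 ∧ X.trace = 0}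
  add_mem' := by
    rintro X Y ⟨h1, h2⟩ ⟨h3, h4⟩
    refine ⟨?_, by rw [Matrix.trace_add, h2, h4, add_zero]⟩
    have : (X + Y)ᵀ * J + J * (X + Y) = (Xᵀ * J + J * X) + (Yᵀ * J + J * Y) := by
      rw [transpose_add, Matrix.add_mul, Matrix.mul_add]
      abel
    rw [this, h1, h3, add_zero]
  zero_mem' := by
    refine ⟨?_, Matrix.trace_zero _ _⟩
    rw [transpose_zero, Matrix.zero_mul, Matrix.mul_zero, add_zero]
  smul_mem' := by
    rintro r X ⟨h1, h2⟩
    refine ⟨?_, by rw [Matrix.trace_smul, h2, smul_zero]⟩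
    rw [transpose_smul, Matrix.smul_mul, Matrix.mul_smul, ← smul_add, h1, smul_zero]

lemma mem_gJ {J X : Matrix (Fin n) (Fin n) k} : X ∈ gJ J ↔ Xᵀ * J + J * X = 0 ∧ X.trace = 0 :=
  Iff.rfl

/-- root elements -/
def rt (J : Matrix (Fin n) (Fin n) k) : Set (Matrix (Fin n) (Fin n) k) :=
  {X | X ∈ gJ J ∧ X * X = 0}

lemma det_one_add_smul [Infinite k] {X : Matrix (Fin n) (Fin n) k} (hX : X * X = 0) (t : k) :
    (1 + t • X).det = 1 := by
  let M : Matrix (Fin n) (Fin n) k[X] := 1 + (Polynomial.X : k[X]) • X.map C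
  have hM : ∀ t : k, M.map (eval t) = 1 + t • X := by
    intro t
    ext i j
    show eval t ((1 : Matrix (Fin n) (Fin n) k[X]) i j + Polynomial.X * C (X i j)) = _
    rw [eval_add, eval_mul, eval_X, eval_C, Matrix.add_apply, Matrix.smul_apply, smul_eq_mul]
    congr 1
    by_cases hij : i = j
    · subst hij
      rw [Matrix.one_apply_eq, Matrix.one_apply_eq, eval_one]
    · rw [Matrix.one_apply_ne hij, Matrix.one_apply_ne hij, eval_zero]
  have hdet : ∀ t : k, eval t M.det = (1 + t • X).det := by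
    intro t
    rw [← hM t]
    exact (evalRingHom t).map_det M
  have h1 : ∀ t : k, (1 + t • X).det * (1 + (-t) • X).det = 1 := by
    intro t
    rw [← Matrix.det_mul]
    have : (1 + t • X) * (1 + (-t) • X) = 1 := by
      rw [Matrix.add_mul, Matrix.one_mul, Matrix.mul_add, Matrix.mul_one, Matrix.smul_mul,
        Matrix.mul_smul, hX, smul_zero, smul_zero, add_zero, add_assoc, ← add_smul, neg_add_cancel,
        zero_smul, add_zero]
    rw [this, Matrix.det_one]
  have h2 : M.det * (M.det.comp (-Polynomial.X)) = 1 := by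
    apply Polynomial.funext
    intro t
    rw [eval_mul, eval_comp, eval_neg, eval_X, hdet, hdet, h1, eval_one]
  have h3 : IsUnit M.det := IsUnit.of_mul_eq_one _ h2
  obtain ⟨c, -, hc⟩ := Polynomial.isUnit_iff.mp h3
  rw [← hdet t, ← hc, eval_C]
  have h4 : eval 0 M.det = 1 := by
    rw [hdet, zero_smul, add_zero, Matrix.det_one]
  rw [← hc, eval_C] at h4
  exact h4

/-- the unipotent element `1 + t X` -/
def uni [Infinite k] {J : Matrix (Fin n) (Fin n) k} {X : Matrix (Fin n) (Fin n) k} (hX : X ∈ rt J)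
    (t : k) : IsoG J :=
  ⟨⟨1 + t • X, det_one_add_smul hX.2 t⟩, by
    show (1 + t • X)ᵀ * J * (1 + t • X) = J
    have h1 : Xᵀ * J = -(J * X) := eq_neg_of_add_eq_zero_left hX.1.1
    have h2 : (1 + t • X)ᵀ * J = J * (1 + (-t) • X) := by
      rw [transpose_add, transpose_one, transpose_smul, Matrix.add_mul, Matrix.one_mul,
        Matrix.smul_mul, h1, Matrix.mul_add, Matrix.mul_one, Matrix.mul_smul, smul_neg, neg_smul]
    have h3 : (1 + (-t) • X) * (1 + t • X) = 1 := by
      rw [Matrix.add_mul, Matrix.one_mul, Matrix.mul_add, Matrix.mul_one,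
        Matrix.smul_mul, Matrix.mul_smul, hX.2, smul_zero, smul_zero, add_zero, add_assoc,
        ← add_smul, add_neg_cancel, zero_smul, add_zero]
    rw [h2, Matrix.mul_assoc, h3, Matrix.mul_one]⟩

lemma uni_coe [Infinite k] {J : Matrix (Fin n) (Fin n) k} {X : Matrix (Fin n) (Fin n) k}
    (hX : X ∈ rt J) (t : k) : isoHom J (uni hX t) = 1 + t • X := rfl

lemma uni_inv_coe [Infinite k] {J : Matrix (Fin n) (Fin n) k} {X : Matrix (Fin n) (Fin n) k}
    (hX : X ∈ rt J) (t : k) : isoHom J (uni hX t)⁻¹ = 1 + (-t) • X := by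
  have h1 : (uni hX t)⁻¹ = uni hX (-t) := by
    rw [inv_eq_iff_mul_eq_one]
    apply isoHom_inj J
    rw [map_mul, map_one, uni_coe, uni_coe]
    rw [Matrix.add_mul, Matrix.one_mul, Matrix.mul_add, Matrix.mul_one, Matrix.smul_mul,
      Matrix.mul_smul, hX.2, smul_zero, smul_zero, add_zero, add_assoc, ← add_smul, neg_add_cancel,
      zero_smul, add_zero]
  rw [h1, uni_coe]

lemma uni_zero [Infinite k] {J : Matrix (Fin n) (Fin n) k} {X : Matrix (Fin n) (Fin n) k}
    (hX : X ∈ rt J) : uni hX 0 = 1 := by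
  apply isoHom_inj J
  rw [uni_coe, map_one, zero_smul, add_zero]

lemma uni_add [Infinite k] {J : Matrix (Fin n) (Fin n) k} {X : Matrix (Fin n) (Fin n) k}
    (hX : X ∈ rt J) (t u : k) : uni hX (t + u) = uni hX t * uni hX u := by
  apply isoHom_inj J
  rw [map_mul, uni_coe, uni_coe, uni_coe, Matrix.add_mul, Matrix.one_mul, Matrix.mul_add,
    Matrix.mul_one, Matrix.smul_mul, Matrix.mul_smul, hX.2, smul_zero, smul_zero, add_zero,
    add_smul]
  abel

/-- the Lie algebra is stable under the group -/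
lemma conj_mem_gJ {J : Matrix (Fin n) (Fin n) k} (g : IsoG J) {X : Matrix (Fin n) (Fin n) k}
    (hX : X ∈ gJ J) : isoHom J g * X * isoHom J g⁻¹ ∈ gJ J := by
  have e1 : isoHom J g * isoHom J g⁻¹ = 1 := by rw [← map_mul, mul_inv_cancel, map_one]
  have e2 : isoHom J g⁻¹ * isoHom J g = 1 := by rw [← map_mul, inv_mul_cancel, map_one]
  have e3 : (isoHom J g)ᵀ * J = J * isoHom J g⁻¹ := by
    calc (isoHom J g)ᵀ * J = (isoHom J g)ᵀ * J * (isoHom J g * isoHom J g⁻¹) := by
          rw [e1, Matrix.mul_one]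
      _ = ((isoHom J g)ᵀ * J * isoHom J g) * isoHom J g⁻¹ := by simp only [Matrix.mul_assoc]
      _ = J * isoHom J g⁻¹ := by rw [isoHom_rel]
  have e4 : (isoHom J g⁻¹)ᵀ * J = J * isoHom J g := by
    calc (isoHom J g⁻¹)ᵀ * J = (isoHom J g⁻¹)ᵀ * ((isoHom J g)ᵀ * J * isoHom J g) := by
          rw [isoHom_rel]
      _ = ((isoHom J g⁻¹)ᵀ * (isoHom J g)ᵀ) * J * isoHom J g := by simp only [Matrix.mul_assoc]
      _ = J * isoHom J g := by
          rw [← transpose_mul, e1, transpose_one, Matrix.one_mul]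
  refine ⟨?_, ?_⟩
  · rw [transpose_mul, transpose_mul]
    calc (isoHom J g⁻¹)ᵀ * (Xᵀ * (isoHom J g)ᵀ) * J + J * (isoHom J g * X * isoHom J g⁻¹)
        = (isoHom J g⁻¹)ᵀ * Xᵀ * ((isoHom J g)ᵀ * J) + (J * isoHom J g) * X * isoHom J g⁻¹ := by
          simp only [Matrix.mul_assoc]
      _ = (isoHom J g⁻¹)ᵀ * Xᵀ * (J * isoHom J g⁻¹) + ((isoHom J g⁻¹)ᵀ * J) * X * isoHom J g⁻¹ := by
          rw [e3, e4]
      _ = (isoHom J g⁻¹)ᵀ * (Xᵀ * J + J * X) * isoHom J g⁻¹ := by
          simp only [Matrix.mul_add, Matrix.add_mul, Matrix.mul_assoc]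
      _ = 0 := by rw [hX.1, Matrix.mul_zero, Matrix.zero_mul]
  · rw [Matrix.trace_mul_comm, ← Matrix.mul_assoc, e2, Matrix.one_mul]
    exact hX.2

end Root

section Lie

variable {k : Type*} [Field k] [CharZero k] {ι : Type*} [DecidableEq ι] {n : ι → ℕ}
  {J : ∀ i, Matrix (Fin (n i)) (Fin (n i)) k} {m : ℕ}
  {Φ : (∀ i, IsoG (J i)) → Matrix (Fin m) (Fin m) k → Matrix (Fin m) (Fin m) k}
  {D : Mt k n →ₗ[k] Matrix (Fin m) (Fin m) k}

/-- the curve of a root element of a factor -/
lemma cv_uni (j : ι) {X : Matrix (Fin (n j)) (Fin (n j)) k} (hX : X ∈ rt (J j)) :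
    Cv J (fun t => Pi.mulSingle j (uni hX t)) (Pi.single j X) := by
  refine ⟨?_, fun i => ?_⟩
  · show (Pi.mulSingle j (uni hX 0) : ∀ i, IsoG (J i)) = 1
    rw [uni_zero, Pi.mulSingle_one]
  · by_cases hij : i = j
    · subst hij
      refine (Dv.quad (1 : Matrix (Fin (n i)) (Fin (n i)) k) X 0).congr (fun t => ?_) ?_
      · beta_reduce
        rw [Pi.mulSingle_eq_same, uni_coe, smul_zero, add_zero]
      · rw [Pi.single_eq_same]
    · refine (Dv.const (1 : Matrix (Fin (n i)) (Fin (n i)) k)).congr (fun t => ?_) ?_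
      · beta_reduce
        rw [Pi.mulSingle_eq_of_ne hij, map_one]
      · rw [Pi.single_eq_of_ne hij]

lemma cj_uni (j : ι) {Y : Matrix (Fin (n j)) (Fin (n j)) k} (hY : Y ∈ rt (J j)) (t : k)
    (X : Mt k n) : cj (Pi.mulSingle j (uni hY t) : ∀ i, IsoG (J i)) X
      = X + t • ((Pi.single j Y : Mt k n) * X - X * (Pi.single j Y : Mt k n))
        + (t * t) • (-((Pi.single j Y : Mt k n) * X * (Pi.single j Y : Mt k n))) := by
  funext i
  show isoHom (J i) ((Pi.mulSingle j (uni hY t) : ∀ i, IsoG (J i)) i) * X i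
      * isoHom (J i) ((Pi.mulSingle j (uni hY t) : ∀ i, IsoG (J i)) i)⁻¹
    = X i + t • ((Pi.single j Y : Mt k n) i * X i - X i * (Pi.single j Y : Mt k n) i)
      + (t * t) • (-((Pi.single j Y : Mt k n) i * X i * (Pi.single j Y : Mt k n) i))
  by_cases hij : i = j
  · subst hij
    rw [Pi.mulSingle_eq_same, Pi.single_eq_same, uni_coe, uni_inv_coe]
    have e1 : (1 + t • Y) * X i * (1 + (-t) • Y)
        = X i + t • (Y * X i) + (-t) • (X i * Y) + (t * (-t)) • (Y * X i * Y) := by
      rw [Matrix.add_mul, Matrix.one_mul, Matrix.mul_add, Matrix.mul_one, Matrix.add_mul,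
        Matrix.smul_mul, Matrix.mul_smul, Matrix.smul_mul, Matrix.mul_smul, smul_smul]
      abel
    rw [e1, smul_sub, smul_neg, mul_neg, neg_smul, neg_smul]
    abel
  · rw [Pi.mulSingle_eq_of_ne hij, Pi.single_eq_of_ne hij]
    simp

/-- `D` is equivariant on root elements -/
lemma IsDiff.equiv_root (h : IsAct J Φ) (hD : IsDiff J Φ D) (j : ι)
    {X : Matrix (Fin (n j)) (Fin (n j)) k} (hX : X ∈ rt (J j)) (s : ∀ i, IsoG (J i)) :
    D (cj s (Pi.single j X)) = Φ s (D (Pi.single j X)) :=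
  hD.equiv_of_curve h (cv_uni j hX) s

/-- the Lie algebra of the product -/
def VJ (J : ∀ i, Matrix (Fin (n i)) (Fin (n i)) k) : Submodule k (Mt k n) where
  carrier := {X | ∀ i, X i ∈ gJ (J i)}
  add_mem' := fun hX hY i => add_mem (hX i) (hY i)
  zero_mem' := fun i => zero_mem _
  smul_mem' := fun r _ hX i => (gJ (J i)).smul_mem r (hX i)

/-- the root elements of the factors span -/
def Spans {n : ℕ} (J : Matrix (Fin n) (Fin n) k) : Prop := gJ J ≤ Submodule.span k (rt J)

omit [CharZero k] in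
/-- induction over the Lie algebra of a product -/
lemma VJ_ind [Fintype ι] (hsp : ∀ i, Spans (J i)) {p : Mt k n → Prop}
    (hroot : ∀ j X, X ∈ rt (J j) → p (Pi.single j X)) (h0 : p 0)
    (hadd : ∀ X Y, p X → p Y → p (X + Y)) (hsmul : ∀ (r : k) X, p X → p (r • X))
    {X : Mt k n} (hX : X ∈ VJ J) : p X := by
  have h1 : X = ∑ i, Pi.single i (X i) := (Finset.univ_sum_single X).symm
  have h2 : ∀ i, p (Pi.single i (X i)) := by
    intro i
    have h3 : X i ∈ Submodule.span k (rt (J i)) := hsp i (hX i)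
    generalize X i = Y at h3
    induction h3 using Submodule.span_induction with
    | mem x hx => exact hroot i x hx
    | zero => rw [Pi.single_zero]; exact h0
    | add x y _ _ hx hy => rw [Pi.single_add]; exact hadd _ _ hx hy
    | smul a x _ hx =>
      have : (Pi.single i (a • x) : Mt k n) = a • Pi.single i x := by
        rw [← Pi.single_smul]
      rw [this]
      exact hsmul _ _ hx
  rw [h1]
  have h4 : ∀ s : Finset ι, p (∑ i ∈ s, Pi.single i (X i)) := by
    intro s
    induction s using Finset.induction_on with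
    | empty => rw [Finset.sum_empty]; exact h0
    | insert a s ha ih => rw [Finset.sum_insert ha]; exact hadd _ _ (h2 a) ih
  exact h4 Finset.univ

variable [Fintype ι] (hsp : ∀ i, Spans (J i))

include hsp in
theorem IsDiff.equiv (h : IsAct J Φ) (hD : IsDiff J Φ D) {X : Mt k n} (hX : X ∈ VJ J)
    (s : ∀ i, IsoG (J i)) : D (cj s X) = Φ s (D X) := by
  refine VJ_ind hsp (p := fun X => D (cj s X) = Φ s (D X)) ?_ ?_ ?_ ?_ hX
  · intro j X hX
    exact hD.equiv_root h j hX s
  · show D (cjL s 0) = h.lin s (D 0)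
    rw [map_zero, map_zero, map_zero]
  · intro X Y h1 h2
    show D (cjL s (X + Y)) = h.lin s (D (X + Y))
    rw [map_add, map_add, map_add, map_add]
    congr 1
  · intro r X h1
    show D (cjL s (r • X)) = h.lin s (D (r • X))
    rw [map_smul, map_smul, map_smul, map_smul]
    congr 1

include hsp in
theorem IsDiff.lie (h : IsAct J Φ) (hD : IsDiff J Φ D) {X Y : Mt k n} (hX : X ∈ VJ J)
    (hY : Y ∈ VJ J) : D (Y * X - X * Y) = D Y * D X - D X * D Y := by
  refine VJ_ind hsp (p := fun Y => D (Y * X - X * Y) = D Y * D X - D X * D Y) ?_ ?_ ?_ ?_ hY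
  · intro j Y hY
    have h1 := hD.2 _ _ (cv_uni j hY) (D X)
    have h2 := Dv.quad (D X) (D ((Pi.single j Y : Mt k n) * X - X * (Pi.single j Y : Mt k n)))
      (D (-((Pi.single j Y : Mt k n) * X * (Pi.single j Y : Mt k n))))
    refine h2.uniq (h1.congr (fun t => ?_) rfl)
    beta_reduce
    rw [← hD.equiv hsp h hX, cj_uni, map_add, map_add, map_smul, map_smul]
  · simp
  · intro Y Z h1 h2
    have e : (Y + Z) * X - X * (Y + Z) = (Y * X - X * Y) + (Z * X - X * Z) := by noncomm_ring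
    show D ((Y + Z) * X - X * (Y + Z)) = D (Y + Z) * D X - D X * D (Y + Z)
    rw [e, map_add, h1, h2, map_add, Matrix.add_mul, Matrix.mul_add]
    abel
  · intro r Y h1
    have e : (r • Y) * X - X * (r • Y) = r • (Y * X - X * Y) := by
      rw [smul_mul_assoc, mul_smul_comm, smul_sub]
    show D ((r • Y) * X - X * (r • Y)) = D (r • Y) * D X - D X * D (r • Y)
    rw [e, map_smul, h1, map_smul, Matrix.smul_mul, Matrix.mul_smul, smul_sub]

end Lie

end Pool.Agent.Helper14.RG.AU
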