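import Pool.Agent.Helper14.RG.AU.Lie

set_option autoImplicit false

/-!
# The actions of an automorphism, and injectivity of its differential
-/

namespace Pool.Agent.Helper14.RG.AU

open Polynomial Matrix Pool.Agent.Helper97.CG Pool.Agent.Helper14.RG

/-- The facts about a factor which are used. -/
structure LF {k : Type*} [Field k] {n : ℕ} (J : Matrix (Fin n) (Fin n) k) : Prop where
  typ : J = 0 ∨ J.det ≠ 0
  irr : Irr (mAlg (isoHom J))
  gc : ∀ M : Matrix (Fin n) (Fin n) k, (∀ g : IsoG J, M * isoHom J g = isoHom J g * M) →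
    ∃ c : k, M = c • (1 : Matrix (Fin n) (Fin n) k)
  lc : ∀ M : Matrix (Fin n) (Fin n) k, (∀ X ∈ gJ J, M * X = X * M) →
    ∃ c : k, M = c • (1 : Matrix (Fin n) (Fin n) k)
  span : Spans J
  sim : ∀ I : Submodule k (Matrix (Fin n) (Fin n) k), I ≤ gJ J →
    (∀ (g : IsoG J), ∀ X ∈ I, isoHom J g * X * isoHom J g⁻¹ ∈ I) → I = ⊥ ∨ I = gJ J

section Basic

variable {k : Type*} [Field k] {n : ℕ} {J : Matrix (Fin n) (Fin n) k}

lemma iso_mul_inv (g : IsoG J) : isoHom J g * isoHom J g⁻¹ = 1 := by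
  rw [← map_mul, mul_inv_cancel, map_one]

lemma iso_inv_mul (g : IsoG J) : isoHom J g⁻¹ * isoHom J g = 1 := by
  rw [← map_mul, inv_mul_cancel, map_one]

lemma LF.center (h : LF J) {z : IsoG J} (hz : z ∈ Subgroup.center (IsoG J)) :
    ∃ c : k, isoHom J z = c • (1 : Matrix (Fin n) (Fin n) k) :=
  h.gc _ fun g => by rw [← map_mul, ← map_mul, Subgroup.mem_center_iff.mp hz g]

/-- conjugation by a scalar is trivial -/
lemma conj_scalar {g : IsoG J} {c : k} (h : isoHom J g = c • (1 : Matrix (Fin n) (Fin n) k))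
    (Y : Matrix (Fin n) (Fin n) k) : isoHom J g * Y * isoHom J g⁻¹ = Y := by
  have h1 : isoHom J g * Y = Y * isoHom J g := by
    rw [h, Matrix.smul_mul, Matrix.mul_smul, Matrix.one_mul, Matrix.mul_one]
  rw [h1, Matrix.mul_assoc, iso_mul_inv, Matrix.mul_one]

lemma center_of_scalar {g : IsoG J} {c : k}
    (h : isoHom J g = c • (1 : Matrix (Fin n) (Fin n) k)) : g ∈ Subgroup.center (IsoG J) := by
  rw [Subgroup.mem_center_iff]
  intro x
  apply isoHom_inj J
  rw [map_mul, map_mul, h, Matrix.smul_mul, Matrix.mul_smul, Matrix.one_mul, Matrix.mul_one]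

end Basic

section

variable {k : Type*} [Field k] {ι : Type*} {n : ι → ℕ}
  {J : ∀ i, Matrix (Fin (n i)) (Fin (n i)) k}

lemma center_comp [DecidableEq ι] {z : ∀ i, IsoG (J i)}
    (hz : z ∈ Subgroup.center (∀ i, IsoG (J i))) (i : ι) : z i ∈ Subgroup.center (IsoG (J i)) := by
  rw [Subgroup.mem_center_iff] at hz ⊢
  intro g
  have h := congrFun (hz (Pi.mulSingle i g)) i
  rw [Pi.mul_apply, Pi.mul_apply, Pi.mulSingle_eq_same] at h
  exact h

lemma center_of_comp {z : ∀ i, IsoG (J i)}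
    (hz : ∀ i, z i ∈ Subgroup.center (IsoG (J i))) : z ∈ Subgroup.center (∀ i, IsoG (J i)) := by
  rw [Subgroup.mem_center_iff]
  intro g
  funext i
  exact Subgroup.mem_center_iff.mp (hz i) (g i)

/-- conjugation in the `i`-th factor -/
def Adx (x : ∀ i, IsoG (J i)) (i : ι) (Y : Matrix (Fin (n i)) (Fin (n i)) k) :
    Matrix (Fin (n i)) (Fin (n i)) k := isoHom (J i) (x i) * Y * isoHom (J i) (x i)⁻¹

lemma Adx_mul (x y : ∀ i, IsoG (J i)) (i : ι) (Y : Matrix (Fin (n i)) (Fin (n i)) k) :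
    Adx (x * y) i Y = Adx x i (Adx y i Y) := by
  unfold Adx
  rw [Pi.mul_apply, _root_.mul_inv_rev, map_mul, map_mul]
  simp only [Matrix.mul_assoc]

variable {Q : Type*} [Group Q] {π : (∀ i, IsoG (J i)) →* Q} {σ : Q ≃* Q}

lemma Adx_eq_of_pi [DecidableEq ι] (hF : ∀ i, LF (J i))
    (hZ : π.ker ≤ Subgroup.center (∀ i, IsoG (J i)))
    {x y : ∀ i, IsoG (J i)} (h : π x = π y) (i : ι) (Y : Matrix (Fin (n i)) (Fin (n i)) k) :
    Adx x i Y = Adx y i Y := by
  have h1 : x * y⁻¹ ∈ π.ker := by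
    rw [MonoidHom.mem_ker, map_mul, map_inv, h, mul_inv_cancel]
  obtain ⟨c, hc⟩ := (hF i).center (center_comp (hZ h1) i)
  have h2 : x = (x * y⁻¹) * y := by group
  rw [h2, Adx_mul]
  exact conj_scalar hc _

lemma Adx_reg [Fintype ι] [DecidableEq ι] (i : ι) (Y : Matrix (Fin (n i)) (Fin (n i)) k) (a d : Fin (n i)) :
    (fun s : ∀ i, IsoG (J i) => Adx s i Y a d) ∈ prodAlg (fun i => mAlg (isoHom (J i))) := by
  refine mem_prodAlg (fun i => mAlg (isoHom (J i))) i
    (a := fun g : IsoG (J i) => (isoHom (J i) g * Y * isoHom (J i) g⁻¹) a d) ?_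
  refine mul_mem_alg (mAlg (isoHom (J i))) (fun g => isoHom (J i) g * Y)
    (fun g => isoHom (J i) g⁻¹) (fun a d => ?_) (fun a d => ?_) a d
  · exact mul_mem_alg (mAlg (isoHom (J i))) (fun g => isoHom (J i) g) (fun _ => Y)
      (iso_entry_mem (J i)) (fun _ _ => const_mem _ _) a d
  · exact (iso_grpAlg (J i)).2 _ (iso_entry_mem (J i) a d)

/-- the actions given by an automorphism -/
theorem isAct_lift [Fintype ι] [DecidableEq ι] (hF : ∀ i, LF (J i))
    (hZ : π.ker ≤ Subgroup.center (∀ i, IsoG (J i)))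
    (hreg : ∀ f ∈ quotAlg (prodAlg fun i => mAlg (isoHom (J i))) π,
      (fun q => f (σ q)) ∈ quotAlg (prodAlg fun i => mAlg (isoHom (J i))) π)
    {r : Q → ∀ i, IsoG (J i)} (hr : ∀ q, π (r q) = q) (i : ι) :
    IsAct J (fun s Y => Adx (r (σ (π s))) i Y) where
  one := by
    intro Y
    have h1 : π (r (σ (π 1))) = π 1 := by rw [hr, map_one, map_one]
    rw [Adx_eq_of_pi hF hZ h1]
    unfold Adx
    rw [Pi.one_apply, inv_one, map_one, Matrix.one_mul, Matrix.mul_one]
  mul := by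
    intro s t Y
    have h1 : π (r (σ (π (s * t)))) = π (r (σ (π s)) * r (σ (π t))) := by
      rw [hr, map_mul, map_mul, map_mul, hr, hr]
    rw [Adx_eq_of_pi hF hZ h1, Adx_mul]
  map_mul := by
    intro s Y Z
    show Adx _ i (Y * Z) = Adx _ i Y * Adx _ i Z
    unfold Adx
    calc _ = isoHom (J i) (r (σ (π s)) i) * Y * (1 * Z) * isoHom (J i) (r (σ (π s)) i)⁻¹ := by
          rw [Matrix.one_mul]; simp only [Matrix.mul_assoc]
      _ = _ := by rw [← iso_inv_mul (r (σ (π s)) i)]; simp only [Matrix.mul_assoc]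
  map_add := by
    intro s Y Z
    show Adx _ i (Y + Z) = Adx _ i Y + Adx _ i Z
    unfold Adx
    rw [Matrix.mul_add, Matrix.add_mul]
  map_smul := by
    intro s a Y
    show Adx _ i (a • Y) = a • Adx _ i Y
    unfold Adx
    rw [Matrix.mul_smul, Matrix.smul_mul]
  tr := by
    intro s Y
    show (Adx _ i Y).trace = Y.trace
    unfold Adx
    rw [Matrix.trace_mul_comm, ← Matrix.mul_assoc, iso_inv_mul, Matrix.one_mul]
  reg := by
    intro Y a d
    have h1 : (fun q : Q => Adx (r q) i Y a d) ∈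
        quotAlg (prodAlg fun i => mAlg (isoHom (J i))) π := by
      show (fun s => Adx (r (π s)) i Y a d) ∈ prodAlg fun i => mAlg (isoHom (J i))
      have h2 : (fun s => Adx (r (π s)) i Y a d) = fun s => Adx s i Y a d := by
        funext s
        rw [Adx_eq_of_pi hF hZ (hr (π s))]
      rw [h2]
      exact Adx_reg i Y a d
    exact hreg _ h1

end

section Invol

variable {k : Type*} [Field k] {n : ℕ} {J : Matrix (Fin n) (Fin n) k}

/-- the involution of an invertible form -/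
noncomputable def star' (J Y : Matrix (Fin n) (Fin n) k) : Matrix (Fin n) (Fin n) k := J⁻¹ * Yᵀ * J

lemma star'_mul (hJ : J.det ≠ 0) (Y Z : Matrix (Fin n) (Fin n) k) :
    star' J (Y * Z) = star' J Z * star' J Y := by
  have hJu : IsUnit J.det := isUnit_iff_ne_zero.mpr hJ
  unfold star'
  rw [transpose_mul]
  calc J⁻¹ * (Zᵀ * Yᵀ) * J = J⁻¹ * Zᵀ * (J * J⁻¹) * Yᵀ * J := by
        rw [Matrix.mul_nonsing_inv _ hJu, Matrix.mul_one]; simp only [Matrix.mul_assoc]
    _ = _ := by simp only [Matrix.mul_assoc]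

lemma star'_surj (hJ : J.det ≠ 0) (Y : Matrix (Fin n) (Fin n) k) : ∃ Z, star' J Z = Y := by
  have hJu : IsUnit J.det := isUnit_iff_ne_zero.mpr hJ
  refine ⟨(J * Y * J⁻¹)ᵀ, ?_⟩
  unfold star'
  rw [transpose_transpose]
  calc J⁻¹ * (J * Y * J⁻¹) * J = (J⁻¹ * J) * Y * (J⁻¹ * J) := by simp only [Matrix.mul_assoc]
    _ = Y := by rw [Matrix.nonsing_inv_mul _ hJu, Matrix.one_mul, Matrix.mul_one]

lemma star'_conj (hJ : J.det ≠ 0) (g : IsoG J) (Y : Matrix (Fin n) (Fin n) k) :
    star' J (isoHom J g * Y * isoHom J g⁻¹) = isoHom J g * star' J Y * isoHom J g⁻¹ := by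
  have hJu : IsUnit J.det := isUnit_iff_ne_zero.mpr hJ
  have e3 : ∀ g : IsoG J, (isoHom J g)ᵀ * J = J * isoHom J g⁻¹ := by
    intro g
    calc (isoHom J g)ᵀ * J = (isoHom J g)ᵀ * J * (isoHom J g * isoHom J g⁻¹) := by
          rw [iso_mul_inv, Matrix.mul_one]
      _ = ((isoHom J g)ᵀ * J * isoHom J g) * isoHom J g⁻¹ := by simp only [Matrix.mul_assoc]
      _ = J * isoHom J g⁻¹ := by rw [isoHom_rel]
  have e4 : ∀ g : IsoG J, star' J (isoHom J g) = isoHom J g⁻¹ := by
    intro g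
    unfold star'
    rw [Matrix.mul_assoc, e3, ← Matrix.mul_assoc, Matrix.nonsing_inv_mul _ hJu, Matrix.one_mul]
  rw [star'_mul hJ, star'_mul hJ, e4, e4, inv_inv, Matrix.mul_assoc]

lemma star'_trace (hJ : J.det ≠ 0) (Y : Matrix (Fin n) (Fin n) k) :
    (star' J Y).trace = Y.trace := by
  have hJu : IsUnit J.det := isUnit_iff_ne_zero.mpr hJ
  unfold star'
  rw [Matrix.trace_mul_comm, ← Matrix.mul_assoc, Matrix.mul_nonsing_inv _ hJu, Matrix.one_mul,
    Matrix.trace_transpose]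

lemma mem_gJ_of_star' (hJ : J.det ≠ 0) {Y : Matrix (Fin n) (Fin n) k} (h : star' J Y = -Y)
    (h2 : Y.trace = 0) : Y ∈ gJ J := by
  have hJu : IsUnit J.det := isUnit_iff_ne_zero.mpr hJ
  refine ⟨?_, h2⟩
  have h1 : J * star' J Y = Yᵀ * J := by
    unfold star'
    rw [Matrix.mul_assoc, ← Matrix.mul_assoc, Matrix.mul_nonsing_inv _ hJu, Matrix.one_mul]
  rw [← h1, h, Matrix.mul_neg, neg_add_cancel]

/-- the involution as a linear map -/
noncomputable def starL (J : Matrix (Fin n) (Fin n) k) :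
    Matrix (Fin n) (Fin n) k →ₗ[k] Matrix (Fin n) (Fin n) k where
  toFun := star' J
  map_add' := by
    intro Y Z
    unfold star'
    rw [transpose_add, Matrix.mul_add, Matrix.add_mul]
  map_smul' := by
    intro r Y
    unfold star'
    rw [transpose_smul, Matrix.mul_smul, Matrix.smul_mul, RingHom.id_apply]

end Invol

section Mem

variable {k : Type*} [Field k] [CharZero k] {ι : Type*} [DecidableEq ι] [Fintype ι] {n : ι → ℕ}
  {J : ∀ i, Matrix (Fin (n i)) (Fin (n i)) k} {x : (∀ i, IsoG (J i)) → ∀ i, IsoG (J i)}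
  {D : ∀ i, Mt k n →ₗ[k] Matrix (Fin (n i)) (Fin (n i)) k}

theorem diff_mem (hF : ∀ i, LF (J i)) (hact : ∀ i, IsAct J (fun s Y => Adx (x s) i Y))
    (hD : ∀ i, IsDiff J (fun s Y => Adx (x s) i Y) (D i)) {X : Mt k n} (hX : X ∈ VJ J) (i : ι) :
    D i X ∈ gJ (J i) := by
  rcases (hF i).typ with h0 | hdet
  · rw [h0]
    refine ⟨by rw [Matrix.mul_zero, Matrix.zero_mul, add_zero], (hD i).1 X⟩
  refine VJ_ind (fun i => (hF i).span) (p := fun X => D i X ∈ gJ (J i)) ?_ ?_ ?_ ?_ hX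
  · intro j Y hY
    have hc := cv_uni j hY
    set Z := D i (Pi.single j Y) with hZ
    have hcomm : ∀ W, (Z + star' (J i) Z) * W = W * (Z + star' (J i) Z) := by
      intro W
      obtain ⟨V, rfl⟩ := star'_surj hdet W
      have h1 := (hD i).2 _ _ hc (star' (J i) V)
      have h2 := ((hD i).2 _ _ hc V).lin (starL (J i))
      have h3 := h1.uniq (h2.congr (fun t => (star'_conj hdet _ _).symm) rfl)
      have h4 : starL (J i) (Z * V - V * Z)
          = star' (J i) V * star' (J i) Z - star' (J i) Z * star' (J i) V := by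
        rw [map_sub]
        show star' (J i) (Z * V) - star' (J i) (V * Z) = _
        rw [star'_mul hdet, star'_mul hdet]
      rw [← hZ, h4] at h3
      have h5 : Z * star' (J i) V + star' (J i) Z * star' (J i) V
          = star' (J i) V * Z + star' (J i) V * star' (J i) Z := by
        have h6 : Z * star' (J i) V = star' (J i) V * star' (J i) Z
            - star' (J i) Z * star' (J i) V + star' (J i) V * Z := by rw [← h3]; abel
        rw [h6]
        abel
      rw [Matrix.add_mul, Matrix.mul_add, h5]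
    have h7 : Z + star' (J i) Z = 0 := by
      refine traceless_uniq ?_ (Matrix.trace_zero _ _) fun W => ?_
      · rw [Matrix.trace_add, star'_trace hdet, (hD i).1, add_zero]
      · rw [hcomm W, sub_self, Matrix.zero_mul, Matrix.mul_zero, sub_zero]
    exact mem_gJ_of_star' hdet (eq_neg_of_add_eq_zero_right h7) ((hD i).1 _)
  · show D i 0 ∈ gJ (J i)
    rw [map_zero]
    exact zero_mem _
  · intro X Y h1 h2
    show D i (X + Y) ∈ gJ (J i)
    rw [map_add]
    exact add_mem h1 h2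
  · intro r X h1
    show D i (r • X) ∈ gJ (J i)
    rw [map_smul]
    exact (gJ (J i)).smul_mem r h1

end Mem

end Pool.Agent.Helper14.RG.AU
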