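import Pool.Agent.Helper14.RG.AU.Inj

set_option autoImplicit false

/-!
# The differential of an automorphism permutes the factors
-/

namespace Pool.Agent.Helper14.RG.AU

open Polynomial Matrix Pool.Agent.Helper97.CG Pool.Agent.Helper14.RG

section Perm

variable {k : Type*} [Field k] [CharZero k] {ι : Type*} [DecidableEq ι] [Fintype ι] {n : ι → ℕ}
  {J : ∀ i, Matrix (Fin (n i)) (Fin (n i)) k} {Q : Type*} [Group Q]
  {π : (∀ i, IsoG (J i)) →* Q} {σ : Q ≃* Q} {r : Q → ∀ i, IsoG (J i)}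
  {D : ∀ i, Mt k n →ₗ[k] Matrix (Fin (n i)) (Fin (n i)) k}

lemma cj_single' (j : ι) (s : ∀ i, IsoG (J i)) (X : Matrix (Fin (n j)) (Fin (n j)) k) :
    cj s (Pi.single j X) = Pi.single j (isoHom (J j) (s j) * X * isoHom (J j) (s j)⁻¹) := by
  funext i
  show isoHom (J i) (s i) * (Pi.single j X : Mt k n) i * isoHom (J i) (s i)⁻¹ = _
  by_cases hij : i = j
  · subst hij
    rw [Pi.single_eq_same, Pi.single_eq_same]
  · rw [Pi.single_eq_of_ne hij, Pi.single_eq_of_ne hij, Matrix.mul_zero,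
      Matrix.zero_mul]

/-- the image of the factor `j` in the factor `i` -/
def imS (J : ∀ i, Matrix (Fin (n i)) (Fin (n i)) k)
    (D : ∀ i, Mt k n →ₗ[k] Matrix (Fin (n i)) (Fin (n i)) k) (i j : ι) :
    Submodule k (Matrix (Fin (n i)) (Fin (n i)) k) :=
  (gJ (J j)).map ((D i).comp (LinearMap.single k (fun i => Matrix (Fin (n i)) (Fin (n i)) k) j))

lemma mem_imS {i j : ι} {Y : Matrix (Fin (n i)) (Fin (n i)) k} :
    Y ∈ imS J D i j ↔ ∃ X ∈ gJ (J j), D i (Pi.single j X) = Y := Iff.rfl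

structure Setup (J : ∀ i, Matrix (Fin (n i)) (Fin (n i)) k) (π : (∀ i, IsoG (J i)) →* Q)
    (σ : Q ≃* Q) (r : Q → ∀ i, IsoG (J i))
    (D : ∀ i, Mt k n →ₗ[k] Matrix (Fin (n i)) (Fin (n i)) k) : Prop where
  hF : ∀ i, LF (J i)
  hZ : π.ker ≤ Subgroup.center (∀ i, IsoG (J i))
  hπ : Function.Surjective π
  hr : ∀ q, π (r q) = q
  hact : ∀ i, IsAct J (fun s Y => Adx (r (σ (π s))) i Y)
  hD : ∀ i, IsDiff J (fun s Y => Adx (r (σ (π s))) i Y) (D i)

variable (S : Setup J π σ r D)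

include S

lemma Setup.sp (i : ι) : Spans (J i) := (S.hF i).span

/-- surjectivity of the differential -/
lemma Setup.surj (i : ι) {Y : Matrix (Fin (n i)) (Fin (n i)) k} (hY : Y ∈ gJ (J i)) :
    ∃ X ∈ VJ J, D i X = Y := by
  let DD : VJ J →ₗ[k] VJ J :=
    { toFun := fun X => ⟨fun i => D i X.1, fun i => diff_mem S.hF S.hact S.hD X.2 i⟩
      map_add' := fun X X' => by
        apply Subtype.ext
        funext i
        exact map_add (D i) _ _
      map_smul' := fun a X => by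
        apply Subtype.ext
        funext i
        exact map_smul (D i) _ _ }
  have hinj : Function.Injective DD := by
    rw [← LinearMap.ker_eq_bot, LinearMap.ker_eq_bot']
    intro X hX
    apply Subtype.ext
    refine diff_inj S.hF S.hZ S.hπ S.hr S.hact S.hD X.2 fun i => ?_
    exact congrFun (congrArg Subtype.val hX) i
  have hsurj : Function.Surjective DD := LinearMap.injective_iff_surjective.mp hinj
  obtain ⟨X, hX⟩ := hsurj ⟨Pi.single i Y, single_mem_VJ hY⟩
  refine ⟨X.1, X.2, ?_⟩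
  have h1 := congrFun (congrArg Subtype.val hX) i
  have h2 : D i X.1 = (Pi.single i Y : Mt k n) i := h1
  rw [h2, Pi.single_eq_same]

lemma Setup.sum (i : ι) (X : Mt k n) : D i X = ∑ j, D i (Pi.single j (X j)) := by
  conv_lhs => rw [← Finset.univ_sum_single X]
  rw [map_sum]

/-- the image is stable -/
lemma Setup.im_stable (i j : ι) (h : IsoG (J i)) {Y : Matrix (Fin (n i)) (Fin (n i)) k}
    (hY : Y ∈ imS J D i j) : isoHom (J i) h * Y * isoHom (J i) h⁻¹ ∈ imS J D i j := by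
  obtain ⟨X, hX, rfl⟩ := hY
  obtain ⟨s, hs⟩ := S.hπ (σ.symm (π (Pi.mulSingle i h)))
  have h1 : π (r (σ (π s))) = π (Pi.mulSingle i h) := by
    rw [S.hr, hs, MulEquiv.apply_symm_apply]
  refine ⟨isoHom (J j) (s j) * X * isoHom (J j) (s j)⁻¹, conj_mem_gJ _ hX, ?_⟩
  show D i (Pi.single j _) = _
  rw [← cj_single' j s X, (S.hD i).equiv S.sp (S.hact i) (single_mem_VJ hX), Adx_eq_of_pi S.hF S.hZ h1]
  unfold Adx
  rw [Pi.mulSingle_eq_same]
  rfl

lemma Setup.im_le (i j : ι) : imS J D i j ≤ gJ (J i) := by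
  rintro _ ⟨X, hX, rfl⟩
  exact diff_mem S.hF S.hact S.hD (single_mem_VJ hX) i

lemma Setup.im_or (i j : ι) : imS J D i j = ⊥ ∨ imS J D i j = gJ (J i) :=
  (S.hF i).sim _ (S.im_le i j) fun h _ hX => S.im_stable i j h hX

lemma Setup.im_zero {i j : ι} (h : imS J D i j = ⊥) {X : Matrix (Fin (n j)) (Fin (n j)) k}
    (hX : X ∈ gJ (J j)) : D i (Pi.single j X) = 0 := by
  have h1 : D i (Pi.single j X) ∈ imS J D i j := ⟨X, hX, rfl⟩
  rw [h, Submodule.mem_bot] at h1
  exact h1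

lemma Setup.exists_im {i : ι} (hi : gJ (J i) ≠ ⊥) : ∃ j, imS J D i j ≠ ⊥ := by
  by_contra hcon
  push Not at hcon
  apply hi
  rw [Submodule.eq_bot_iff]
  intro Y hY
  obtain ⟨X, hX, rfl⟩ := S.surj i hY
  rw [S.sum]
  exact Finset.sum_eq_zero fun j _ => S.im_zero (hcon j) (hX j)

lemma Setup.im_unique {i j l : ι} (hi : gJ (J i) ≠ ⊥) (hj : imS J D i j ≠ ⊥)
    (hl : imS J D i l ≠ ⊥) : j = l := by
  by_contra hjl
  have ej := (S.im_or i j).resolve_left hj
  have el := (S.im_or i l).resolve_left hl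
  apply hi
  rw [Submodule.eq_bot_iff]
  intro Y hY
  obtain ⟨c, hc⟩ := (S.hF i).lc Y (fun Z hZ => by
    have h1 : Y ∈ imS J D i j := by rw [ej]; exact hY
    have h2 : Z ∈ imS J D i l := by rw [el]; exact hZ
    obtain ⟨X, hX, rfl⟩ := h1
    obtain ⟨X', hX', rfl⟩ := h2
    have h3 := (S.hD i).lie S.sp (S.hact i) (single_mem_VJ hX') (single_mem_VJ hX)
    have h4 : (Pi.single j X : Mt k n) * (Pi.single l X' : Mt k n)
        - (Pi.single l X' : Mt k n) * (Pi.single j X : Mt k n) = 0 := by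
      funext a
      rw [Pi.sub_apply, Pi.mul_apply, Pi.mul_apply, Pi.zero_apply]
      by_cases ha : a = j
      · have hal : a ≠ l := fun h => hjl (ha.symm.trans h)
        rw [Pi.single_eq_of_ne hal, Matrix.mul_zero, Matrix.zero_mul, sub_zero]
      · rw [Pi.single_eq_of_ne ha, Matrix.mul_zero, Matrix.zero_mul, sub_zero]
    rw [h4, map_zero] at h3
    exact (sub_eq_zero.mp h3.symm))
  exact scalar_traceless hc hY.2

lemma Setup.inj_single {i j : ι} (hj : imS J D i j ≠ ⊥)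
    {X : Matrix (Fin (n j)) (Fin (n j)) k} (hX : X ∈ gJ (J j)) (h0 : D i (Pi.single j X) = 0) :
    X = 0 := by
  let I : Submodule k (Matrix (Fin (n j)) (Fin (n j)) k) :=
    { carrier := {Y | Y ∈ gJ (J j) ∧ D i (Pi.single j Y) = 0}
      add_mem' := by
        rintro Y Z ⟨h1, h2⟩ ⟨h3, h4⟩
        refine ⟨add_mem h1 h3, ?_⟩
        rw [Pi.single_add, map_add, h2, h4, add_zero]
      zero_mem' := ⟨zero_mem _, by rw [Pi.single_zero, map_zero]⟩
      smul_mem' := by
        rintro a Y ⟨h1, h2⟩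
        refine ⟨(gJ (J j)).smul_mem a h1, ?_⟩
        have : (Pi.single j (a • Y) : Mt k n) = a • Pi.single j Y := by rw [← Pi.single_smul]
        rw [this, map_smul, h2, smul_zero] }
  have hIst : ∀ (g : IsoG (J j)), ∀ Y ∈ I, isoHom (J j) g * Y * isoHom (J j) g⁻¹ ∈ I := by
    rintro g Y ⟨h1, h2⟩
    refine ⟨conj_mem_gJ g h1, ?_⟩
    rw [← cj_single, (S.hD i).equiv S.sp (S.hact i) (single_mem_VJ h1), h2]
    exact map_zero ((S.hact i).lin _)
  rcases (S.hF j).sim I (fun Y hY => hY.1) hIst with h1 | h1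
  · have h2 : X ∈ I := ⟨hX, h0⟩
    rw [h1, Submodule.mem_bot] at h2
    exact h2
  · exfalso
    apply hj
    rw [Submodule.eq_bot_iff]
    rintro _ ⟨Z, hZ, rfl⟩
    have h2 : Z ∈ I := by rw [h1]; exact hZ
    exact h2.2

theorem Setup.exists_perm : ∃ p : Equiv.Perm ι, (∀ i, gJ (J i) = ⊥ → p i = i) ∧
    ∀ i, gJ (J i) ≠ ⊥ → gJ (J (p i)) ≠ ⊥ ∧
      (∀ X ∈ gJ (J (p i)), D i (Pi.single (p i) X) ∈ gJ (J i)) ∧
      (∀ Y ∈ gJ (J i), ∃ X ∈ gJ (J (p i)), D i (Pi.single (p i) X) = Y) ∧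
      (∀ X ∈ gJ (J (p i)), D i (Pi.single (p i) X) = 0 → X = 0) := by
  classical
  choose p0 hp0 using fun (i : ι) (hi : gJ (J i) ≠ ⊥) => S.exists_im hi
  let P : ι → ι := fun i => if hi : gJ (J i) ≠ ⊥ then p0 i hi else i
  have hP1 : ∀ i, gJ (J i) = ⊥ → P i = i := by
    intro i hi
    show (if hi : gJ (J i) ≠ ⊥ then p0 i hi else i) = i
    rw [dif_neg (not_not.mpr hi)]
  have hP2 : ∀ i, gJ (J i) ≠ ⊥ → imS J D i (P i) ≠ ⊥ := by
    intro i hi
    have : P i = p0 i hi := by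
      show (if hi : gJ (J i) ≠ ⊥ then p0 i hi else i) = p0 i hi
      rw [dif_pos hi]
    rw [this]
    exact hp0 i hi
  have hsurj : Function.Surjective P := by
    intro j
    by_cases hj : gJ (J j) = ⊥
    · exact ⟨j, hP1 j hj⟩
    · by_contra hcon
      push Not at hcon
      obtain ⟨X, hX, hX0⟩ := Submodule.exists_mem_ne_zero_of_ne_bot hj
      have h1 : (Pi.single j X : Mt k n) = 0 := by
        refine diff_inj S.hF S.hZ S.hπ S.hr S.hact S.hD (single_mem_VJ hX) fun i => ?_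
        by_cases hi : gJ (J i) = ⊥
        · have h2 := S.im_le i j ⟨X, hX, rfl⟩
          rw [hi, Submodule.mem_bot] at h2
          exact h2
        · apply S.im_zero _ hX
          by_contra hne
          exact hcon i (S.im_unique hi (hP2 i hi) hne)
      apply hX0
      have h2 := congrFun h1 j
      rw [Pi.single_eq_same] at h2
      exact h2
  have hbij : Function.Bijective P := ⟨Finite.injective_iff_surjective.mpr hsurj, hsurj⟩
  refine ⟨Equiv.ofBijective P hbij, hP1, fun i hi => ?_⟩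
  have h1 := hP2 i hi
  have e1 := (S.im_or i (P i)).resolve_left h1
  refine ⟨?_, ?_, ?_, ?_⟩
  · intro h0'
    have h0 : gJ (J (P i)) = ⊥ := h0'
    apply h1
    rw [Submodule.eq_bot_iff]
    rintro _ ⟨Z, hZ, rfl⟩
    have hZ' : Z ∈ gJ (J (P i)) := hZ
    rw [h0, Submodule.mem_bot] at hZ'
    rw [hZ', map_zero]
  · intro X hX
    exact S.im_le i (P i) ⟨X, hX, rfl⟩
  · intro Y hY
    have h2 : Y ∈ imS J D i (P i) := by rw [e1]; exact hY
    exact h2
  · intro X hX h0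
    exact S.inj_single h1 hX h0

end Perm

end Pool.Agent.Helper14.RG.AU
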