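import Pool.Agent.Helper14.RG.AU.TrS

set_option autoImplicit false

/-!
# Traces of endomorphisms of matrix spaces
-/

namespace Pool.Agent.Helper14.RG.AU

open Matrix Pool.Agent.Helper97.CG Pool.Agent.Helper14.RG

section

variable {k : Type*} [Field k] {m n : ℕ}

lemma trace_eq_sum (f : Matrix (Fin n) (Fin n) k →ₗ[k] Matrix (Fin n) (Fin n) k) :
    LinearMap.trace k _ f = ∑ i, ∑ j, f (single i j 1) i j := by
  rw [LinearMap.trace_eq_matrix_trace k (Matrix.stdBasis k (Fin n) (Fin n)), Matrix.trace,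
    Fintype.sum_prod_type]
  refine Finset.sum_congr rfl fun i _ => Finset.sum_congr rfl fun j _ => ?_
  rw [Matrix.diag_apply, LinearMap.toMatrix_apply, Matrix.stdBasis_eq_single]
  rfl

lemma trace_lrm (A B : Matrix (Fin n) (Fin n) k) :
    LinearMap.trace k _ (lrm A B) = A.trace * B.trace := by
  rw [trace_eq_sum, Matrix.trace, Matrix.trace, Finset.sum_mul_sum]
  refine Finset.sum_congr rfl fun i _ => Finset.sum_congr rfl fun j _ => ?_
  rw [lrm_apply, Matrix.diag_apply, Matrix.diag_apply, Matrix.mul_apply, Finset.sum_eq_single j]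
  · rw [Matrix.mul_single_apply_same, mul_one]
  · intro b _ hb
    rw [Matrix.mul_single_apply_of_ne _ _ _ _ _ hb, zero_mul]
  · intro h
    exact absurd (Finset.mem_univ j) h

/-- the transpose as a linear map -/
def trm (k : Type*) [Field k] (n : ℕ) : Matrix (Fin n) (Fin n) k →ₗ[k] Matrix (Fin n) (Fin n) k where
  toFun Z := Zᵀ
  map_add' X Y := transpose_add X Y
  map_smul' r X := transpose_smul r X

lemma trm_apply (Z : Matrix (Fin n) (Fin n) k) : trm k n Z = Zᵀ := rfl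

lemma trace_lrm_trm (A B : Matrix (Fin n) (Fin n) k) :
    LinearMap.trace k _ (lrm A B ∘ₗ trm k n) = (A * Bᵀ).trace := by
  rw [trace_eq_sum, Matrix.trace]
  refine Finset.sum_congr rfl fun i _ => ?_
  rw [Matrix.diag_apply, Matrix.mul_apply]
  refine Finset.sum_congr rfl fun j _ => ?_
  rw [LinearMap.comp_apply, trm_apply, lrm_apply, Matrix.transpose_single, Matrix.mul_apply,
    Finset.sum_eq_single i]
  · rw [Matrix.mul_single_apply_same, mul_one, Matrix.transpose_apply]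
  · intro b _ hb
    rw [Matrix.mul_single_apply_of_ne _ _ _ _ _ hb, zero_mul]
  · intro h
    exact absurd (Finset.mem_univ i) h

/-- `Z ↦ tr Z • N` -/
def tsm (N : Matrix (Fin n) (Fin n) k) : Matrix (Fin n) (Fin n) k →ₗ[k] Matrix (Fin n) (Fin n) k where
  toFun Z := Z.trace • N
  map_add' X Y := by rw [Matrix.trace_add, add_smul]
  map_smul' r X := by rw [Matrix.trace_smul, smul_eq_mul, mul_smul, RingHom.id_apply]

lemma tsm_apply (N Z : Matrix (Fin n) (Fin n) k) : tsm N Z = Z.trace • N := rfl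

lemma trace_tsm (N : Matrix (Fin n) (Fin n) k) :
    LinearMap.trace k _ (tsm N) = N.trace := by
  rw [trace_eq_sum, Matrix.trace]
  refine Finset.sum_congr rfl fun i _ => ?_
  rw [Finset.sum_eq_single i, tsm_apply, Matrix.trace_single_eq_same, one_smul, Matrix.diag_apply]
  · intro b _ hb
    rw [tsm_apply, Matrix.trace_single_eq_of_ne _ _ _ (Ne.symm hb), zero_smul, Matrix.zero_apply]
  · intro h
    exact absurd (Finset.mem_univ i) h

lemma lrm_comp (A B A' B' : Matrix (Fin n) (Fin n) k) :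
    lrm A B ∘ₗ lrm A' B' = lrm (A * A') (B' * B) := by
  refine LinearMap.ext fun Z => ?_
  rw [LinearMap.comp_apply, lrm_apply, lrm_apply, lrm_apply]
  simp only [Matrix.mul_assoc]

lemma lie_mem_gJ {J X Z : Matrix (Fin n) (Fin n) k} (hX : X ∈ gJ J) (hZ : Z ∈ gJ J) :
    X * Z - Z * X ∈ gJ J := by
  have h1 : Xᵀ * J = -(J * X) := eq_neg_of_add_eq_zero_left hX.1
  have h2 : Zᵀ * J = -(J * Z) := eq_neg_of_add_eq_zero_left hZ.1
  refine ⟨?_, ?_⟩
  · have e1 : (X * Z)ᵀ * J = J * (Z * X) := by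
      rw [transpose_mul, Matrix.mul_assoc, h1, Matrix.mul_neg, ← Matrix.mul_assoc, h2,
        Matrix.neg_mul, neg_neg, Matrix.mul_assoc]
    have e2 : (Z * X)ᵀ * J = J * (X * Z) := by
      rw [transpose_mul, Matrix.mul_assoc, h2, Matrix.mul_neg, ← Matrix.mul_assoc, h1,
        Matrix.neg_mul, neg_neg, Matrix.mul_assoc]
    rw [transpose_sub, Matrix.sub_mul, e1, e2, Matrix.mul_sub]
    abel
  · rw [Matrix.trace_sub, Matrix.trace_mul_comm, sub_self]

lemma adm_mem {J X Z : Matrix (Fin n) (Fin n) k} (hX : X ∈ gJ J) (hZ : Z ∈ gJ J) :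
    adm X Z ∈ gJ J := by
  rw [adm_apply]
  exact lie_mem_gJ hX hZ

/-- the inverse of an isomorphism of subspaces -/
lemma exists_inverse {G : Submodule k (Matrix (Fin m) (Fin m) k)}
    {G' : Submodule k (Matrix (Fin n) (Fin n) k)}
    {s' : Matrix (Fin n) (Fin n) k →ₗ[k] Matrix (Fin n) (Fin n) k}
    (hs' : ∀ Z, s' Z ∈ G') (hs1' : ∀ Z ∈ G', s' Z = Z)
    {D : Matrix (Fin m) (Fin m) k →ₗ[k] Matrix (Fin n) (Fin n) k}
    (hD : ∀ X ∈ G, D X ∈ G') (hsurj : ∀ Y ∈ G', ∃ X ∈ G, D X = Y)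
    (hinj : ∀ X ∈ G, D X = 0 → X = 0) :
    ∃ E : Matrix (Fin n) (Fin n) k →ₗ[k] Matrix (Fin m) (Fin m) k, (∀ Y, E Y ∈ G) ∧
      (∀ Y, D (E Y) = s' Y) ∧ (∀ X ∈ G, E (D X) = X) := by
  let e : G →ₗ[k] G' := (D.domRestrict G).codRestrict G' (fun X => hD X.1 X.2)
  have he : Function.Bijective e := by
    constructor
    · rw [← LinearMap.ker_eq_bot, Submodule.eq_bot_iff]
      intro X hX
      have h1 : e X = 0 := hX
      have h2 : D X.1 = 0 := congrArg Subtype.val h1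
      exact Subtype.ext (hinj X.1 X.2 h2)
    · intro Y
      obtain ⟨X, hX, h⟩ := hsurj Y.1 Y.2
      exact ⟨⟨X, hX⟩, Subtype.ext h⟩
  let eq : G ≃ₗ[k] G' := LinearEquiv.ofBijective e he
  let E : Matrix (Fin n) (Fin n) k →ₗ[k] Matrix (Fin m) (Fin m) k :=
    (G.subtype ∘ₗ eq.symm.toLinearMap) ∘ₗ (s'.codRestrict G' hs')
  have hE : ∀ Y, E Y ∈ G := fun Y => (eq.symm (s'.codRestrict G' hs' Y)).2
  have hDE : ∀ Y, D (E Y) = s' Y := by
    intro Y
    have h1 : eq (eq.symm (s'.codRestrict G' hs' Y)) = s'.codRestrict G' hs' Y :=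
      LinearEquiv.apply_symm_apply eq _
    exact congrArg Subtype.val h1
  have hED : ∀ X ∈ G, E (D X) = X := by
    intro X hX
    have h1 : D (E (D X)) = D X := by rw [hDE, hs1' _ (hD X hX)]
    have h2 : D (E (D X) - X) = 0 := by rw [map_sub, h1, sub_self]
    exact sub_eq_zero.mp (hinj _ (G.sub_mem (hE _) hX) h2)
  exact ⟨E, hE, hDE, hED⟩

/-- invariance of the trace on a subspace -/
lemma trace_transfer {G : Submodule k (Matrix (Fin m) (Fin m) k)}
    {G' : Submodule k (Matrix (Fin n) (Fin n) k)}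
    {s : Matrix (Fin m) (Fin m) k →ₗ[k] Matrix (Fin m) (Fin m) k}
    {s' : Matrix (Fin n) (Fin n) k →ₗ[k] Matrix (Fin n) (Fin n) k}
    (hs : ∀ Z, s Z ∈ G) (hs1 : ∀ Z ∈ G, s Z = Z) (hs' : ∀ Z, s' Z ∈ G')
    (hs1' : ∀ Z ∈ G', s' Z = Z)
    {D : Matrix (Fin m) (Fin m) k →ₗ[k] Matrix (Fin n) (Fin n) k}
    (hD : ∀ X ∈ G, D X ∈ G') (hsurj : ∀ Y ∈ G', ∃ X ∈ G, D X = Y)
    (hinj : ∀ X ∈ G, D X = 0 → X = 0)
    {f : Matrix (Fin m) (Fin m) k →ₗ[k] Matrix (Fin m) (Fin m) k}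
    {f' : Matrix (Fin n) (Fin n) k →ₗ[k] Matrix (Fin n) (Fin n) k}
    (hf : ∀ X ∈ G, f X ∈ G) (hff : ∀ X ∈ G, D (f X) = f' (D X)) :
    LinearMap.trace k _ (f' ∘ₗ s') = LinearMap.trace k _ (f ∘ₗ s) := by
  obtain ⟨E, hE, hDE, hED⟩ := exists_inverse hs' hs1' hD hsurj hinj
  have h1 : f' ∘ₗ s' = D ∘ₗ (f ∘ₗ E) := by
    refine LinearMap.ext fun Y => ?_
    rw [LinearMap.comp_apply, LinearMap.comp_apply, LinearMap.comp_apply, hff _ (hE Y), hDE]
  rw [h1, LinearMap.trace_comp_comm']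
  have h2 : f ∘ₗ s = (E ∘ₗ D) ∘ₗ (f ∘ₗ s) := by
    refine LinearMap.ext fun Y => ?_
    rw [LinearMap.comp_apply, LinearMap.comp_apply, LinearMap.comp_apply, LinearMap.comp_apply]
    exact (hED _ (hf _ (hs Y))).symm
  have h3 : (f ∘ₗ E) ∘ₗ D = (f ∘ₗ s) ∘ₗ (E ∘ₗ D) := by
    refine LinearMap.ext fun Y => ?_
    rw [LinearMap.comp_apply, LinearMap.comp_apply, LinearMap.comp_apply, LinearMap.comp_apply,
      LinearMap.comp_apply, hs1 _ (hE _)]
  rw [h3, LinearMap.trace_comp_comm', ← h2]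

/-- an isomorphism of Lie algebras gives the trace relations -/
theorem trRel {J : Matrix (Fin m) (Fin m) k} {A B C d : k} {J' : Matrix (Fin n) (Fin n) k}
    {A' B' C' d' : k} {D : Matrix (Fin m) (Fin m) k →ₗ[k] Matrix (Fin n) (Fin n) k}
    (T : TD J A B C d) (T' : TD J' A' B' C' d') (hD : LIso J J' D) :
    TrRel J A B C d J' A' B' C' d' D := by
  obtain ⟨s, s1, s2, s3, s4, s5⟩ := T.pr
  obtain ⟨s', s1', s2', s3', s4', s5'⟩ := T'.pr
  have hDa : ∀ X ∈ gJ J, ∀ Z ∈ gJ J, D (adm X Z) = adm (D X) (D Z) := by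
    intro X hX Z hZ
    rw [adm_apply, adm_apply, hD.lie X hX Z hZ]
  refine ⟨?_, ?_, ?_⟩
  · have h1 := trace_transfer s1 s2 s1' s2' hD.mem hD.surj hD.inj (f := LinearMap.id)
      (f' := LinearMap.id) (fun X hX => hX) (fun X _ => rfl)
    rw [LinearMap.id_comp, LinearMap.id_comp, s3, s3'] at h1
    exact h1
  · intro X hX W hW
    have h1 := trace_transfer s1 s2 s1' s2' hD.mem hD.surj hD.inj (f := adm X ∘ₗ adm W)
      (f' := adm (D X) ∘ₗ adm (D W)) (fun Z hZ => adm_mem hX (adm_mem hW hZ)) (fun Z hZ => by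
        rw [LinearMap.comp_apply, LinearMap.comp_apply, hDa X hX _ (adm_mem hW hZ),
          hDa W hW Z hZ])
    rw [s4 X hX W hW, s4' _ (hD.mem X hX) _ (hD.mem W hW)] at h1
    exact h1
  · intro X hX W hW
    have hDa4 : ∀ Z ∈ gJ J, D (adm X (adm X (adm X (adm W Z))))
        = adm (D X) (adm (D X) (adm (D X) (adm (D W) (D Z)))) := by
      intro Z hZ
      rw [hDa X hX _ (adm_mem hX (adm_mem hX (adm_mem hW hZ))),
          hDa X hX _ (adm_mem hX (adm_mem hW hZ)), hDa X hX _ (adm_mem hW hZ), hDa W hW Z hZ]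
    have hm4 : ∀ Z ∈ gJ J, adm X (adm X (adm X (adm W Z))) ∈ gJ J := fun Z hZ =>
      adm_mem hX (adm_mem hX (adm_mem hX (adm_mem hW hZ)))
    have h1 := trace_transfer s1 s2 s1' s2' hD.mem hD.surj hD.inj
      (f := adm X ∘ₗ adm X ∘ₗ adm X ∘ₗ adm W)
      (f' := adm (D X) ∘ₗ adm (D X) ∘ₗ adm (D X) ∘ₗ adm (D W))
      (fun Z hZ => hm4 Z hZ) (fun Z hZ => hDa4 Z hZ)
    rw [s5 X hX W hW, s5' _ (hD.mem X hX) _ (hD.mem W hW)] at h1
    exact h1

end

end Pool.Agent.Helper14.RG.AU
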