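import Pool.Agent.Helper14.RG.AU.TrA
import Pool.Agent.Helper14.RG.AU.FacC

set_option autoImplicit false

/-!
# Trace data of the three types
-/

namespace Pool.Agent.Helper14.RG.AU

open Matrix Pool.Agent.Helper97.CG Pool.Agent.Helper14.RG

section

variable {k : Type*} [Field k] {n : ℕ}

lemma adm2 (X W : Matrix (Fin n) (Fin n) k) :
    adm X ∘ₗ adm W = lrm (X * W) 1 - lrm X W - lrm W X + lrm 1 (W * X) := by
  refine LinearMap.ext fun Z => ?_
  rw [LinearMap.comp_apply, LinearMap.add_apply, LinearMap.sub_apply, LinearMap.sub_apply,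
    lrm_apply, lrm_apply, lrm_apply, lrm_apply, adm_apply, adm_apply]
  noncomm_ring

lemma adm4 (X W : Matrix (Fin n) (Fin n) k) :
    adm X ∘ₗ adm X ∘ₗ adm X ∘ₗ adm W = lrm (X * X * X * W) 1 - lrm (X * X * X) W
      - (3 : k) • lrm (X * X * W) X + (3 : k) • lrm (X * X) (W * X)
      + (3 : k) • lrm (X * W) (X * X) - (3 : k) • lrm X (W * X * X)
      - lrm W (X * X * X) + lrm 1 (W * X * X * X) := by
  refine LinearMap.ext fun Z => ?_
  have h3 : (3 : k) = ((3 : ℕ) : k) := by norm_num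
  rw [h3]
  simp only [LinearMap.comp_apply, LinearMap.add_apply, LinearMap.sub_apply,
    LinearMap.smul_apply, lrm_apply, adm_apply, Nat.cast_smul_eq_nsmul]
  noncomm_ring

end

section Form

variable {k : Type*} [Field k] [CharZero k] {n : ℕ} {J : Matrix (Fin n) (Fin n) k} {ε : k}

/-- the involution of a form -/
lemma stp_one (hJ : J.det ≠ 0) : J⁻¹ * (1 : Matrix (Fin n) (Fin n) k)ᵀ * J = 1 := by
  rw [transpose_one, Matrix.mul_one, Matrix.nonsing_inv_mul _ (isUnit_iff_ne_zero.mpr hJ)]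

lemma stp_mul (hJ : J.det ≠ 0) (Y Z : Matrix (Fin n) (Fin n) k) :
    J⁻¹ * (Y * Z)ᵀ * J = (J⁻¹ * Zᵀ * J) * (J⁻¹ * Yᵀ * J) := by
  have h := Matrix.mul_nonsing_inv _ (isUnit_iff_ne_zero.mpr hJ)
  calc J⁻¹ * (Y * Z)ᵀ * J = J⁻¹ * Zᵀ * (1 * Yᵀ) * J := by
        rw [transpose_mul, Matrix.one_mul]
        simp only [Matrix.mul_assoc]
    _ = (J⁻¹ * Zᵀ * J) * (J⁻¹ * Yᵀ * J) := by
        rw [← h]
        simp only [Matrix.mul_assoc]

lemma stp_of_mem (hJ : J.det ≠ 0) {X : Matrix (Fin n) (Fin n) k} (hX : X ∈ gJ J) :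
    J⁻¹ * Xᵀ * J = -X := by
  have h1 : Xᵀ * J = -(J * X) := eq_neg_of_add_eq_zero_left hX.1
  rw [Matrix.mul_assoc, h1, Matrix.mul_neg, ← Matrix.mul_assoc,
    Matrix.nonsing_inv_mul _ (isUnit_iff_ne_zero.mpr hJ), Matrix.one_mul]

/-- projection to the Lie algebra -/
noncomputable def prJ (J : Matrix (Fin n) (Fin n) k) :
    Matrix (Fin n) (Fin n) k →ₗ[k] Matrix (Fin n) (Fin n) k :=
  (2 : k)⁻¹ • (LinearMap.id - lrm J⁻¹ J ∘ₗ trm k n)

lemma prJ_apply (J Z : Matrix (Fin n) (Fin n) k) :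
    prJ J Z = (2 : k)⁻¹ • (Z - J⁻¹ * Zᵀ * J) := rfl

lemma prJ_mem (hε : ε * ε = 1) (hJ : Jᵀ = ε • J) (hdet : J.det ≠ 0)
    (Z : Matrix (Fin n) (Fin n) k) : prJ J Z ∈ gJ J := by
  have hu := isUnit_iff_ne_zero.mpr hdet
  have h1 := Matrix.mul_nonsing_inv _ hu
  have h2 := Matrix.nonsing_inv_mul _ hu
  have hJi : (J⁻¹)ᵀ = ε • J⁻¹ := by
    have e1 : Jᵀ * (ε • J⁻¹) = 1 := by
      rw [hJ, Matrix.smul_mul, Matrix.mul_smul, smul_smul, hε, one_smul, h1]
    have e2 : (J⁻¹)ᵀ * Jᵀ = 1 := by rw [← transpose_mul, h1, transpose_one]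
    calc (J⁻¹)ᵀ = (J⁻¹)ᵀ * (Jᵀ * (ε • J⁻¹)) := by rw [e1, Matrix.mul_one]
      _ = ε • J⁻¹ := by rw [← Matrix.mul_assoc, e2, Matrix.one_mul]
  have key : (prJ J Z)ᵀ * J + J * prJ J Z = 0 := by
    have e3 : (J⁻¹ * Zᵀ * J)ᵀ * J = J * Z := by
      rw [transpose_mul, transpose_mul, transpose_transpose, hJ, hJi]
      rw [Matrix.smul_mul, Matrix.smul_mul, Matrix.mul_smul, Matrix.mul_smul, Matrix.smul_mul,
        smul_smul, hε, one_smul, Matrix.mul_assoc, Matrix.mul_assoc, h2, Matrix.mul_one]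
    have e4 : J * (J⁻¹ * Zᵀ * J) = Zᵀ * J := by
      rw [← Matrix.mul_assoc, ← Matrix.mul_assoc, h1, Matrix.one_mul]
    rw [prJ_apply, transpose_smul, Matrix.smul_mul, Matrix.mul_smul, transpose_sub,
      Matrix.sub_mul, Matrix.mul_sub, e3, e4, ← smul_add]
    rw [show Zᵀ * J - J * Z + (J * Z - Zᵀ * J) = 0 by abel, smul_zero]
  exact ⟨key, trace_zero_of_skew hdet key⟩

lemma prJ_of_mem (hdet : J.det ≠ 0) {Z : Matrix (Fin n) (Fin n) k} (hZ : Z ∈ gJ J) :
    prJ J Z = Z := by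
  rw [prJ_apply, stp_of_mem hdet hZ, sub_neg_eq_add, ← two_smul k Z, smul_smul,
    inv_mul_cancel₀ two_ne_zero, one_smul]

lemma trace_lrm_prJ (hJ : Jᵀ = ε • J) (A B : Matrix (Fin n) (Fin n) k) :
    LinearMap.trace k _ (lrm A B ∘ₗ prJ J)
      = (2 : k)⁻¹ * (A.trace * B.trace - ε * (A * (J⁻¹ * Bᵀ * J)).trace) := by
  have h1 : lrm A B ∘ₗ prJ J = (2 : k)⁻¹ • (lrm A B - lrm (A * J⁻¹) (J * B) ∘ₗ trm k n) := by
    refine LinearMap.ext fun Z => ?_
    rw [LinearMap.comp_apply, lrm_apply, prJ_apply, LinearMap.smul_apply, LinearMap.sub_apply,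
      LinearMap.comp_apply, trm_apply, lrm_apply, lrm_apply, Matrix.mul_smul, Matrix.smul_mul,
      Matrix.mul_sub, Matrix.sub_mul]
    congr 2
    simp only [Matrix.mul_assoc]
  rw [h1, map_smul, map_sub, trace_lrm, trace_lrm_trm, smul_eq_mul, transpose_mul, hJ,
    Matrix.mul_smul, Matrix.mul_smul, Matrix.trace_smul, smul_eq_mul]
  congr 4
  simp only [Matrix.mul_assoc]

theorem TD_form (hε : ε * ε = 1) (hJ : Jᵀ = ε • J) (hdet : J.det ≠ 0) :
    TD J ((n : k) - 2 * ε) ((n : k) - 8 * ε) 3 ((2 : k)⁻¹ * ((n : k) * n - ε * n)) := by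
  have h2 : (2 : k)⁻¹ * 2 = 1 := inv_mul_cancel₀ two_ne_zero
  have htr1 : (1 : Matrix (Fin n) (Fin n) k).trace = (n : k) := by
    rw [Matrix.trace_one, Fintype.card_fin]
  refine ⟨⟨prJ J, prJ_mem hε hJ hdet, fun Z hZ => prJ_of_mem hdet hZ, ?_, ?_, ?_⟩, ?_⟩
  · have h1 : prJ J = lrm 1 1 ∘ₗ prJ J := by
      refine LinearMap.ext fun Z => ?_
      rw [LinearMap.comp_apply, lrm_apply, Matrix.one_mul, Matrix.mul_one]
    rw [h1, trace_lrm_prJ hJ, stp_one hdet, Matrix.mul_one, htr1]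
  · intro X hX W hW
    have sX := stp_of_mem hdet hX
    have sW := stp_of_mem hdet hW
    have c1 : (W * X).trace = (X * W).trace := Matrix.trace_mul_comm W X
    rw [adm2, LinearMap.add_comp, LinearMap.sub_comp, LinearMap.sub_comp, map_add, map_sub,
      map_sub, trace_lrm_prJ hJ, trace_lrm_prJ hJ, trace_lrm_prJ hJ, trace_lrm_prJ hJ,
      stp_one hdet, stp_mul hdet, sX, sW, htr1, hX.2, hW.2]
    simp only [Matrix.mul_one, Matrix.one_mul, Matrix.mul_neg, Matrix.neg_mul, neg_neg,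
      Matrix.trace_neg, c1]
    linear_combination ((n : k) * (X * W).trace - 2 * ε * (X * W).trace) * h2
  · intro X hX W hW
    have sX := stp_of_mem hdet hX
    have sW := stp_of_mem hdet hW
    have c1 : (W * X).trace = (X * W).trace := Matrix.trace_mul_comm W X
    have c2 : (X * X * W * X).trace = (X * X * X * W).trace := by
      rw [Matrix.trace_mul_comm]
      simp only [Matrix.mul_assoc]
    have c3 : (X * W * X * X).trace = (X * X * X * W).trace := by
      rw [show X * W * X * X = (X * W) * (X * X) by simp only [Matrix.mul_assoc],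
        Matrix.trace_mul_comm]
      simp only [Matrix.mul_assoc]
    have c4 : (W * X * X * X).trace = (X * X * X * W).trace := by
      rw [show W * X * X * X = W * (X * X * X) by simp only [Matrix.mul_assoc],
        Matrix.trace_mul_comm]
    rw [adm4]
    simp only [LinearMap.add_comp, LinearMap.sub_comp, LinearMap.smul_comp, map_add, map_sub,
      map_smul, trace_lrm_prJ hJ, stp_one hdet, stp_mul hdet, sX, sW, htr1, hX.2, hW.2,
      Matrix.mul_one, Matrix.one_mul, Matrix.mul_neg, Matrix.neg_mul, neg_neg,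
      Matrix.trace_neg, smul_eq_mul]
    simp only [← Matrix.mul_assoc, c1, c2, c3, c4]
    linear_combination ((n : k) * (X * X * X * W).trace + 3 * ((X * X).trace * (X * W).trace)
      - 8 * ε * (X * X * X * W).trace) * h2
  · intro Z hZW hZ
    have h1 : ∀ N : Matrix (Fin n) (Fin n) k, (Z * N).trace = 0 := by
      intro N
      have e1 := hZW _ (prJ_mem hε hJ hdet N)
      rw [prJ_apply, Matrix.mul_smul, Matrix.trace_smul, Matrix.mul_sub, Matrix.trace_sub,
        smul_eq_mul] at e1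
      have e2 : (Z * (J⁻¹ * Nᵀ * J)).trace = -(Z * N).trace := by
        have hu := isUnit_iff_ne_zero.mpr hdet
        have e3 : J * Z = -(Zᵀ * J) := eq_neg_of_add_eq_zero_right hZ.1
        have e4 := Matrix.mul_nonsing_inv _ hu
        calc (Z * (J⁻¹ * Nᵀ * J)).trace = ((J * Z) * (J⁻¹ * Nᵀ)).trace := by
              rw [show Z * (J⁻¹ * Nᵀ * J) = (Z * (J⁻¹ * Nᵀ)) * J by
                simp only [Matrix.mul_assoc], Matrix.trace_mul_comm]
              simp only [Matrix.mul_assoc]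
          _ = -(Zᵀ * Nᵀ).trace := by
              rw [e3, Matrix.neg_mul, Matrix.trace_neg, Matrix.mul_assoc, ← Matrix.mul_assoc J,
                e4, Matrix.one_mul]
          _ = -(Z * N).trace := by
              rw [← transpose_mul, Matrix.trace_transpose, Matrix.trace_mul_comm]
      rw [e2] at e1
      have h3 := (mul_eq_zero.mp e1).resolve_left (inv_ne_zero two_ne_zero)
      have h4 : (2 : k) * (Z * N).trace = 0 := by linear_combination h3
      exact (mul_eq_zero.mp h4).resolve_left two_ne_zero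
    rw [Matrix.ext_iff_trace_mul_right]
    intro N
    rw [h1, Matrix.zero_mul, Matrix.trace_zero]

end Form

section SL

variable {k : Type*} [Field k] [CharZero k] {n : ℕ}

theorem TD_zero (hn : 1 ≤ n) :
    TD (0 : Matrix (Fin n) (Fin n) k) (2 * (n : k)) (2 * (n : k)) 6 ((n : k) * n - 1) := by
  have hn0 : (n : k) ≠ 0 := Nat.cast_ne_zero.mpr (by omega)
  have hinv : (n : k)⁻¹ * n = 1 := inv_mul_cancel₀ hn0
  have htr1 : (1 : Matrix (Fin n) (Fin n) k).trace = (n : k) := by
    rw [Matrix.trace_one, Fintype.card_fin]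
  let s : Matrix (Fin n) (Fin n) k →ₗ[k] Matrix (Fin n) (Fin n) k :=
    LinearMap.id - (n : k)⁻¹ • tsm 1
  have hs : ∀ Z, s Z = Z - (n : k)⁻¹ • (Z.trace • (1 : Matrix (Fin n) (Fin n) k)) :=
    fun Z => rfl
  have hmem : ∀ Z, s Z ∈ gJ (0 : Matrix (Fin n) (Fin n) k) := by
    intro Z
    rw [mem_gJ_zero, hs, Matrix.trace_sub, Matrix.trace_smul, Matrix.trace_smul, htr1,
      smul_eq_mul, smul_eq_mul]
    linear_combination -Z.trace * hinv
  have htl : ∀ A B : Matrix (Fin n) (Fin n) k, LinearMap.trace k _ (lrm A B ∘ₗ s)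
      = A.trace * B.trace - (n : k)⁻¹ * (A * B).trace := by
    intro A B
    have h1 : lrm A B ∘ₗ s = lrm A B - (n : k)⁻¹ • tsm (A * B) := by
      refine LinearMap.ext fun Z => ?_
      rw [LinearMap.comp_apply, hs, LinearMap.sub_apply, LinearMap.smul_apply, tsm_apply,
        lrm_apply, lrm_apply, Matrix.mul_sub, Matrix.sub_mul, Matrix.mul_smul, Matrix.mul_smul,
        Matrix.smul_mul, Matrix.smul_mul, Matrix.mul_one]
    rw [h1, map_sub, map_smul, trace_lrm, trace_tsm, smul_eq_mul]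
  refine ⟨⟨s, hmem, ?_, ?_, ?_, ?_⟩, ?_⟩
  · intro Z hZ
    rw [hs, mem_gJ_zero.mp hZ, zero_smul, smul_zero, sub_zero]
  · have h1 : s = lrm 1 1 ∘ₗ s := by
      refine LinearMap.ext fun Z => ?_
      rw [LinearMap.comp_apply, lrm_apply, Matrix.one_mul, Matrix.mul_one]
    rw [h1, htl, Matrix.mul_one, htr1]
    linear_combination -hinv
  · intro X hX W hW
    have c1 : (W * X).trace = (X * W).trace := Matrix.trace_mul_comm W X
    rw [adm2, LinearMap.add_comp, LinearMap.sub_comp, LinearMap.sub_comp, map_add, map_sub,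
      map_sub, htl, htl, htl, htl, htr1, hX.2, hW.2]
    simp only [Matrix.mul_one, Matrix.one_mul, c1]
    ring
  · intro X hX W hW
    have c1 : (W * X).trace = (X * W).trace := Matrix.trace_mul_comm W X
    have c2 : (X * X * W * X).trace = (X * X * X * W).trace := by
      rw [Matrix.trace_mul_comm]
      simp only [Matrix.mul_assoc]
    have c3 : (X * W * X * X).trace = (X * X * X * W).trace := by
      rw [show X * W * X * X = (X * W) * (X * X) by simp only [Matrix.mul_assoc],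
        Matrix.trace_mul_comm]
      simp only [Matrix.mul_assoc]
    have c4 : (W * X * X * X).trace = (X * X * X * W).trace := by
      rw [show W * X * X * X = W * (X * X * X) by simp only [Matrix.mul_assoc],
        Matrix.trace_mul_comm]
    rw [adm4]
    simp only [LinearMap.add_comp, LinearMap.sub_comp, LinearMap.smul_comp, map_add, map_sub,
      map_smul, htl, htr1, hX.2, hW.2, Matrix.mul_one, Matrix.one_mul, smul_eq_mul]
    simp only [← Matrix.mul_assoc, c1, c2, c3, c4]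
    ring
  · intro Z hZW hZ
    have h1 : ∀ N : Matrix (Fin n) (Fin n) k, (Z * N).trace = 0 := by
      intro N
      have e1 := hZW _ (hmem N)
      rw [hs, Matrix.mul_sub, Matrix.trace_sub, Matrix.mul_smul, Matrix.mul_smul,
        Matrix.mul_one, Matrix.trace_smul, Matrix.trace_smul, mem_gJ_zero.mp hZ, smul_zero,
        smul_zero, sub_zero] at e1
      exact e1
    rw [Matrix.ext_iff_trace_mul_right]
    intro N
    rw [h1, Matrix.zero_mul, Matrix.trace_zero]

end SL

end Pool.Agent.Helper14.RG.AU
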