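import Pool.Agent.Helper14.RG.AU.Back2

set_option autoImplicit false

/-!
# Trace data of the classical Lie algebras: statements
-/

namespace Pool.Agent.Helper14.RG.AU

open Matrix Pool.Agent.Helper97.CG Pool.Agent.Helper14.RG

variable {k : Type*} [Field k] {m n : ℕ}

/-- `Z ↦ A Z B` -/
def lrm (A B : Matrix (Fin n) (Fin n) k) : Matrix (Fin n) (Fin n) k →ₗ[k] Matrix (Fin n) (Fin n) k where
  toFun Z := A * Z * B
  map_add' X Y := by rw [Matrix.mul_add, Matrix.add_mul]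
  map_smul' r X := by rw [Matrix.mul_smul, Matrix.smul_mul, RingHom.id_apply]

lemma lrm_apply (A B Z : Matrix (Fin n) (Fin n) k) : lrm A B Z = A * Z * B := rfl

/-- `Z ↦ X Z - Z X` -/
def adm (X : Matrix (Fin n) (Fin n) k) : Matrix (Fin n) (Fin n) k →ₗ[k] Matrix (Fin n) (Fin n) k :=
  lrm X 1 - lrm 1 X

lemma adm_apply (X Z : Matrix (Fin n) (Fin n) k) : adm X Z = X * Z - Z * X := by
  unfold adm
  rw [LinearMap.sub_apply, lrm_apply, lrm_apply, Matrix.mul_one, Matrix.one_mul]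

/-- Trace data of `gJ J`: the dimension is `d`, and the traces of `ad X ad W` and of
`(ad X)³ ad W` are `A tr (X W)` and `B tr (X³ W) + C tr X² tr (X W)`. The three types are
* `sl_n`: `A = 2 n`, `B = 2 n`, `C = 6`, `d = n² - 1` (`n ≥ 1`),
* `sp_n`: `A = n + 2`, `B = n + 8`, `C = 3`, `d = (n² + n) / 2`,
* `so_n`: `A = n - 2`, `B = n - 8`, `C = 3`, `d = (n² - n) / 2`. -/
structure TD (J : Matrix (Fin n) (Fin n) k) (A B C d : k) : Prop where
  pr : ∃ s : Matrix (Fin n) (Fin n) k →ₗ[k] Matrix (Fin n) (Fin n) k,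
    (∀ Z, s Z ∈ gJ J) ∧ (∀ Z ∈ gJ J, s Z = Z) ∧ LinearMap.trace k _ s = d ∧
    (∀ X ∈ gJ J, ∀ W ∈ gJ J,
      LinearMap.trace k _ ((adm X ∘ₗ adm W) ∘ₗ s) = A * (X * W).trace) ∧
    (∀ X ∈ gJ J, ∀ W ∈ gJ J,
      LinearMap.trace k _ ((adm X ∘ₗ adm X ∘ₗ adm X ∘ₗ adm W) ∘ₗ s)
        = B * (X * X * X * W).trace + C * ((X * X).trace * (X * W).trace))
  nd : ∀ Z : Matrix (Fin n) (Fin n) k, (∀ W ∈ gJ J, (Z * W).trace = 0) →
    Z ∈ gJ J → Z = 0

/-- `D` restricts to an isomorphism of Lie algebras. -/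
structure LIso (J : Matrix (Fin m) (Fin m) k) (J' : Matrix (Fin n) (Fin n) k)
    (D : Matrix (Fin m) (Fin m) k →ₗ[k] Matrix (Fin n) (Fin n) k) : Prop where
  mem : ∀ X ∈ gJ J, D X ∈ gJ J'
  surj : ∀ Y ∈ gJ J', ∃ X ∈ gJ J, D X = Y
  inj : ∀ X ∈ gJ J, D X = 0 → X = 0
  lie : ∀ X ∈ gJ J, ∀ Y ∈ gJ J, D (X * Y - Y * X) = D X * D Y - D Y * D X

/-- The relations between the traces that an isomorphism gives. -/
structure TrRel (J : Matrix (Fin m) (Fin m) k) (A B C d : k) (J' : Matrix (Fin n) (Fin n) k)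
    (A' B' C' d' : k) (D : Matrix (Fin m) (Fin m) k →ₗ[k] Matrix (Fin n) (Fin n) k) : Prop where
  dim : d' = d
  two : ∀ X ∈ gJ J, ∀ W ∈ gJ J, A' * (D X * D W).trace = A * (X * W).trace
  four : ∀ X ∈ gJ J, ∀ W ∈ gJ J,
    B' * (D X * D X * D X * D W).trace + C' * ((D X * D X).trace * (D X * D W).trace)
      = B * (X * X * X * W).trace + C * ((X * X).trace * (X * W).trace)

end Pool.Agent.Helper14.RG.AU
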